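import Mathlib
import Pool.Agent.Helper949.TB.Defs

/-! Polarization in `ℝ^N`: half-spaces, reflections, polarized sets. -/

set_option autoImplicit false

open MeasureTheory Set
open scoped Topology ENNReal NNReal RealInnerProductSpace

namespace Pool.Agent.K7.H80.FK

open Pool.Agent.Helper949.TB (E)

/-- an affine half-space `{x : c < ⟪n, x⟫}` with unit normal `n` -/
structure HP (N : ℕ) where
  n : E N
  hn : ‖n‖ = 1
  c : ℝ

namespace HP

variable {N : ℕ} (P : HP N)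

/-- signed distance to the boundary -/
noncomputable def s (x : E N) : ℝ := ⟪P.n, x⟫ - P.c

/-- the half-space -/
def H : Set (E N) := {x | 0 < P.s x}

/-- reflection in the boundary -/
noncomputable def σ (x : E N) : E N := x - (2 * P.s x) • P.n

lemma nn : ⟪P.n, P.n⟫ = 1 := by rw [real_inner_self_eq_norm_sq, P.hn]; norm_num

lemma s_cont : Continuous P.s := by unfold s; fun_prop

lemma s_σ (x : E N) : P.s (P.σ x) = - P.s x := by
  have : ⟪P.n, P.σ x⟫ = ⟪P.n, x⟫ - 2 * P.s x := by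
    unfold σ
    rw [inner_sub_right, inner_smul_right, P.nn]; ring
  unfold s at *
  rw [this]; ring

lemma σσ (x : E N) : P.σ (P.σ x) = x := by
  change P.σ x - (2 * P.s (P.σ x)) • P.n = x
  rw [P.s_σ x]
  unfold σ
  module

lemma σ_isom (x y : E N) : ‖P.σ x - P.σ y‖ = ‖x - y‖ := by
  have e : P.σ x - P.σ y = (x - y) - (2 * ⟪P.n, x - y⟫) • P.n := by
    unfold σ s
    rw [inner_sub_right]
    module
  rw [e]
  have h : ‖(x - y) - (2 * ⟪P.n, x - y⟫) • P.n‖ ^ 2 = ‖x - y‖ ^ 2 := by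
    rw [norm_sub_sq_real, norm_smul, P.hn, inner_smul_right, real_inner_comm, mul_one, Real.norm_eq_abs,
      sq_abs]
    ring
  exact (pow_left_inj₀ (norm_nonneg _) (norm_nonneg _) two_ne_zero).mp h

lemma σ_eq (x : E N) : P.σ x = (Submodule.reflection (ℝ ∙ P.n)ᗮ) x + (2 * P.c) • P.n := by
  rw [Submodule.reflection_orthogonal_apply, Submodule.reflection_singleton_apply, P.hn]
  unfold σ s
  simp
  module

lemma σ_mp : MeasurePreserving P.σ volume volume := by
  have h1 : MeasurePreserving (Submodule.reflection (ℝ ∙ P.n)ᗮ) (volume : Measure (E N)) volume :=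
    LinearIsometryEquiv.measurePreserving _
  have h2 : MeasurePreserving (fun x : E N => x + (2 * P.c) • P.n) volume volume :=
    measurePreserving_add_right volume _
  have e : P.σ = (fun x : E N => x + (2 * P.c) • P.n) ∘ (Submodule.reflection (ℝ ∙ P.n)ᗮ) := by
    ext1 x
    exact P.σ_eq x
  rw [e]
  exact h2.comp h1

lemma σ_meas : Measurable P.σ := P.σ_mp.measurable

lemma s_ne : ∀ᵐ x : E N, P.s x ≠ 0 := by
  rw [ae_iff]
  simp only [not_not]
  have e : {x : E N | P.s x = 0} = (fun x : E N => x + (-P.c • P.n)) ⁻¹' ((ℝ ∙ P.n)ᗮ : Submodule ℝ (E N)) := by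
    ext x
    rw [mem_preimage, SetLike.mem_coe, Submodule.mem_orthogonal_singleton_iff_inner_right,
      inner_add_right, inner_smul_right, P.nn]
    simp [s, sub_eq_add_neg]
  rw [e, measure_preimage_add_right]
  apply Measure.addHaar_submodule
  intro h
  have h1 : P.n ∈ ((ℝ ∙ P.n)ᗮ : Submodule ℝ (E N)) := by rw [h]; trivial
  rw [Submodule.mem_orthogonal_singleton_iff_inner_right, P.nn] at h1
  exact one_ne_zero h1

lemma H_open : IsOpen P.H := isOpen_lt continuous_const P.s_cont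

/-- polarization -/
def pol (A : Set (E N)) : Set (E N) := ((A ∪ P.σ '' A) ∩ P.H) ∪ ((A ∩ P.σ '' A) \ P.H)

lemma image_eq (A : Set (E N)) : P.σ '' A = P.σ ⁻¹' A := by
  ext x
  constructor
  · rintro ⟨y, hy, rfl⟩
    rw [mem_preimage, P.σσ]; exact hy
  · intro hx
    exact ⟨P.σ x, hx, P.σσ x⟩

lemma mem_pol (A : Set (E N)) (x : E N) : x ∈ P.pol A ↔
    ((x ∈ A ∨ P.σ x ∈ A) ∧ 0 < P.s x) ∨ ((x ∈ A ∧ P.σ x ∈ A) ∧ ¬ 0 < P.s x) := by
  unfold pol H
  rw [P.image_eq]
  rfl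

lemma pol_meas {A : Set (E N)} (hA : MeasurableSet A) : MeasurableSet (P.pol A) := by
  unfold pol
  rw [P.image_eq]
  have h1 := P.σ_meas hA
  have h2 := P.H_open.measurableSet
  exact ((hA.union h1).inter h2).union ((hA.inter h1).diff h2)

lemma int_comp (u : E N → ℝ) : ∫ x, u (P.σ x) = ∫ x, u x := by
  have he : MeasurableEmbedding P.σ := by
    have : Function.Involutive P.σ := P.σσ
    let E : E N ≃ᵐ E N := ⟨this.toPerm, P.σ_meas, P.σ_meas⟩
    exact E.measurableEmbedding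
  exact P.σ_mp.integral_comp he u

lemma norm_le_σ (hc : P.c ≤ 0) {x : E N} (hx : 0 < P.s x) : ‖x‖ ≤ ‖P.σ x‖ := by
  have h : ‖P.σ x‖ ^ 2 = ‖x‖ ^ 2 - 4 * P.s x * P.c := by
    unfold σ
    rw [norm_sub_sq_real, norm_smul, P.hn, inner_smul_right, real_inner_comm, mul_one, Real.norm_eq_abs,
      sq_abs]
    have : ⟪P.n, x⟫ = P.s x + P.c := by unfold s; ring
    rw [this]
    ring
  have h2 : ‖x‖ ^ 2 ≤ ‖P.σ x‖ ^ 2 := by rw [h]; nlinarith
  exact le_of_sq_le_sq h2 (norm_nonneg _)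

lemma pol_sub (hc : P.c ≤ 0) {A : Set (E N)} {R : ℝ} (hA : A ⊆ Metric.ball 0 R) : P.pol A ⊆ Metric.ball 0 R := by
  intro x hx
  rw [P.mem_pol] at hx
  rcases hx with ⟨h1 | h1, h2⟩ | ⟨⟨h1, _⟩, _⟩
  · exact hA h1
  · have h3 := hA h1
    rw [Metric.mem_ball, dist_zero_right] at h3 ⊢
    exact (P.norm_le_σ hc h2).trans_lt h3
  · exact hA h1

lemma two_int {f : E N → ℝ} (hf : Integrable f) : ∫ x, (f x + f (P.σ x)) = 2 * ∫ x, f x := by
  have h2 : Integrable (fun x => f (P.σ x)) := P.σ_mp.integrable_comp_of_integrable hf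
  rw [integral_add hf h2, P.int_comp f]
  ring

lemma pol_pos {A : Set (E N)} {x : E N} (h : 0 < P.s x) :
    (x ∈ P.pol A ↔ (x ∈ A ∨ P.σ x ∈ A)) ∧ (P.σ x ∈ P.pol A ↔ (x ∈ A ∧ P.σ x ∈ A)) := by
  have h2 : ¬ 0 < P.s (P.σ x) := by rw [P.s_σ]; linarith
  constructor
  · rw [P.mem_pol]; tauto
  · rw [P.mem_pol, P.σσ]; tauto

lemma pol_neg {A : Set (E N)} {x : E N} (h : P.s x < 0) :
    (x ∈ P.pol A ↔ (x ∈ A ∧ P.σ x ∈ A)) ∧ (P.σ x ∈ P.pol A ↔ (x ∈ A ∨ P.σ x ∈ A)) := by
  have h2 : 0 < P.s (P.σ x) := by rw [P.s_σ]; linarith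
  have h3 : ¬ 0 < P.s x := by linarith
  constructor
  · rw [P.mem_pol]; tauto
  · rw [P.mem_pol, P.σσ]; tauto

lemma int_ind {S : Set (E N)} (hS : MeasurableSet S) : ∫ x, S.indicator (fun _ => (1:ℝ)) x = volume.real S := by
  rw [integral_indicator hS, setIntegral_const]
  simp

lemma ind_int {S : Set (E N)} (hS : MeasurableSet S) {R : ℝ} (hSR : S ⊆ Metric.ball 0 R) :
    Integrable (S.indicator (fun _ => (1:ℝ))) := by
  rw [integrable_indicator_iff hS]
  exact integrableOn_const ((measure_mono hSR).trans_lt measure_ball_lt_top).ne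

lemma pol_vol (hc : P.c ≤ 0) {A : Set (E N)} (hA : MeasurableSet A) {R : ℝ} (hAR : A ⊆ Metric.ball 0 R) :
    volume.real (P.pol A) = volume.real A := by
  have h1 := P.two_int (ind_int (P.pol_meas hA) (P.pol_sub hc hAR))
  have h2 := P.two_int (ind_int hA hAR)
  rw [int_ind (P.pol_meas hA)] at h1
  rw [int_ind hA] at h2
  have h3 : ∫ x, ((P.pol A).indicator (fun _ => (1:ℝ)) x + (P.pol A).indicator (fun _ => (1:ℝ)) (P.σ x))
      = ∫ x, (A.indicator (fun _ => (1:ℝ)) x + A.indicator (fun _ => (1:ℝ)) (P.σ x)) := by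
    apply integral_congr_ae
    filter_upwards [P.s_ne] with x hx
    rcases lt_or_gt_of_ne hx with h | h
    · obtain ⟨p1, p2⟩ := P.pol_neg (A := A) h
      by_cases b1 : x ∈ A <;> by_cases b2 : P.σ x ∈ A <;> simp [indicator, p1, p2, b1, b2]
    · obtain ⟨p1, p2⟩ := P.pol_pos (A := A) h
      by_cases b1 : x ∈ A <;> by_cases b2 : P.σ x ∈ A <;> simp [indicator, p1, p2, b1, b2]
  linarith

/-- the set where polarization gains -/
def G (A B : Set (E N)) : Set (E N) := {x | 0 < P.s x ∧ (x ∈ B ∧ x ∉ A) ∧ (P.σ x ∈ A ∧ P.σ x ∉ B)}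

lemma G_meas {A B : Set (E N)} (hA : MeasurableSet A) (hB : MeasurableSet B) : MeasurableSet (P.G A B) := by
  have h1 : MeasurableSet {x | 0 < P.s x} := P.H_open.measurableSet
  have h2 : MeasurableSet {x | P.σ x ∈ A} := P.σ_meas hA
  have h3 : MeasurableSet {x | P.σ x ∈ B} := P.σ_meas hB
  exact h1.inter ((hB.inter hA.compl).inter (h2.inter h3.compl))

lemma pol_gain (hc : P.c ≤ 0) {A : Set (E N)} (hA : MeasurableSet A) {R r : ℝ} (hAR : A ⊆ Metric.ball 0 R) :
    volume.real (P.pol A ∩ Metric.ball 0 r) = volume.real (A ∩ Metric.ball 0 r)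
      + volume.real (P.G A (Metric.ball 0 r)) := by
  set B := Metric.ball (0:E N) r with hB
  have hBm : MeasurableSet B := measurableSet_ball
  have hG := P.G_meas hA hBm
  have hGs : P.G A B ⊆ Metric.ball 0 r := fun x hx => hx.2.1.1
  have m1 := (P.pol_meas hA).inter hBm
  have m2 := hA.inter hBm
  have h1 := P.two_int (ind_int m1 (inter_subset_left.trans (P.pol_sub hc hAR)))
  have h2 := P.two_int (ind_int m2 (inter_subset_left.trans hAR))
  have h3 := P.two_int (ind_int hG hGs)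
  rw [int_ind m1] at h1
  rw [int_ind m2] at h2
  rw [int_ind hG] at h3
  have i2 : Integrable (fun x => ((A ∩ B).indicator (fun _ => (1:ℝ)) x + (A ∩ B).indicator (fun _ => (1:ℝ)) (P.σ x))) := by
    have := ind_int m2 (inter_subset_left.trans hAR)
    exact this.add (P.σ_mp.integrable_comp_of_integrable this)
  have i3 : Integrable (fun x => ((P.G A B).indicator (fun _ => (1:ℝ)) x + (P.G A B).indicator (fun _ => (1:ℝ)) (P.σ x))) := by
    have := ind_int hG hGs
    exact this.add (P.σ_mp.integrable_comp_of_integrable this)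
  have h4 : ∫ x, ((P.pol A ∩ B).indicator (fun _ => (1:ℝ)) x + (P.pol A ∩ B).indicator (fun _ => (1:ℝ)) (P.σ x))
      = ∫ x, (((A ∩ B).indicator (fun _ => (1:ℝ)) x + (A ∩ B).indicator (fun _ => (1:ℝ)) (P.σ x))
        + ((P.G A B).indicator (fun _ => (1:ℝ)) x + (P.G A B).indicator (fun _ => (1:ℝ)) (P.σ x))) := by
    apply integral_congr_ae
    filter_upwards [P.s_ne] with x hx
    have key : ∀ y : E N, 0 < P.s y → P.σ y ∈ B → y ∈ B := by
      intro y hy hyB
      rw [hB, Metric.mem_ball, dist_zero_right] at hyB ⊢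
      exact (P.norm_le_σ hc hy).trans_lt hyB
    rcases lt_or_gt_of_ne hx with h | h
    · obtain ⟨p1, p2⟩ := P.pol_neg (A := A) h
      have a1 : ¬ (0 < P.s x) := by linarith
      have a2 : 0 < P.s (P.σ x) := by rw [P.s_σ]; linarith
      have k := key (P.σ x) a2
      rw [P.σσ] at k
      have g1 : x ∉ P.G A B := fun hh => a1 hh.1
      have g2 : P.σ x ∈ P.G A B ↔ ((P.σ x ∈ B ∧ P.σ x ∉ A) ∧ (x ∈ A ∧ x ∉ B)) := by
        unfold G
        rw [mem_ofPred_eq, P.σσ]
        tauto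
      by_cases b1 : x ∈ A <;> by_cases b2 : P.σ x ∈ A <;> by_cases b3 : x ∈ B <;>
        by_cases b4 : P.σ x ∈ B <;> simp [indicator, p1, p2, g1, g2, b1, b2, b3, b4] <;> tauto
    · obtain ⟨p1, p2⟩ := P.pol_pos (A := A) h
      have a1 : ¬ (0 < P.s (P.σ x)) := by rw [P.s_σ]; linarith
      have k := key x h
      have g2 : P.σ x ∉ P.G A B := fun hh => a1 hh.1
      have g1 : x ∈ P.G A B ↔ ((x ∈ B ∧ x ∉ A) ∧ (P.σ x ∈ A ∧ P.σ x ∉ B)) := by
        unfold G
        rw [mem_ofPred_eq]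
        tauto
      by_cases b1 : x ∈ A <;> by_cases b2 : P.σ x ∈ A <;> by_cases b3 : x ∈ B <;>
        by_cases b4 : P.σ x ∈ B <;> simp [indicator, p1, p2, g1, g2, b1, b2, b3, b4] <;> tauto
  rw [integral_add i2 i3] at h4
  linarith

lemma norm_σ_sub (x y : E N) : ‖P.σ x - y‖ ^ 2 = ‖x - y‖ ^ 2 + 4 * (P.s x * P.s y) := by
  have e : P.σ x - y = (x - y) - (2 * P.s x) • P.n := by unfold HP.σ; module
  have h1 : ⟪x - y, P.n⟫ = P.s x - P.s y := by
    rw [real_inner_comm, inner_sub_right]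
    unfold HP.s
    ring
  rw [e, norm_sub_sq_real, norm_smul, P.hn, inner_smul_right, h1, mul_one, Real.norm_eq_abs, sq_abs]
  ring

end HP

end Pool.Agent.K7.H80.FK
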