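import Mathlib
import Pool.Agent.K7.H80.FK1

/-! Averaging over reflections: some polarization makes a definite gain. -/

set_option autoImplicit false

open MeasureTheory Set
open scoped Topology ENNReal NNReal RealInnerProductSpace

namespace Pool.Agent.K7.H80.FK

open Pool.Agent.Helper949.TB (E)

lemma ray {N : ℕ} (hN : 1 ≤ N) {X : Set (E N)} (hX : MeasurableSet X) (y : E N) {D : ℝ}
    (hXD : ∀ x ∈ X, ‖y - x‖ ≤ D) :
    volume X ≤ ENNReal.ofReal (D ^ (N - 1)) *
      ∫⁻ θ : Metric.sphere (0 : E N) 1, (∫⁻ s in Ioi (0:ℝ),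
        X.indicator (fun _ => (1:ℝ≥0∞)) (y - s • (θ : E N))) ∂((volume : Measure (E N)).toSphere) := by
  have : Nonempty (Fin N) := ⟨⟨0, by omega⟩⟩
  have : Nontrivial (E N) := inferInstance
  have hind : Measurable (X.indicator (fun _ => (1:ℝ≥0∞))) := measurable_const.indicator hX
  set g : E N → ℝ≥0∞ := fun z => X.indicator (fun _ => (1:ℝ≥0∞)) (y - z) with hg
  have hgm : Measurable g := hind.comp (by fun_prop)
  have h1 : volume X = ∫⁻ z, g z := by
    rw [hg]
    simp only
    rw [lintegral_sub_left_eq_self (X.indicator (fun _ => (1:ℝ≥0∞))) y, lintegral_indicator hX,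
      setLIntegral_one]
  have h2 : ∫⁻ z, g z = ∫⁻ z : ({(0 : E N)}ᶜ : Set (E N)), g z ∂(volume.comap Subtype.val) := by
    rw [lintegral_subtype_comap (measurableSet_singleton _).compl, restrict_compl_singleton]
  have h3 : ∫⁻ z : ({(0 : E N)}ᶜ : Set (E N)), g z ∂(volume.comap Subtype.val) =
      ∫⁻ p : Metric.sphere (0 : E N) 1 × Ioi (0:ℝ), g ((p.2 : ℝ) • (p.1 : E N))
        ∂((volume : Measure (E N)).toSphere.prod (Measure.volumeIoiPow (N - 1))) := by
    have hmp := (volume : Measure (E N)).measurePreserving_homeomorphUnitSphereProd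
    rw [finrank_euclideanSpace_fin] at hmp
    rw [← hmp.lintegral_comp]
    · refine lintegral_congr fun z => ?_
      congr 1
      have hz : (z : E N) ≠ 0 := z.2
      have : (z : E N) = ‖(z : E N)‖ • ‖(z : E N)‖⁻¹ • (z : E N) := by
        rw [smul_smul, mul_inv_cancel₀ (norm_ne_zero_iff.2 hz), one_smul]
      simpa using this
    · exact hgm.comp (by fun_prop)
  have hpm : Measurable (fun p : Metric.sphere (0 : E N) 1 × Ioi (0:ℝ) => g ((p.2 : ℝ) • (p.1 : E N))) :=
    hgm.comp (by fun_prop)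
  have h4 : ∫⁻ p : Metric.sphere (0 : E N) 1 × Ioi (0:ℝ), g ((p.2 : ℝ) • (p.1 : E N))
        ∂((volume : Measure (E N)).toSphere.prod (Measure.volumeIoiPow (N - 1)))
      = ∫⁻ θ : Metric.sphere (0 : E N) 1, (∫⁻ r : Ioi (0:ℝ), g ((r : ℝ) • (θ : E N))
        ∂(Measure.volumeIoiPow (N - 1))) ∂((volume : Measure (E N)).toSphere) :=
    lintegral_prod _ hpm.aemeasurable
  rw [h1, h2, h3, h4, ← lintegral_const_mul']
  · refine lintegral_mono fun θ => ?_
    simp only
    have hgr : Measurable (fun r : Ioi (0:ℝ) => g ((r : ℝ) • (θ : E N))) :=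
      hgm.comp (by fun_prop)
    unfold Measure.volumeIoiPow
    rw [lintegral_withDensity_eq_lintegral_mul _ (by fun_prop) hgr,
      ← lintegral_const_mul' _ _ ENNReal.ofReal_ne_top]
    have h5 : ∫⁻ s in Ioi (0:ℝ), ENNReal.ofReal (D ^ (N - 1)) * X.indicator (fun _ => (1:ℝ≥0∞)) (y - s • (θ : E N))
        = ∫⁻ s : Ioi (0:ℝ), ENNReal.ofReal (D ^ (N - 1)) * X.indicator (fun _ => (1:ℝ≥0∞)) (y - (s : ℝ) • (θ : E N))
          ∂(volume.comap Subtype.val) := by
      rw [lintegral_subtype_comap measurableSet_Ioi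
        (fun s : ℝ => ENNReal.ofReal (D ^ (N - 1)) * X.indicator (fun _ => (1:ℝ≥0∞)) (y - s • (θ : E N)))]
    rw [h5]
    refine lintegral_mono fun s => ?_
    simp only [Pi.mul_apply, hg]
    by_cases hz : y - (s : ℝ) • (θ : E N) ∈ X
    · gcongr
      · exact s.2.out.le
      · have h6 := hXD _ hz
        rw [sub_sub_cancel, norm_smul, Real.norm_eq_abs, abs_of_pos s.2.out] at h6
        have h7 : ‖(θ : E N)‖ = 1 := by
          have := θ.2
          rwa [mem_sphere_zero_iff_norm] at this
        rwa [h7, mul_one] at h6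
    · rw [indicator_of_notMem hz, mul_zero, mul_zero]
  · exact ENNReal.ofReal_ne_top

/-- the half-space with inner normal `θ` and offset `t/2` -/
noncomputable def hp {N : ℕ} (θ : Metric.sphere (0 : E N) 1) (t : ℝ) : HP N :=
  ⟨θ, by simpa using θ.2, t / 2⟩

lemma hp_σ {N : ℕ} (θ : Metric.sphere (0 : E N) 1) (t : ℝ) (y : E N) :
    (hp θ t).σ y = y - (2 * ⟪(θ : E N), y⟫ - t) • (θ : E N) := by
  unfold HP.σ HP.s hp
  congr 2
  ring

lemma hp_s {N : ℕ} (θ : Metric.sphere (0 : E N) 1) (t : ℝ) (y : E N) :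
    (hp θ t).s y = ⟪(θ : E N), y⟫ - t / 2 := rfl

lemma geom {N : ℕ} {y n : E N} {s t r R : ℝ} (hn : ‖n‖ = 1) (hs : s = 2 * ⟪n, y⟫ - t) (hs0 : 0 < s) (hy : ‖y‖ < r)
    (h1 : r ≤ ‖y - s • n‖) (h2 : ‖y - s • n‖ < R) (_hrR : r ≤ R) : t ∈ Ioo (-(2 * R)) 0 := by
  have hnorm : ‖y - s • n‖ ^ 2 = ‖y‖ ^ 2 - s * t := by
    rw [norm_sub_sq_real, norm_smul, hn, inner_smul_right, real_inner_comm, mul_one,
      Real.norm_eq_abs, sq_abs]
    have : ⟪n, y⟫ = (s + t) / 2 := by rw [hs]; ring
    rw [this]; ring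
  constructor
  · have h5 : ⟪n, y - s • n⟫ = ⟪n, y⟫ - s := by
      rw [inner_sub_right, inner_smul_right, real_inner_self_eq_norm_sq, hn]; ring
    have h6 := abs_real_inner_le_norm n (y - s • n)
    have h7 := abs_real_inner_le_norm n y
    rw [hn, one_mul] at h6 h7
    have h8 := (abs_le.mp h6).1
    have h9 := (abs_le.mp h7).1
    linarith
  · have h5 : ‖y‖ ^ 2 < ‖y - s • n‖ ^ 2 :=
      pow_lt_pow_left₀ (by linarith) (norm_nonneg _) two_ne_zero
    nlinarith

/-- the constant in the averaging argument -/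
noncomputable def gc (N : ℕ) (R : ℝ) : ℝ :=
  2 * ((2 * R) ^ (N - 1) * ((volume : Measure (E N)).toSphere.real univ * (2 * R)))

lemma sph_pos {N : ℕ} (hN : 1 ≤ N) : 0 < (volume : Measure (E N)).toSphere.real univ := by
  have : Nonempty (Fin N) := ⟨⟨0, by omega⟩⟩
  have : Nontrivial (E N) := inferInstance
  rw [Measure.toSphere_real_apply_univ]
  have h1 : 0 < Module.finrank ℝ (E N) := Module.finrank_pos
  have h2 : 0 < (volume : Measure (E N)).real (Metric.ball 0 1) :=
    ENNReal.toReal_pos (Metric.measure_ball_pos _ _ one_pos).ne' measure_ball_lt_top.ne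
  positivity

lemma gc_pos {N : ℕ} (hN : 1 ≤ N) {R : ℝ} (hR : 0 < R) : 0 < gc N R := by
  have := sph_pos hN
  unfold gc
  positivity

/-- the averaging argument: some polarization makes a definite gain -/
theorem exists_gain {N : ℕ} (hN : 1 ≤ N) {A : Set (E N)} (hA : MeasurableSet A) {R r : ℝ} (hR : 0 < R) (hrR : r ≤ R)
    (hAR : A ⊆ Metric.ball 0 R)
    (hX : volume (A \ Metric.ball 0 r) ≠ 0) (hY : volume (Metric.ball 0 r \ A) ≠ 0) :
    ∃ P : HP N, P.c ≤ 0 ∧ volume.real (A \ Metric.ball 0 r) * volume.real (Metric.ball 0 r \ A)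
      / gc N R ≤ volume.real (P.G A (Metric.ball 0 r)) := by
  have hgc := gc_pos hN hR
  set B := Metric.ball (0:E N) r with hB
  have hBm : MeasurableSet B := measurableSet_ball
  set X := A \ B with hXd
  set Y := B \ A with hYd
  have hXm : MeasurableSet X := hA.diff hBm
  have hYm : MeasurableSet Y := hBm.diff hA
  have hXfin : volume X ≠ ⊤ := ((measure_mono (sdiff_subset.trans hAR)).trans_lt measure_ball_lt_top).ne
  have hYfin : volume Y ≠ ⊤ := ((measure_mono sdiff_subset).trans_lt measure_ball_lt_top).ne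
  have hXp : 0 < volume.real X := ENNReal.toReal_pos hX hXfin
  have hYp : 0 < volume.real Y := ENNReal.toReal_pos hY hYfin
  by_contra hcon
  push Not at hcon
  set γ := volume.real X * volume.real Y / gc N R with hγ
  have hγ0 : 0 < γ := by positivity
  have hdm : Measurable (fun θ : Metric.sphere (0 : E N) 1 => (θ : E N)) := by fun_prop
  -- the big measurable function
  set F : (Metric.sphere (0 : E N) 1) × ℝ → E N → ℝ≥0∞ := fun p y =>
    {q : ((Metric.sphere (0 : E N) 1) × ℝ) × E N | 0 < 2 * ⟪(q.1.1 : E N), q.2⟫ - q.1.2 ∧ q.2 ∈ Y ∧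
      q.2 - (2 * ⟪(q.1.1 : E N), q.2⟫ - q.1.2) • (q.1.1 : E N) ∈ X}.indicator (fun _ => (1:ℝ≥0∞)) (p, y) with hF
  have hSm : MeasurableSet {q : ((Metric.sphere (0 : E N) 1) × ℝ) × E N | 0 < 2 * ⟪(q.1.1 : E N), q.2⟫ - q.1.2 ∧ q.2 ∈ Y ∧
      q.2 - (2 * ⟪(q.1.1 : E N), q.2⟫ - q.1.2) • (q.1.1 : E N) ∈ X} := by
    have m1 : Measurable (fun q : ((Metric.sphere (0 : E N) 1) × ℝ) × E N => 2 * ⟪(q.1.1 : E N), q.2⟫ - q.1.2) := by
      have hd : Measurable (fun q : ((Metric.sphere (0 : E N) 1) × ℝ) × E N => (q.1.1 : E N)) := hdm.comp (by fun_prop)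
      have := hd.inner (𝕜 := ℝ) (measurable_snd (α := (Metric.sphere (0 : E N) 1) × ℝ) (β := E N))
      exact (this.const_mul 2).sub (by fun_prop)
    have m2 : Measurable (fun q : ((Metric.sphere (0 : E N) 1) × ℝ) × E N => q.2 - (2 * ⟪(q.1.1 : E N), q.2⟫ - q.1.2) • (q.1.1 : E N)) := by
      have hd : Measurable (fun q : ((Metric.sphere (0 : E N) 1) × ℝ) × E N => (q.1.1 : E N)) := hdm.comp (by fun_prop)
      exact measurable_snd.sub (m1.smul hd)
    exact (measurableSet_lt measurable_const m1).inter ((measurable_snd hYm).inter (m2 hXm))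
  have hFm : Measurable (Function.uncurry F) := measurable_const.indicator hSm
  set I1 : Measure (Metric.sphere (0 : E N) 1) := (volume : Measure (E N)).toSphere with hI1
  set I2 : Measure ℝ := volume.restrict (Ioo (-(2 * R)) 0) with hI2
  set W : ℝ := I1.real univ with hW
  have hWpos : 0 < W := sph_pos hN
  -- upper bound
  have hup : ∫⁻ p, ∫⁻ y, F p y ∂volume ∂(I1.prod I2) ≤ ENNReal.ofReal γ * ENNReal.ofReal (W * (2 * R)) := by
    have h1 : ∀ᵐ p ∂(I1.prod I2), ∫⁻ y, F p y ≤ ENNReal.ofReal γ := by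
      have h2 : ∀ᵐ p ∂(I1.prod I2), p.2 ∈ Ioo (-(2 * R)) 0 := by
        have : ∀ᵐ t ∂I2, t ∈ Ioo (-(2 * R)) 0 := ae_restrict_mem measurableSet_Ioo
        exact Measure.quasiMeasurePreserving_snd.ae this
      filter_upwards [h2] with p hp2
      have h3 := hcon (hp p.1 p.2) (by
        change p.2 / 2 ≤ 0
        linarith [hp2.2])
      have h4 : ∫⁻ y, F p y = volume ((hp p.1 p.2).G A B) := by
        rw [← setLIntegral_one, ← lintegral_indicator ((hp p.1 p.2).G_meas hA hBm)]
        apply lintegral_congr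
        intro y
        simp only [hF, indicator]
        congr 1
        rw [eq_iff_iff]
        simp only [mem_ofPred_eq, HP.G, hp_s, hp_σ, hXd, hYd, mem_sdiff]
        constructor
        · rintro ⟨a, b, c⟩
          exact ⟨by linarith, b, c⟩
        · rintro ⟨a, b, c⟩
          exact ⟨by linarith, b, c⟩
      rw [h4, ← ENNReal.ofReal_toReal (a := volume ((hp p.1 p.2).G A B))]
      · exact ENNReal.ofReal_le_ofReal h3.le
      · exact ((measure_mono (fun x hx => hx.2.1.1)).trans_lt (measure_ball_lt_top (x := (0:E N)) (r := r))).ne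
    calc ∫⁻ p, ∫⁻ y, F p y ∂volume ∂(I1.prod I2) ≤ ∫⁻ _p, ENNReal.ofReal γ ∂(I1.prod I2) :=
          lintegral_mono_ae h1
      _ = ENNReal.ofReal γ * ENNReal.ofReal (W * (2 * R)) := by
          have hI1W : I1 univ = ENNReal.ofReal W := by
            rw [hW, Measure.real, ENNReal.ofReal_toReal (measure_ne_top _ _)]
          rw [lintegral_const, ← univ_prod_univ, Measure.prod_prod, hI1W, hI2,
            Measure.restrict_apply_univ, Real.volume_Ioo, ← ENNReal.ofReal_mul hWpos.le]
          congr 3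
          ring
  -- lower bound
  have hlow : ENNReal.ofReal (volume.real X * volume.real Y / (2 * R) ^ (N - 1)) ≤
      ∫⁻ p, ∫⁻ y, F p y ∂volume ∂(I1.prod I2) := by
    rw [lintegral_lintegral_swap hFm.aemeasurable]
    have h1 : ∀ y ∈ Y, ENNReal.ofReal (volume.real X / (2 * R) ^ (N - 1)) ≤ ∫⁻ p, F p y ∂(I1.prod I2) := by
      intro y hy
      have hyr : ‖y‖ < r := by
        have := hy.1
        rwa [hB, Metric.mem_ball, dist_zero_right] at this
      have hFy : Measurable (fun p => F p y) := hFm.of_uncurry_right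
      rw [lintegral_prod _ hFy.aemeasurable]
      have h2 : ∀ θ : Metric.sphere (0 : E N) 1, ∫⁻ t, F (θ, t) y ∂I2 =
          ∫⁻ s in Ioi (0:ℝ), X.indicator (fun _ => (1:ℝ≥0∞)) (y - s • (θ : E N)) := by
        intro θ
        have hθn : ‖(θ : E N)‖ = 1 := by simpa using θ.2
        have e1 : ∫⁻ t, F (θ, t) y ∂I2 = ∫⁻ t, F (θ, t) y := by
          rw [hI2, ← lintegral_indicator measurableSet_Ioo]
          apply lintegral_congr
          intro t
          by_cases ht : t ∈ Ioo (-(2 * R)) 0
          · rw [indicator_of_mem ht]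
          · rw [indicator_of_notMem ht]
            symm
            simp only [hF]
            apply indicator_of_notMem
            rintro ⟨a, b, c⟩
            apply ht
            simp only at a b c
            have hxR : ‖y - (2 * ⟪(θ : E N), y⟫ - t) • (θ : E N)‖ < R := by
              have := hAR c.1
              rwa [Metric.mem_ball, dist_zero_right] at this
            have hxr : r ≤ ‖y - (2 * ⟪(θ : E N), y⟫ - t) • (θ : E N)‖ := by
              have := c.2
              rwa [hB, Metric.mem_ball, dist_zero_right, not_lt] at this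
            exact geom hθn rfl a hyr hxr hxR hrR
        rw [e1, ← lintegral_sub_left_eq_self (fun s => F (θ, s) y) (2 * ⟪(θ : E N), y⟫),
          ← lintegral_indicator measurableSet_Ioi]
        apply lintegral_congr
        intro s
        have hk : 2 * ⟪(θ : E N), y⟫ - (2 * ⟪(θ : E N), y⟫ - s) = s := sub_sub_cancel _ _
        by_cases hs : 0 < s
        · rw [indicator_of_mem (show s ∈ Ioi (0:ℝ) from hs)]
          by_cases hx : y - s • (θ : E N) ∈ X
          · rw [indicator_of_mem hx]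
            apply indicator_of_mem
            refine ⟨?_, hy, ?_⟩
            · change 0 < 2 * ⟪(θ : E N), y⟫ - (2 * ⟪(θ : E N), y⟫ - s)
              rw [hk]; exact hs
            · change y - (2 * ⟪(θ : E N), y⟫ - (2 * ⟪(θ : E N), y⟫ - s)) • (θ : E N) ∈ X
              rw [hk]; exact hx
          · rw [indicator_of_notMem hx]
            apply indicator_of_notMem
            rintro ⟨_, _, hx2⟩
            change y - (2 * ⟪(θ : E N), y⟫ - (2 * ⟪(θ : E N), y⟫ - s)) • (θ : E N) ∈ X at hx2
            rw [hk] at hx2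
            exact hx hx2
        · rw [indicator_of_notMem (show s ∉ Ioi (0:ℝ) from hs)]
          apply indicator_of_notMem
          rintro ⟨hx1, _⟩
          change 0 < 2 * ⟪(θ : E N), y⟫ - (2 * ⟪(θ : E N), y⟫ - s) at hx1
          rw [hk] at hx1
          exact hs hx1
      simp_rw [h2]
      have h3 := ray hN hXm y (D := 2 * R) (by
        intro x hx
        have h4 := hAR hx.1
        rw [Metric.mem_ball, dist_zero_right] at h4
        calc ‖y - x‖ ≤ ‖y‖ + ‖x‖ := norm_sub_le _ _
          _ ≤ 2 * R := by linarith)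
      have h5 : 0 < (2 * R) ^ (N - 1) := by positivity
      have h6 : ENNReal.ofReal (volume.real X / (2 * R) ^ (N - 1)) =
          (ENNReal.ofReal ((2 * R) ^ (N - 1)))⁻¹ * volume X := by
        have h7 : volume X = ENNReal.ofReal (volume.real X) := (ENNReal.ofReal_toReal hXfin).symm
        rw [← ENNReal.ofReal_inv_of_pos h5, h7, ← ENNReal.ofReal_mul (by positivity), div_eq_inv_mul]
      rw [h6]
      calc (ENNReal.ofReal ((2 * R) ^ (N - 1)))⁻¹ * volume X
          ≤ (ENNReal.ofReal ((2 * R) ^ (N - 1)))⁻¹ * (ENNReal.ofReal ((2 * R) ^ (N - 1)) * ∫⁻ θ, (∫⁻ s in Ioi (0:ℝ),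
            X.indicator (fun _ => (1:ℝ≥0∞)) (y - s • (θ : E N))) ∂I1) := by gcongr
        _ = _ := by
          rw [← mul_assoc, ENNReal.inv_mul_cancel (by positivity) ENNReal.ofReal_ne_top, one_mul]
    calc ENNReal.ofReal (volume.real X * volume.real Y / (2 * R) ^ (N - 1))
        = ∫⁻ y in Y, ENNReal.ofReal (volume.real X / (2 * R) ^ (N - 1)) := by
          rw [setLIntegral_const, ← ENNReal.ofReal_toReal hYfin, ← ENNReal.ofReal_mul (by positivity)]
          congr 1
          change _ = volume.real X / (2 * R) ^ (N - 1) * volume.real Y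
          ring
      _ ≤ ∫⁻ y in Y, ∫⁻ p, F p y ∂(I1.prod I2) := by
          apply setLIntegral_mono_ae' hYm
          exact Filter.Eventually.of_forall h1
      _ ≤ ∫⁻ y, ∫⁻ p, F p y ∂(I1.prod I2) := setLIntegral_le_lintegral _ _
  have hfin := hlow.trans hup
  rw [← ENNReal.ofReal_mul hγ0.le, ENNReal.ofReal_le_ofReal_iff (by positivity), hγ] at hfin
  have h5 : volume.real X * volume.real Y / gc N R * (W * (2 * R))
      = volume.real X * volume.real Y / (2 * (2 * R) ^ (N - 1)) := by
    unfold gc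
    rw [← hI1, ← hW]
    field_simp
  rw [h5] at hfin
  have h6 : 0 < volume.real X * volume.real Y := by positivity
  have h7 : 0 < (2 * R) ^ (N - 1) := by positivity
  rw [div_le_div_iff₀ (by positivity) (by positivity)] at hfin
  nlinarith [mul_pos h6 h7]

end Pool.Agent.K7.H80.FK
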