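import Mathlib
import Pool.Agent.K7.H80.FK2

/-! Polarization and a monotone kernel form. -/

set_option autoImplicit false

open MeasureTheory Set
open scoped Topology ENNReal NNReal RealInnerProductSpace

namespace Pool.Agent.K7.H80.FK

open Pool.Agent.Helper949.TB (E)

variable {N : ℕ}

/-- sets reachable by finitely many polarizations with respect to half-spaces whose closure
contains the origin -/
inductive Reach (A : Set (E N)) : Set (E N) → Prop
  | refl : Reach A A
  | step {A' : Set (E N)} (P : HP N) (hc : P.c ≤ 0) (h : Reach A A') : Reach A (P.pol A')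

lemma Reach.props {A A' : Set (E N)} (h : Reach A A') {R : ℝ} (hA : MeasurableSet A)
    (hAR : A ⊆ Metric.ball 0 R) : MeasurableSet A' ∧ A' ⊆ Metric.ball 0 R ∧
      volume.real A' = volume.real A := by
  induction h with
  | refl => exact ⟨hA, hAR, rfl⟩
  | step P hc h ih =>
    obtain ⟨h1, h2, h3⟩ := ih
    exact ⟨P.pol_meas h1, P.pol_sub hc h2, by rw [P.pol_vol hc h1 h2, h3]⟩

lemma real_split {S B : Set (E N)} (hB : MeasurableSet B) {R : ℝ} (hS : S ⊆ Metric.ball 0 R) :
    volume.real (S ∩ B) + volume.real (S \ B) = volume.real S := by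
  have hfin : volume S ≠ ⊤ := ((measure_mono hS).trans_lt measure_ball_lt_top).ne
  exact measureReal_inter_add_sdiff hB hfin

/-- polarizations approximate the ball -/
theorem approx (hN1 : 1 ≤ N) {A : Set (E N)} (hA : MeasurableSet A) {R r : ℝ} (hR : 0 < R) (hrR : r ≤ R)
    (hAR : A ⊆ Metric.ball 0 R) (hvol : volume.real A = volume.real (Metric.ball (0:E N) r))
    {δ : ℝ} (hδ : 0 < δ) : ∃ A', Reach A A' ∧ volume.real (Metric.ball 0 r \ A') < δ := by
  by_contra hcon
  push Not at hcon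
  have hgc := gc_pos hN1 hR
  set B := Metric.ball (0:E N) r with hB
  have hBm : MeasurableSet B := measurableSet_ball
  set S : Set ℝ := {x | ∃ A', Reach A A' ∧ x = volume.real (A' ∩ B)} with hS
  have hne : S.Nonempty := ⟨_, A, Reach.refl, rfl⟩
  have hBfin : volume B ≠ ⊤ := measure_ball_lt_top.ne
  have hbdd : BddAbove S := by
    refine ⟨volume.real B, ?_⟩
    rintro x ⟨A', _, rfl⟩
    exact measureReal_mono inter_subset_right hBfin
  set β := sSup S with hβ
  set γ := δ ^ 2 / gc N R with hγ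
  have hγ0 : 0 < γ := by positivity
  obtain ⟨x, ⟨A', hA', rfl⟩, hx⟩ := exists_lt_of_lt_csSup hne (show β - γ < sSup S by linarith)
  obtain ⟨p1, p2, p3⟩ := hA'.props hA hAR
  have hY : δ ≤ volume.real (B \ A') := hcon A' hA'
  have hXY : volume.real (A' \ B) = volume.real (B \ A') := by
    have e1 := real_split hBm p2
    have e2 := real_split (S := B) p1 (R := r) Subset.rfl
    rw [inter_comm] at e2
    linarith
  have hX : δ ≤ volume.real (A' \ B) := by rw [hXY]; exact hY
  have hX0 : volume (A' \ B) ≠ 0 := by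
    intro h0
    rw [Measure.real, h0] at hX
    simp at hX
    linarith
  have hY0 : volume (B \ A') ≠ 0 := by
    intro h0
    rw [Measure.real, h0] at hY
    simp at hY
    linarith
  obtain ⟨P, hc, hP⟩ := exists_gain hN1 p1 hR hrR p2 hX0 hY0
  have hgain := P.pol_gain hc p1 p2 (r := r)
  have h1 : γ ≤ volume.real (P.G A' B) := by
    refine le_trans ?_ hP
    rw [hγ]
    apply div_le_div_of_nonneg_right _ (by positivity)
    nlinarith
  have h2 : volume.real (P.pol A' ∩ B) ≤ β := le_csSup hbdd ⟨P.pol A', Reach.step P hc hA', rfl⟩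
  have h3 : volume.real (P.pol A' ∩ B) = volume.real (A' ∩ B) + volume.real (P.G A' B) := hgain
  linarith

lemma int_add4 {α : Type*} [MeasurableSpace α] {μ : Measure α} {f g h k : α → ℝ}
    (hf : Integrable f μ) (hg : Integrable g μ) (hh : Integrable h μ) (hk : Integrable k μ) :
    ∫ x, (f x + g x + (h x + k x)) ∂μ =
      ∫ x, f x ∂μ + ∫ x, g x ∂μ + (∫ x, h x ∂μ + ∫ x, k x ∂μ) := by
  have h1 := integral_add (hf.add hg) (hh.add hk)
  simp only [Pi.add_apply] at h1
  rw [h1, integral_add hf hg, integral_add hh hk]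

lemma int_add3 {α : Type*} [MeasurableSpace α] {μ : Measure α} {f g h : α → ℝ}
    (hf : Integrable f μ) (hg : Integrable g μ) (hh : Integrable h μ) :
    ∫ x, (f x + (g x + h x)) ∂μ = ∫ x, f x ∂μ + (∫ x, g x ∂μ + ∫ x, h x ∂μ) := by
  have h1 := integral_add hf (hg.add hh)
  simp only [Pi.add_apply] at h1
  rw [h1, integral_add hg hh]

/-- the kernel: indicator function of `‖x - y‖ < a` -/
noncomputable def gk (a : ℝ) (x y : E N) : ℝ := if ‖x - y‖ < a then 1 else 0

/-- bounded nonnegative measurable functions supported in `A` -/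
structure Cl (A : Set (E N)) (M : ℝ) (f : (E N) → ℝ) : Prop where
  meas : Measurable f
  nn : ∀ x, 0 ≤ f x
  le : ∀ x, f x ≤ M
  out : ∀ x, x ∉ A → f x = 0

/-- the kernel form -/
noncomputable def Q (a : ℝ) (f g : (E N) → ℝ) : ℝ :=
  ∫ p : (E N) × (E N), gk a p.1 p.2 * (f p.1 * g p.2) ∂(volume.prod volume)

lemma gk_meas (a : ℝ) : Measurable fun p : (E N) × (E N) => gk a p.1 p.2 := by
  unfold gk
  exact Measurable.ite (measurableSet_lt (by fun_prop) measurable_const) measurable_const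
    measurable_const

lemma gk_le (a : ℝ) (x y : (E N)) : gk a x y ≤ 1 := by
  unfold gk
  split_ifs <;> norm_num

lemma gk_nn (a : ℝ) (x y : (E N)) : 0 ≤ gk a x y := by
  unfold gk
  split_ifs <;> norm_num

lemma gk_comm (a : ℝ) (x y : (E N)) : gk a x y = gk a y x := by unfold gk; rw [norm_sub_rev]

variable {A : Set (E N)} {M : ℝ} {f : (E N) → ℝ} {R a : ℝ}

/-- integrability of products with bounded kernels -/
lemma Cl.int_prod (hf : Cl A M f) {g : (E N) → ℝ} {B : Set (E N)} {M' : ℝ} (hg : Cl B M' g)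
    (hAR : A ⊆ Metric.ball 0 R) (hBR : B ⊆ Metric.ball 0 R) (ha : 0 < a) :
    Integrable (fun p : (E N) × (E N) => gk a p.1 p.2 * (f p.1 * g p.2)) (volume.prod volume) := by
  have hM : 0 ≤ M := (hf.nn 0).trans (hf.le 0)
  have hM' : 0 ≤ M' := (hg.nn 0).trans (hg.le 0)
  have hi : Integrable ((Metric.ball (0:(E N)) R ×ˢ Metric.ball (0:(E N)) R).indicator fun _ => M * M')
      (volume.prod volume) := by
    rw [integrable_indicator_iff (measurableSet_ball.prod measurableSet_ball)]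
    refine integrableOn_const ?_
    rw [Measure.prod_prod]
    exact ENNReal.mul_ne_top measure_ball_lt_top.ne measure_ball_lt_top.ne
  refine hi.mono' ?_ (Filter.Eventually.of_forall fun p => ?_)
  · refine Measurable.aestronglyMeasurable ?_
    exact (gk_meas a).mul ((hf.meas.comp measurable_fst).mul (hg.meas.comp measurable_snd))
  · have h0 : 0 ≤ gk a p.1 p.2 * (f p.1 * g p.2) :=
      mul_nonneg (gk_nn a _ _) (mul_nonneg (hf.nn _) (hg.nn _))
    rw [Real.norm_eq_abs, abs_of_nonneg h0]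
    by_cases hp : p ∈ Metric.ball (0:(E N)) R ×ˢ Metric.ball (0:(E N)) R
    · rw [indicator_of_mem hp]
      have h1 : f p.1 * g p.2 ≤ M * M' := mul_le_mul (hf.le _) (hg.le _) (hg.nn _) hM
      have h2 : 0 ≤ f p.1 * g p.2 := mul_nonneg (hf.nn _) (hg.nn _)
      nlinarith [gk_le a p.1 p.2, gk_nn a p.1 p.2]
    · rw [indicator_of_notMem hp]
      have : f p.1 * g p.2 = 0 := by
        rw [mem_prod, not_and_or] at hp
        rcases hp with h | h
        · rw [hf.out _ (fun h' => h (hAR h')), zero_mul]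
        · rw [hg.out _ (fun h' => h (hBR h')), mul_zero]
      rw [this, mul_zero]

lemma Cl.int_sq (hf : Cl A M f) (hAR : A ⊆ Metric.ball 0 R) : Integrable fun x => f x ^ 2 := by
  have hM : 0 ≤ M := (hf.nn 0).trans (hf.le 0)
  have hi : Integrable ((Metric.ball (0:(E N)) R).indicator fun _ => M ^ 2) := by
    rw [integrable_indicator_iff measurableSet_ball]
    exact integrableOn_const measure_ball_lt_top.ne
  refine hi.mono' (hf.meas.pow_const 2).aestronglyMeasurable (Filter.Eventually.of_forall fun x => ?_)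
  rw [Real.norm_eq_abs, abs_of_nonneg (sq_nonneg _)]
  by_cases hx : x ∈ Metric.ball (0:(E N)) R
  · rw [indicator_of_mem hx]
    exact pow_le_pow_left₀ (hf.nn x) (hf.le x) 2
  · rw [indicator_of_notMem hx, hf.out x (fun h => hx (hAR h))]
    norm_num

section pol

variable (P : HP N)

lemma gk_mono {a : ℝ} {x y x' y' : E N} (h : ‖x - y‖ ^ 2 ≤ ‖x' - y'‖ ^ 2) : gk a x' y' ≤ gk a x y := by
  unfold gk
  have h1 : ‖x - y‖ ≤ ‖x' - y'‖ := le_of_sq_le_sq h (norm_nonneg _)
  split_ifs with h2 h3 h3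
  · exact le_rfl
  · exact absurd (h1.trans_lt h2) h3
  · norm_num
  · exact le_rfl

lemma gk_σ_same {a : ℝ} {x y : (E N)} (h : 0 ≤ P.s x * P.s y) : gk a (P.σ x) y ≤ gk a x y := by
  apply gk_mono
  rw [HP.norm_σ_sub]
  nlinarith

lemma gk_σ_opp {a : ℝ} {x y : (E N)} (h : P.s x * P.s y ≤ 0) : gk a x y ≤ gk a (P.σ x) y := by
  apply gk_mono
  rw [HP.norm_σ_sub]
  nlinarith

lemma gk_σσ (x y : (E N)) : gk a (P.σ x) (P.σ y) = gk a x y := by unfold gk; rw [P.σ_isom]

lemma gk_σ' (x y : (E N)) : gk a x (P.σ y) = gk a (P.σ x) y := by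
  rw [← gk_σσ P x (P.σ y), P.σσ]

open Classical in
/-- the polarized function -/
noncomputable def pf (f : (E N) → ℝ) (x : (E N)) : ℝ :=
  if 0 < P.s x then max (f x) (f (P.σ x)) else min (f x) (f (P.σ x))

lemma pf_cl (hf : Cl A M f) : Cl (P.pol A) M (pf P f) := by
  constructor
  · exact Measurable.ite P.H_open.measurableSet (hf.meas.max (hf.meas.comp P.σ_meas))
      (hf.meas.min (hf.meas.comp P.σ_meas))
  · intro x
    unfold pf
    split_ifs
    · exact le_max_of_le_left (hf.nn x)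
    · exact le_min (hf.nn x) (hf.nn _)
  · intro x
    unfold pf
    split_ifs
    · exact max_le (hf.le x) (hf.le _)
    · exact min_le_of_left_le (hf.le x)
  · intro x hx
    rw [P.mem_pol] at hx
    push Not at hx
    unfold pf
    split_ifs with h
    · have h1 : x ∉ A := fun h' => absurd (hx.1 (Or.inl h')) (not_le.2 h)
      have h2 : P.σ x ∉ A := fun h' => absurd (hx.1 (Or.inr h')) (not_le.2 h)
      rw [hf.out _ h1, hf.out _ h2, max_self]
    · have h1 : ¬ (x ∈ A ∧ P.σ x ∈ A) := fun h' => h (hx.2 h')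
      rw [not_and_or] at h1
      rcases h1 with h1 | h1
      · rw [hf.out _ h1]; exact min_eq_left (hf.nn _)
      · rw [hf.out _ h1]; exact min_eq_right (hf.nn _)

lemma pf_pos {x : (E N)} (h : 0 < P.s x) : pf P f x = max (f x) (f (P.σ x)) ∧
    pf P f (P.σ x) = min (f x) (f (P.σ x)) := by
  have h2 : ¬ 0 < P.s (P.σ x) := by rw [P.s_σ]; linarith
  unfold pf
  rw [if_pos h, if_neg h2, P.σσ, min_comm]
  exact ⟨rfl, rfl⟩

lemma pf_neg {x : (E N)} (h : P.s x < 0) : pf P f x = min (f x) (f (P.σ x)) ∧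
    pf P f (P.σ x) = max (f x) (f (P.σ x)) := by
  have h1 : ¬ 0 < P.s x := by linarith
  have h2 : 0 < P.s (P.σ x) := by rw [P.s_σ]; linarith
  unfold pf
  rw [if_neg h1, if_pos h2, P.σσ, max_comm]
  exact ⟨rfl, rfl⟩

lemma pf_sq (hc : P.c ≤ 0) (hf : Cl A M f) (hAR : A ⊆ Metric.ball 0 R) :
    ∫ x, pf P f x ^ 2 = ∫ x, f x ^ 2 := by
  have h1 := P.two_int ((pf_cl P hf).int_sq (P.pol_sub hc hAR))
  have h2 := P.two_int (hf.int_sq hAR)
  have h3 : ∫ x, (pf P f x ^ 2 + pf P f (P.σ x) ^ 2) = ∫ x, (f x ^ 2 + f (P.σ x) ^ 2) := by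
    apply integral_congr_ae
    filter_upwards [P.s_ne] with x hx
    rcases lt_or_gt_of_ne hx with h | h
    · rw [(pf_neg P h).1, (pf_neg P h).2]
      rcases le_total (f x) (f (P.σ x)) with h4 | h4
      · rw [min_eq_left h4, max_eq_right h4]
      · rw [min_eq_right h4, max_eq_left h4]; ring
    · rw [(pf_pos P h).1, (pf_pos P h).2]
      rcases le_total (f x) (f (P.σ x)) with h4 | h4
      · rw [min_eq_left h4, max_eq_right h4]; ring
      · rw [min_eq_right h4, max_eq_left h4]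
  linarith

/-- four-point sum -/
noncomputable def S4 (a : ℝ) (f : (E N) → ℝ) (p : (E N) × (E N)) : ℝ :=
  gk a p.1 p.2 * (f p.1 * f p.2 + f (P.σ p.1) * f (P.σ p.2)) +
    gk a (P.σ p.1) p.2 * (f (P.σ p.1) * f p.2 + f p.1 * f (P.σ p.2))

lemma alg {k1 k2 A1 A2 B1 B2 : ℝ} (hk : k2 ≤ k1) :
    k1 * (A1 * B1 + A2 * B2) + k2 * (A2 * B1 + A1 * B2) ≤
      k1 * (max A1 A2 * max B1 B2 + min A1 A2 * min B1 B2) +
        k2 * (min A1 A2 * max B1 B2 + max A1 A2 * min B1 B2) := by
  rcases le_total A1 A2 with hA | hA <;> rcases le_total B1 B2 with hB | hB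
  · rw [max_eq_right hA, min_eq_left hA, max_eq_right hB, min_eq_left hB]
    linarith
  · rw [max_eq_right hA, min_eq_left hA, max_eq_left hB, min_eq_right hB]
    nlinarith [mul_nonneg (sub_nonneg.2 hk) (mul_nonneg (sub_nonneg.2 hA) (sub_nonneg.2 hB))]
  · rw [max_eq_left hA, min_eq_right hA, max_eq_right hB, min_eq_left hB]
    nlinarith [mul_nonneg (sub_nonneg.2 hk) (mul_nonneg (sub_nonneg.2 hA) (sub_nonneg.2 hB))]
  · rw [max_eq_left hA, min_eq_right hA, max_eq_left hB, min_eq_right hB]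

lemma S4_le (ha : 0 < a) {p : (E N) × (E N)} (h1 : P.s p.1 ≠ 0) (h2 : P.s p.2 ≠ 0) :
    S4 P a f p ≤ S4 P a (pf P f) p := by
  unfold S4
  rcases lt_or_gt_of_ne h1 with hx | hx <;> rcases lt_or_gt_of_ne h2 with hy | hy
  · rw [(pf_neg P hx).1, (pf_neg P hx).2, (pf_neg P hy).1, (pf_neg P hy).2]
    have hk := gk_σ_same P (a := a) (x := p.1) (y := p.2) (by nlinarith)
    have := alg (A1 := f p.1) (A2 := f (P.σ p.1)) (B1 := f p.2) (B2 := f (P.σ p.2)) hk
    linarith
  · rw [(pf_neg P hx).1, (pf_neg P hx).2, (pf_pos P hy).1, (pf_pos P hy).2]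
    have hk := gk_σ_opp P (a := a) (x := p.1) (y := p.2) (by nlinarith)
    have := alg (A1 := f p.1) (A2 := f (P.σ p.1)) (B1 := f (P.σ p.2)) (B2 := f p.2) hk
    rw [max_comm (f (P.σ p.2)), min_comm (f (P.σ p.2))] at this
    linarith
  · rw [(pf_pos P hx).1, (pf_pos P hx).2, (pf_neg P hy).1, (pf_neg P hy).2]
    have hk := gk_σ_opp P (a := a) (x := p.1) (y := p.2) (by nlinarith)
    have := alg (A1 := f p.1) (A2 := f (P.σ p.1)) (B1 := f (P.σ p.2)) (B2 := f p.2) hk
    rw [max_comm (f (P.σ p.2)), min_comm (f (P.σ p.2))] at this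
    linarith
  · rw [(pf_pos P hx).1, (pf_pos P hx).2, (pf_pos P hy).1, (pf_pos P hy).2]
    have hk := gk_σ_same P (a := a) (x := p.1) (y := p.2) (by nlinarith)
    have := alg (A1 := f p.1) (A2 := f (P.σ p.1)) (B1 := f p.2) (B2 := f (P.σ p.2)) hk
    linarith

lemma Q_S4 (hf : Cl A M f) (hAR : A ⊆ Metric.ball 0 R) (ha : 0 < a) :
    Integrable (S4 P a f) (volume.prod volume) ∧ ∫ p, S4 P a f p = 4 * Q a f f := by
  set Φ : (E N) × (E N) → ℝ := fun p => gk a p.1 p.2 * (f p.1 * f p.2) with hΦ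
  have hi : Integrable Φ (volume.prod volume) := hf.int_prod hf hAR hAR ha
  have hinv : Function.Involutive P.σ := P.σσ
  let EQ : (E N) ≃ᵐ (E N) := ⟨hinv.toPerm, P.σ_meas, P.σ_meas⟩
  have mp1 : MeasurePreserving (Prod.map P.σ id) ((volume : Measure (E N)).prod (volume : Measure (E N)))
      (volume.prod volume) := P.σ_mp.prod (MeasurePreserving.id volume)
  have mp2 : MeasurePreserving (Prod.map id P.σ) ((volume : Measure (E N)).prod (volume : Measure (E N)))
      (volume.prod volume) := (MeasurePreserving.id volume).prod P.σ_mp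
  have mp3 : MeasurePreserving (Prod.map P.σ P.σ) ((volume : Measure (E N)).prod (volume : Measure (E N)))
      (volume.prod volume) := P.σ_mp.prod P.σ_mp
  have me1 : MeasurableEmbedding (Prod.map P.σ (id : (E N) → (E N))) :=
    (EQ.prodCongr (MeasurableEquiv.refl (E N))).measurableEmbedding
  have me2 : MeasurableEmbedding (Prod.map (id : (E N) → (E N)) P.σ) :=
    ((MeasurableEquiv.refl (E N)).prodCongr EQ).measurableEmbedding
  have me3 : MeasurableEmbedding (Prod.map P.σ P.σ) := (EQ.prodCongr EQ).measurableEmbedding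
  have q1 := mp1.integral_comp me1 Φ
  have q2 := mp2.integral_comp me2 Φ
  have q3 := mp3.integral_comp me3 Φ
  have i1 := mp1.integrable_comp_of_integrable hi
  have i2 := mp2.integrable_comp_of_integrable hi
  have i3 := mp3.integrable_comp_of_integrable hi
  have e : S4 P a f = fun p => Φ p + (Φ ∘ Prod.map P.σ P.σ) p +
      ((Φ ∘ Prod.map P.σ id) p + (Φ ∘ Prod.map id P.σ) p) := by
    funext p
    simp only [S4, hΦ, Function.comp, Prod.map]
    rw [gk_σσ, id, id, gk_σ']
    ring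
  rw [e]
  refine ⟨(hi.add i3).add (i1.add i2), ?_⟩
  have hQ : Q a f f = ∫ p, Φ p ∂(volume.prod volume) := rfl
  have e2 : ∫ p : (E N) × (E N), (Φ p + (Φ ∘ Prod.map P.σ P.σ) p +
      ((Φ ∘ Prod.map P.σ id) p + (Φ ∘ Prod.map id P.σ) p)) =
      ∫ p : (E N) × (E N), (Φ p + (Φ ∘ Prod.map P.σ P.σ) p +
      ((Φ ∘ Prod.map P.σ id) p + (Φ ∘ Prod.map id P.σ) p)) ∂(volume.prod volume) := rfl
  rw [e2, int_add4 hi i3 i1 i2]
  simp only [Function.comp]
  rw [q1, q2, q3, hQ]
  ring

lemma Q_pf (hc : P.c ≤ 0) (hf : Cl A M f) (hAR : A ⊆ Metric.ball 0 R) (ha : 0 < a) :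
    Q a f f ≤ Q a (pf P f) (pf P f) := by
  obtain ⟨i1, e1⟩ := Q_S4 P hf hAR ha
  obtain ⟨i2, e2⟩ := Q_S4 P (pf_cl P hf) (P.pol_sub hc hAR) ha
  have h : ∫ p, S4 P a f p ≤ ∫ p, S4 P a (pf P f) p := by
    refine integral_mono_ae i1 i2 ?_
    have h1 : ∀ᵐ p : (E N) × (E N) ∂(volume.prod volume), P.s p.1 ≠ 0 :=
      Measure.quasiMeasurePreserving_fst.ae P.s_ne
    have h2 : ∀ᵐ p : (E N) × (E N) ∂(volume.prod volume), P.s p.2 ≠ 0 :=
      Measure.quasiMeasurePreserving_snd.ae P.s_ne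
    filter_upwards [h1, h2] with p hp1 hp2
    exact S4_le P ha hp1 hp2
  linarith

end pol

lemma reach_cl {A' : Set (E N)} (h : Reach A A') (hA : MeasurableSet A) (hAR : A ⊆ Metric.ball 0 R)
    (hf : Cl A M f) (ha : 0 < a) :
    ∃ f', Cl A' M f' ∧ ∫ x, f' x ^ 2 = ∫ x, f x ^ 2 ∧ Q a f f ≤ Q a f' f' := by
  induction h with
  | refl => exact ⟨f, hf, rfl, le_rfl⟩
  | step P hc h ih =>
    obtain ⟨f', hf', e1, e2⟩ := ih
    obtain ⟨p1, p2, -⟩ := h.props hA hAR
    exact ⟨pf P f', pf_cl P hf', by rw [pf_sq P hc hf' p2, e1], e2.trans (Q_pf P hc hf' p2 ha)⟩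

/-- Faber–Krahn for the kernel form -/
theorem fkg (hN1 : 1 ≤ N) (hA : MeasurableSet A) {r : ℝ} (hR : 0 < R) (hrR : r ≤ R) (hAR : A ⊆ Metric.ball 0 R)
    (hvol : volume.real A = volume.real (Metric.ball (0:(E N)) r)) (ha : 0 < a) {Λ : ℝ} (hΛ : 0 ≤ Λ)
    (hB : ∀ g : E N → ℝ, Cl (Metric.ball 0 r) M g → Q a g g ≤ Λ * ∫ x, g x ^ 2) (hf : Cl A M f) :
    Q a f f ≤ Λ * ∫ x, f x ^ 2 := by
  have hM : 0 ≤ M := (hf.nn 0).trans (hf.le 0)
  refine le_of_forall_pos_le_add fun ε hε => ?_
  set V := volume.real (Metric.ball (0:(E N)) R) with hV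
  have hV0 : 0 ≤ V := measureReal_nonneg
  set δ := ε / (2 * M ^ 2 * V + 1) with hδ
  have hδ0 : 0 < δ := by positivity
  obtain ⟨A', hA', hd⟩ := approx hN1 hA hR hrR hAR hvol hδ0
  obtain ⟨p1, p2, p3⟩ := hA'.props hA hAR
  obtain ⟨f', hf', e1, e2⟩ := reach_cl hA' hA hAR hf ha
  set B := Metric.ball (0:(E N)) r with hBdef
  have hBm : MeasurableSet B := measurableSet_ball
  have hBR : B ⊆ Metric.ball 0 R := Metric.ball_subset_ball hrR
  have hXY : volume.real (A' \ B) = volume.real (B \ A') := by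
    have e1 := real_split hBm p2
    have e2 := real_split (S := B) p1 (R := r) Subset.rfl
    rw [inter_comm] at e2
    linarith
  set g : (E N) → ℝ := B.indicator f' with hg
  have hgc : Cl B M g := by
    refine ⟨hf'.meas.indicator hBm, fun x => indicator_nonneg (fun y _ => hf'.nn y) x, fun x => ?_,
      fun x hx => indicator_of_notMem hx _⟩
    by_cases hx : x ∈ B
    · rw [hg, indicator_of_mem hx]; exact hf'.le x
    · rw [hg, indicator_of_notMem hx]; exact hM
  have hgf : ∀ x, g x ≤ f' x := fun x => indicator_le_self' (fun y _ => hf'.nn y) x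
  have h1 := hB g hgc
  have h2 : ∫ x, g x ^ 2 ≤ ∫ x, f x ^ 2 := by
    rw [← e1]
    exact integral_mono (hgc.int_sq hBR) (hf'.int_sq p2) fun x =>
      pow_le_pow_left₀ (hgc.nn x) (hgf x) 2
  -- the error
  have h3 : Q a f' f' ≤ Q a g g + 2 * M ^ 2 * V * volume.real (A' \ B) := by
    have i1 := hf'.int_prod hf' p2 p2 ha
    have i2 := hgc.int_prod hgc hBR hBR ha
    have hfin : volume (A' \ B) ≠ ⊤ :=
      ((measure_mono (sdiff_subset.trans p2)).trans_lt measure_ball_lt_top).ne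
    have hm1 : MeasurableSet ((A' \ B) ×ˢ Metric.ball (0:(E N)) R) :=
      (p1.diff hBm).prod measurableSet_ball
    have hm2 : MeasurableSet (Metric.ball (0:(E N)) R ×ˢ (A' \ B)) :=
      measurableSet_ball.prod (p1.diff hBm)
    have hf1 : (volume.prod volume) ((A' \ B) ×ˢ Metric.ball (0:(E N)) R) ≠ ⊤ := by
      rw [Measure.prod_prod]
      exact ENNReal.mul_ne_top hfin measure_ball_lt_top.ne
    have hf2 : (volume.prod volume) (Metric.ball (0:(E N)) R ×ˢ (A' \ B)) ≠ ⊤ := by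
      rw [Measure.prod_prod]
      exact ENNReal.mul_ne_top measure_ball_lt_top.ne hfin
    have i3 : Integrable (((A' \ B) ×ˢ Metric.ball (0:(E N)) R).indicator fun _ => M ^ 2)
        (volume.prod volume) := by
      rw [integrable_indicator_iff hm1]
      exact integrableOn_const hf1
    have i4 : Integrable ((Metric.ball (0:(E N)) R ×ˢ (A' \ B)).indicator fun _ => M ^ 2)
        (volume.prod volume) := by
      rw [integrable_indicator_iff hm2]
      exact integrableOn_const hf2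
    have v1 : ∫ p, ((A' \ B) ×ˢ Metric.ball (0:(E N)) R).indicator (fun _ => M ^ 2) p
        ∂(volume.prod volume) = volume.real (A' \ B) * V * M ^ 2 := by
      rw [integral_indicator hm1, setIntegral_const, measureReal_prod_prod, smul_eq_mul]
    have v2 : ∫ p, (Metric.ball (0:(E N)) R ×ˢ (A' \ B)).indicator (fun _ => M ^ 2) p
        ∂(volume.prod volume) = V * volume.real (A' \ B) * M ^ 2 := by
      rw [integral_indicator hm2, setIntegral_const, measureReal_prod_prod, smul_eq_mul]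
    have h4 : ∫ p, gk a p.1 p.2 * (f' p.1 * f' p.2) ∂(volume.prod volume) ≤
        ∫ p, (gk a p.1 p.2 * (g p.1 * g p.2) +
          (((A' \ B) ×ˢ Metric.ball (0:(E N)) R).indicator (fun _ => M ^ 2) p +
          (Metric.ball (0:(E N)) R ×ˢ (A' \ B)).indicator (fun _ => M ^ 2) p)) ∂(volume.prod volume) := by
      refine integral_mono i1 (i2.add (i3.add i4)) fun p => ?_
      have n1 : 0 ≤ ((A' \ B) ×ˢ Metric.ball (0:(E N)) R).indicator (fun _ => M ^ 2) p :=
        indicator_nonneg (fun _ _ => sq_nonneg _) _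
      have n2 : 0 ≤ (Metric.ball (0:(E N)) R ×ˢ (A' \ B)).indicator (fun _ => M ^ 2) p :=
        indicator_nonneg (fun _ _ => sq_nonneg _) _
      have n3 : 0 ≤ gk a p.1 p.2 * (g p.1 * g p.2) :=
        mul_nonneg (gk_nn a _ _) (mul_nonneg (hgc.nn _) (hgc.nn _))
      have n4 : gk a p.1 p.2 * (f' p.1 * f' p.2) ≤ M ^ 2 := by
        have k1 : f' p.1 * f' p.2 ≤ M * M := mul_le_mul (hf'.le _) (hf'.le _) (hf'.nn _) hM
        have k2 : 0 ≤ f' p.1 * f' p.2 := mul_nonneg (hf'.nn _) (hf'.nn _)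
        nlinarith [gk_le a p.1 p.2, gk_nn a p.1 p.2]
      simp only
      by_cases hx : p.1 ∈ A'
      · by_cases hy : p.2 ∈ A'
        · by_cases hx2 : p.1 ∈ B
          · by_cases hy2 : p.2 ∈ B
            · have : gk a p.1 p.2 * (f' p.1 * f' p.2) = gk a p.1 p.2 * (g p.1 * g p.2) := by
                rw [hg, indicator_of_mem hx2, indicator_of_mem hy2]
              rw [this]; linarith
            · have hmem : p ∈ Metric.ball (0:(E N)) R ×ˢ (A' \ B) := ⟨p2 hx, hy, hy2⟩
              have := indicator_of_mem hmem (fun _ : (E N) × (E N) => M ^ 2)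
              linarith
          · have hmem : p ∈ (A' \ B) ×ˢ Metric.ball (0:(E N)) R := ⟨⟨hx, hx2⟩, p2 hy⟩
            have := indicator_of_mem hmem (fun _ : (E N) × (E N) => M ^ 2)
            linarith
        · rw [hf'.out _ hy, mul_zero, mul_zero]; linarith
      · rw [hf'.out _ hx, zero_mul, mul_zero]; linarith
    rw [int_add3 i2 i3 i4, v1, v2] at h4
    have hQ1 : Q a f' f' = ∫ p, gk a p.1 p.2 * (f' p.1 * f' p.2) ∂(volume.prod volume) := rfl
    have hQ2 : Q a g g = ∫ p, gk a p.1 p.2 * (g p.1 * g p.2) ∂(volume.prod volume) := rfl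
    rw [hQ1, hQ2]
    linarith
  have h4 : 2 * M ^ 2 * V * volume.real (A' \ B) ≤ ε := by
    rw [hXY]
    have h5 : 2 * M ^ 2 * V * volume.real (B \ A') ≤ 2 * M ^ 2 * V * δ :=
      mul_le_mul_of_nonneg_left hd.le (by positivity)
    have h6 : 2 * M ^ 2 * V * δ ≤ ε := by
      rw [hδ, mul_div_assoc', div_le_iff₀ (by positivity)]
      nlinarith
    linarith
  have h5 : Λ * ∫ x, g x ^ 2 ≤ Λ * ∫ x, f x ^ 2 := mul_le_mul_of_nonneg_left h2 hΛ
  linarith

end Pool.Agent.K7.H80.FK
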