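import Mathlib
import Pool.Agent.K7.H80.FK3

/-! Second moments of the ball, and the comparison of the kernel form with the Dirichlet energy. -/

set_option autoImplicit false

open MeasureTheory Set Filter
open scoped Topology ENNReal NNReal RealInnerProductSpace ContDiff

namespace Pool.Agent.K7.H80.FK

open Pool.Agent.Helper949.TB (E)

variable {N : ℕ}

/-- volume of the ball of radius `a` -/
noncomputable def bv (N : ℕ) (a : ℝ) : ℝ := volume.real (Metric.ball (0 : E N) a)

/-- second moment of the ball of radius `a` -/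
noncomputable def mo (N : ℕ) (a : ℝ) : ℝ := (∫ z in Metric.ball (0 : E N) a, ‖z‖ ^ 2) / N

lemma bv_pos {a : ℝ} (ha : 0 < a) : 0 < bv N a :=
  ENNReal.toReal_pos (Metric.measure_ball_pos _ _ ha).ne' measure_ball_lt_top.ne

lemma intOn_ball {f : E N → ℝ} (hf : Continuous f) (a : ℝ) : IntegrableOn f (Metric.ball (0 : E N) a) :=
  (hf.continuousOn.integrableOn_compact (isCompact_closedBall (0 : E N) a)).mono_set
    Metric.ball_subset_closedBall

/-- change of variables by a linear isometry in the ball -/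
lemma int_isom (T : E N ≃ₗᵢ[ℝ] E N) (a : ℝ) (f : E N → ℝ) :
    ∫ z in Metric.ball (0 : E N) a, f (T z) = ∫ z in Metric.ball (0 : E N) a, f z := by
  have h1 : MeasurePreserving T volume volume := T.measurePreserving
  have h2 : MeasurableEmbedding T := T.toHomeomorph.measurableEmbedding
  have h3 := h1.setIntegral_preimage_emb h2 f (Metric.ball (0 : E N) a)
  have h4 : T ⁻¹' Metric.ball (0 : E N) a = Metric.ball (0 : E N) a := by
    ext z
    simp
  rw [h4] at h3
  exact h3

lemma mom (hN1 : 1 ≤ N) (a : ℝ) (w : E N) :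
    ∫ z in Metric.ball (0 : E N) a, ⟪w, z⟫ ^ 2 = mo N a * ‖w‖ ^ 2 := by
  have key : ∀ i : Fin N, ∫ z in Metric.ball (0 : E N) a, ⟪w, z⟫ ^ 2 =
      ‖w‖ ^ 2 * ∫ z in Metric.ball (0 : E N) a, (z i) ^ 2 := by
    intro i
    set e : E N := EuclideanSpace.single i 1 with he
    have hen : ‖e‖ = 1 := by simp [he]
    have hnorm : ‖w‖ = ‖(‖w‖ • e : E N)‖ := by rw [norm_smul, hen]; simp
    set T : E N ≃ₗᵢ[ℝ] E N := Submodule.reflection (ℝ ∙ (w - (‖w‖ • e : E N)))ᗮ with hT
    have hTw : T w = ‖w‖ • e := Submodule.reflection_sub hnorm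
    have h1 := int_isom T a (fun z => ⟪(‖w‖ • e : E N), z⟫ ^ 2)
    have h2 : ∀ z, ⟪(‖w‖ • e : E N), T z⟫ = ⟪w, z⟫ := by
      intro z
      rw [← hTw, LinearIsometryEquiv.inner_map_map]
    simp only [h2] at h1
    rw [h1, ← integral_const_mul]
    refine integral_congr_ae (Eventually.of_forall fun z => ?_)
    simp only
    rw [inner_smul_left, he, EuclideanSpace.inner_single_left]
    simp
    ring
  have hNpos : (0:ℝ) < N := by exact_mod_cast hN1
  have h2 : (N : ℝ) * ∫ z in Metric.ball (0 : E N) a, ⟪w, z⟫ ^ 2 =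
      ‖w‖ ^ 2 * ∫ z in Metric.ball (0 : E N) a, ‖z‖ ^ 2 := by
    have h3 : ∫ z in Metric.ball (0 : E N) a, ‖z‖ ^ 2 = ∑ i : Fin N, ∫ z in Metric.ball (0 : E N) a, (z i) ^ 2 := by
      rw [← integral_finset_sum]
      · refine integral_congr_ae (Eventually.of_forall fun z => ?_)
        simp only
        rw [EuclideanSpace.real_norm_sq_eq]
      · intro i _
        exact intOn_ball (by fun_prop) a
    rw [h3, Finset.mul_sum]
    simp_rw [← key]
    rw [Finset.sum_const, Finset.card_univ, Fintype.card_fin, nsmul_eq_mul]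
  unfold mo
  field_simp
  linarith

lemma mom_fderiv (hN1 : 1 ≤ N) (a : ℝ) (L : E N →L[ℝ] ℝ) :
    ∫ z in Metric.ball (0 : E N) a, (L z) ^ 2 = mo N a * ‖L‖ ^ 2 := by
  set w : E N := (InnerProductSpace.toDual ℝ (E N)).symm L with hw
  have h1 : ‖w‖ = ‖L‖ := LinearIsometryEquiv.norm_map _ _
  rw [← h1, ← mom hN1 a w]
  refine integral_congr_ae (Eventually.of_forall fun z => ?_)
  simp only
  rw [hw, InnerProductSpace.toDual_symm_apply]

lemma jensen {f : ℝ → ℝ} (hf : Continuous f) : (∫ s in (0:ℝ)..1, f s) ^ 2 ≤ ∫ s in (0:ℝ)..1, f s ^ 2 := by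
  set m := ∫ s in (0:ℝ)..1, f s with hm
  have h0 : 0 ≤ ∫ s in (0:ℝ)..1, (f s - m) ^ 2 :=
    intervalIntegral.integral_nonneg zero_le_one fun s _ => sq_nonneg _
  have e : ∀ s, (f s - m) ^ 2 = f s ^ 2 - 2 * m * f s + m ^ 2 := fun s => by ring
  simp_rw [e] at h0
  have j1 : IntervalIntegrable (fun s => f s ^ 2) volume 0 1 := (hf.pow 2).intervalIntegrable _ _
  have j2 : IntervalIntegrable (fun s => 2 * m * f s) volume 0 1 :=
    (continuous_const.mul hf).intervalIntegrable _ _
  have j3 : IntervalIntegrable (fun _ : ℝ => m ^ 2) volume 0 1 := continuous_const.intervalIntegrable _ _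
  rw [intervalIntegral.integral_add (j1.sub j2) j3, intervalIntegral.integral_sub j1 j2,
      intervalIntegral.integral_const_mul, intervalIntegral.integral_const] at h0
  simp only [sub_zero, smul_eq_mul, one_mul] at h0
  rw [← hm] at h0
  nlinarith

variable {g : E N → ℝ}

lemma int_dsq (hg : ContDiff ℝ 1 g) (hc : HasCompactSupport g) (z : E N) :
    Integrable fun x => (fderiv ℝ g x z) ^ 2 := by
  have hgd : Continuous (fderiv ℝ g) := hg.continuous_fderiv (by simp)
  have hcz : HasCompactSupport fun x => (fderiv ℝ g x z) ^ 2 := by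
    have := (hc.fderiv (𝕜 := ℝ)).comp_left (g := fun T : E N →L[ℝ] ℝ => (T z) ^ 2) (by simp)
    exact this
  have hcont : Continuous fun x => (fderiv ℝ g x z) ^ 2 := (hgd.clm_apply continuous_const).pow 2
  exact hcont.integrable_of_hasCompactSupport hcz

lemma int_dnorm (hg : ContDiff ℝ 1 g) (hc : HasCompactSupport g) :
    Integrable fun x => ‖fderiv ℝ g x‖ ^ 2 := by
  have hgd : Continuous (fderiv ℝ g) := hg.continuous_fderiv (by simp)
  have hcz : HasCompactSupport fun x => ‖fderiv ℝ g x‖ ^ 2 := by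
    have := (hc.fderiv (𝕜 := ℝ)).comp_left (g := fun T : E N →L[ℝ] ℝ => ‖T‖ ^ 2) (by simp)
    exact this
  exact (hgd.norm.pow 2).integrable_of_hasCompactSupport hcz

lemma int_diff (hg : Continuous g) (hc : HasCompactSupport g) (z : E N) :
    Integrable fun x => (g (x + z) - g x) ^ 2 := by
  have c1 : Continuous fun x => (g (x + z) - g x) ^ 2 :=
    ((hg.comp (by fun_prop)).sub hg).pow 2
  refine c1.integrable_of_hasCompactSupport ?_
  have k1 : HasCompactSupport fun x => g (x + z) := hc.comp_homeomorph (Homeomorph.addRight z)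
  have k2 := k1.sub hc
  exact k2.comp_left (g := fun t : ℝ => t ^ 2) (by simp)

lemma shift_le (hg : ContDiff ℝ 1 g) (hc : HasCompactSupport g) (z : E N) :
    ∫ x, (g (x + z) - g x) ^ 2 ≤ ∫ x, (fderiv ℝ g x z) ^ 2 := by
  have hgd : Continuous (fderiv ℝ g) := hg.continuous_fderiv (by simp)
  have hF : Continuous fun p : E N × ℝ => (fderiv ℝ g (p.1 + p.2 • z) z) ^ 2 := by
    have : Continuous fun p : E N × ℝ => fderiv ℝ g (p.1 + p.2 • z) := hgd.comp (by fun_prop)
    exact (this.clm_apply continuous_const).pow 2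
  have hcI : Integrable fun x => (fderiv ℝ g x z) ^ 2 := int_dsq hg hc z
  -- integrability on the product
  have hprod : Integrable (fun p : E N × ℝ => (fderiv ℝ g (p.1 + p.2 • z) z) ^ 2)
      (volume.prod (volume.restrict (Ioc (0:ℝ) 1))) := by
    rw [integrable_prod_iff' hF.aestronglyMeasurable]
    constructor
    · refine Eventually.of_forall fun s => ?_
      exact hcI.comp_add_right (s • z)
    · have h : ∀ s : ℝ, ∫ x : E N, ‖(fderiv ℝ g (x + s • z) z) ^ 2‖ = ∫ x, ‖(fderiv ℝ g x z) ^ 2‖ := fun s =>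
        integral_add_right_eq_self (fun x : E N => ‖(fderiv ℝ g x z) ^ 2‖) _
      simp only [h]
      exact integrable_const _
  have hpt : ∀ x : E N, (g (x + z) - g x) ^ 2 ≤ ∫ s in Ioc (0:ℝ) 1, (fderiv ℝ g (x + s • z) z) ^ 2 := by
    intro x
    have hd : ∀ s ∈ uIcc (0:ℝ) 1, HasDerivAt (fun s : ℝ => g (x + s • z)) (fderiv ℝ g (x + s • z) z) s := by
      intro s _
      have h1 : HasDerivAt (fun s : ℝ => x + s • z) z s := by
        have := ((hasDerivAt_id s).smul_const z).const_add x
        simpa using this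
      exact ((hg.differentiable (by simp) _).hasFDerivAt.comp_hasDerivAt s h1)
    have hcs : Continuous fun s : ℝ => fderiv ℝ g (x + s • z) z := by
      have : Continuous fun s : ℝ => fderiv ℝ g (x + s • z) := hgd.comp (by fun_prop)
      exact this.clm_apply continuous_const
    have h2 := intervalIntegral.integral_eq_sub_of_hasDerivAt hd (hcs.intervalIntegrable _ _)
    simp only [one_smul, zero_smul, add_zero] at h2
    rw [← h2]
    have h3 := jensen hcs
    rwa [intervalIntegral.integral_of_le zero_le_one (f := fun s => (fderiv ℝ g (x + s • z) z) ^ 2)] at h3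
  have hi1 : Integrable fun x => (g (x + z) - g x) ^ 2 := int_diff hg.continuous hc z
  calc ∫ x, (g (x + z) - g x) ^ 2
      ≤ ∫ x, ∫ s in Ioc (0:ℝ) 1, (fderiv ℝ g (x + s • z) z) ^ 2 :=
        integral_mono hi1 hprod.integral_prod_left hpt
    _ = ∫ s in Ioc (0:ℝ) 1, ∫ x, (fderiv ℝ g (x + s • z) z) ^ 2 :=
        integral_integral_swap (f := fun (x : E N) (s : ℝ) => (fderiv ℝ g (x + s • z) z) ^ 2) hprod
    _ = ∫ s in Ioc (0:ℝ) 1, ∫ x, (fderiv ℝ g x z) ^ 2 := by
        refine integral_congr_ae (Eventually.of_forall fun s => ?_)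
        exact integral_add_right_eq_self (fun x : E N => (fderiv ℝ g x z) ^ 2) _
    _ = ∫ x, (fderiv ℝ g x z) ^ 2 := by
        rw [setIntegral_const]
        simp

/-- the kernel form is controlled by the energy -/
theorem energy (hN1 : 1 ≤ N) {f : E N → ℝ} {A : Set (E N)} {M R a : ℝ} (hf : ContDiff ℝ 1 f)
    (hc : HasCompactSupport f)
    (hcl : Cl A M (fun x => |f x|)) (hAR : A ⊆ Metric.ball 0 R) (ha : 0 < a) :
    bv N a * ∫ x, f x ^ 2 ≤ Q a (fun x => |f x|) (fun x => |f x|) +
      mo N a / 2 * ∫ x, ‖fderiv ℝ f x‖ ^ 2 := by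
  set g : E N → ℝ := fun x => |f x| with hg
  have hfc := hf.continuous
  have hgc : Continuous g := hfc.abs
  set μ : Measure (E N) := volume.restrict (Metric.ball (0 : E N) a) with hμ
  have hμfin : IsFiniteMeasure μ := by
    refine ⟨?_⟩
    rw [hμ, Measure.restrict_apply_univ]
    exact measure_ball_lt_top
  have hM : 0 ≤ M := (hcl.nn 0).trans (hcl.le 0)
  set N2 := ∫ x, f x ^ 2 with hN2
  have hgsq : ∀ x, g x ^ 2 = f x ^ 2 := fun x => sq_abs _
  have hfi : Integrable fun x => f x ^ 2 := by
    have := hcl.int_sq hAR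
    exact this.congr (Eventually.of_forall fun x => hgsq x)
  -- integrability of the correlation on the product
  have hF : Integrable (fun p : E N × E N => g p.1 * g (p.1 + p.2)) (volume.prod μ) := by
    have hi : Integrable ((Metric.ball (0:E N) R ×ˢ (univ : Set (E N))).indicator fun _ => M * M)
        (volume.prod μ) := by
      rw [integrable_indicator_iff (measurableSet_ball.prod MeasurableSet.univ)]
      refine integrableOn_const ?_
      rw [Measure.prod_prod]
      exact ENNReal.mul_ne_top measure_ball_lt_top.ne (measure_ne_top _ _)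
    refine hi.mono' ?_ (Eventually.of_forall fun p => ?_)
    · exact ((hgc.comp continuous_fst).mul (hgc.comp (by fun_prop))).aestronglyMeasurable
    · rw [Real.norm_eq_abs, abs_of_nonneg (mul_nonneg (hcl.nn _) (hcl.nn _))]
      by_cases h1 : p.1 ∈ A
      · have hmem : p ∈ Metric.ball (0:E N) R ×ˢ (univ : Set (E N)) := ⟨hAR h1, trivial⟩
        rw [indicator_of_mem hmem]
        exact mul_le_mul (hcl.le _) (hcl.le _) (hcl.nn _) hM
      · rw [show g p.1 = 0 from hcl.out _ h1, zero_mul]
        exact indicator_nonneg (fun _ _ => mul_nonneg hM hM) _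
  have hQ : Q a g g = ∫ z, ∫ x, g x * g (x + z) ∂volume ∂μ := by
    have h2 := integral_integral_swap (f := fun (x : E N) (z : E N) => g x * g (x + z)) hF
    rw [← h2]
    have h3 : Q a g g = ∫ x, ∫ y, gk a x y * (g x * g y) :=
      integral_prod _ (hcl.int_prod hcl hAR hAR ha)
    rw [h3]
    refine integral_congr_ae (Eventually.of_forall fun x => ?_)
    simp only
    rw [← integral_add_right_eq_self (fun y => gk a x y * (g x * g y)) x, hμ,
      ← integral_indicator measurableSet_ball]
    refine integral_congr_ae (Eventually.of_forall fun z => ?_)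
    simp only [gk, indicator]
    rw [show x - (z + x) = -z by abel, norm_neg, add_comm z x]
    simp only [mem_ball_zero_iff]
    split_ifs
    · rw [one_mul]
    · rw [zero_mul]
  have hCi : Integrable (fun z => ∫ x, g x * g (x + z)) μ := hF.integral_prod_right
  -- derivative part
  have hgd : Continuous (fderiv ℝ f) := hf.continuous_fderiv (by simp)
  have hS : Integrable (fun p : E N × E N => (fderiv ℝ f p.1 p.2) ^ 2) (volume.prod μ) := by
    have hi : Integrable (fun p : E N × E N => ‖fderiv ℝ f p.1‖ ^ 2 * a ^ 2) (volume.prod μ) :=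
      (int_dnorm hf hc).mul_prod (integrable_const (a ^ 2))
    refine hi.mono' ?_ ?_
    · exact (((hgd.comp continuous_fst).clm_apply continuous_snd).pow 2).aestronglyMeasurable
    · have h2 : ∀ᵐ p ∂((volume : Measure (E N)).prod μ), p.2 ∈ Metric.ball (0 : E N) a := by
        have : ∀ᵐ t ∂μ, t ∈ Metric.ball (0 : E N) a := ae_restrict_mem measurableSet_ball
        exact Measure.quasiMeasurePreserving_snd.ae this
      filter_upwards [h2] with p hp
      rw [mem_ball_zero_iff] at hp
      rw [Real.norm_eq_abs, abs_of_nonneg (sq_nonneg _), ← sq_abs, ← mul_pow]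
      refine pow_le_pow_left₀ (abs_nonneg _) ?_ 2
      calc |fderiv ℝ f p.1 p.2| ≤ ‖fderiv ℝ f p.1‖ * ‖p.2‖ := (fderiv ℝ f p.1).le_opNorm p.2
        _ ≤ ‖fderiv ℝ f p.1‖ * a := by gcongr
  have hSi : Integrable (fun z => ∫ x, (fderiv ℝ f x z) ^ 2) μ := hS.integral_prod_right
  have hSe : ∫ z, ∫ x, (fderiv ℝ f x z) ^ 2 ∂volume ∂μ = mo N a * ∫ x, ‖fderiv ℝ f x‖ ^ 2 := by
    have h2 := integral_integral_swap (f := fun (x : E N) (z : E N) => (fderiv ℝ f x z) ^ 2) hS
    rw [← h2, ← integral_const_mul]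
    refine integral_congr_ae (Eventually.of_forall fun x => ?_)
    exact mom_fderiv hN1 a (fderiv ℝ f x)
  have hpt : ∀ z, 2 * N2 - 2 * ∫ x, g x * g (x + z) ≤ ∫ x, (fderiv ℝ f x z) ^ 2 := by
    intro z
    refine le_trans ?_ (shift_le hf hc z)
    have i1 : Integrable fun x => f (x + z) ^ 2 := hfi.comp_add_right z
    have i2 : Integrable fun x => g x * g (x + z) := by
      have c1 : Continuous fun x => g x * g (x + z) := hgc.mul (hgc.comp (by fun_prop))
      have hgcs : HasCompactSupport g := hc.comp_left (g := fun t : ℝ => |t|) (by simp)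
      exact c1.integrable_of_hasCompactSupport hgcs.mul_right
    have e1 : 2 * N2 - 2 * ∫ x, g x * g (x + z) = ∫ x, ((f (x + z) ^ 2 + f x ^ 2) - 2 * (g x * g (x + z))) := by
      have e2 := integral_sub (i1.add hfi) (i2.const_mul 2)
      simp only [Pi.add_apply] at e2
      rw [e2, integral_add i1 hfi, integral_const_mul,
        integral_add_right_eq_self (fun x => f x ^ 2) z]
      ring
    rw [e1]
    refine integral_mono ((i1.add hfi).sub (i2.const_mul 2)) (int_diff hfc hc z) fun x => ?_
    simp only [hg]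
    have h5 : f x * f (x + z) ≤ |f x| * |f (x + z)| := by
      rw [← abs_mul]; exact le_abs_self _
    nlinarith
  have hfin : ∫ z, (2 * N2 - 2 * ∫ x, g x * g (x + z)) ∂μ ≤ ∫ z, (∫ x, (fderiv ℝ f x z) ^ 2) ∂μ :=
    integral_mono ((integrable_const _).sub (hCi.const_mul 2)) hSi hpt
  have hC2 : ∫ z, 2 * (∫ x, g x * g (x + z)) ∂μ = 2 * ∫ z, (∫ x, g x * g (x + z)) ∂μ :=
    integral_const_mul _ _
  rw [hSe, integral_sub (integrable_const _) (hCi.const_mul 2), hC2, ← hQ,
    integral_const, smul_eq_mul] at hfin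
  have hμr : μ.real univ = bv N a := by
    rw [hμ, measureReal_restrict_apply_univ]
    rfl
  rw [hμr] at hfin
  linarith

end Pool.Agent.K7.H80.FK
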