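import Mathlib
import Pool.Agent.K7.H80.FK4

/-! Taylor expansion of the radial ground state, the Schur test, and the Faber–Krahn inequality. -/

set_option autoImplicit false

open MeasureTheory Set Filter
open scoped Topology ENNReal NNReal RealInnerProductSpace ContDiff

namespace Pool.Agent.K7.H80.FK

open Pool.Agent.Helper949.TB (E Ground IsTest)

variable {N : ℕ}

/-- one-dimensional Taylor inequality of order three -/
lemma taylor3 {h h1 h2 h3 : ℝ → ℝ} {K : ℝ}
    (d0 : ∀ s, HasDerivAt h (h1 s) s) (d1 : ∀ s, HasDerivAt h1 (h2 s) s)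
    (d2 : ∀ s, HasDerivAt h2 (h3 s) s) (hK : ∀ s, 0 ≤ s → s ≤ 1 → h3 s ≤ K) :
    h 1 ≤ h 0 + h1 0 + h2 0 / 2 + K / 6 := by
  -- second derivative of the remainder
  have c0 : Continuous h := continuous_iff_continuousAt.2 fun s => (d0 s).continuousAt
  have c1 : Continuous h1 := continuous_iff_continuousAt.2 fun s => (d1 s).continuousAt
  have c2 : Continuous h2 := continuous_iff_continuousAt.2 fun s => (d2 s).continuousAt
  have e2 : ∀ s ∈ Icc (0:ℝ) 1, h2 s - h2 0 - K * s ≤ 0 := by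
    have hd : ∀ s, HasDerivAt (fun s => h2 s - h2 0 - K * s) (h3 s - K) s := by
      intro s
      have := ((d2 s).sub_const (h2 0)).fun_sub ((hasDerivAt_id s).const_mul K)
      simpa using this
    have ha : AntitoneOn (fun s => h2 s - h2 0 - K * s) (Icc (0:ℝ) 1) := by
      apply antitoneOn_of_deriv_nonpos (convex_Icc _ _) (by fun_prop)
      · intro s _; exact (hd s).differentiableAt.differentiableWithinAt
      · intro s hs
        rw [interior_Icc] at hs
        rw [(hd s).deriv]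
        linarith [hK s hs.1.le hs.2.le]
    intro s hs
    have := ha (left_mem_Icc.2 zero_le_one) hs hs.1
    simpa using this
  have e1 : ∀ s ∈ Icc (0:ℝ) 1, h1 s - h1 0 - h2 0 * s - K * s ^ 2 / 2 ≤ 0 := by
    have hd : ∀ s, HasDerivAt (fun s => h1 s - h1 0 - h2 0 * s - K * s ^ 2 / 2)
        (h2 s - h2 0 - K * s) s := by
      intro s
      have h4 : HasDerivAt (fun s : ℝ => K * s ^ 2 / 2) (K * s) s := by
        have := ((hasDerivAt_pow 2 s).const_mul K).div_const 2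
        refine this.congr_deriv ?_
        norm_num; ring
      have := (((d1 s).sub_const (h1 0)).fun_sub ((hasDerivAt_id s).const_mul (h2 0))).fun_sub h4
      simpa using this
    have ha : AntitoneOn (fun s => h1 s - h1 0 - h2 0 * s - K * s ^ 2 / 2) (Icc (0:ℝ) 1) := by
      apply antitoneOn_of_deriv_nonpos (convex_Icc _ _) (by fun_prop)
      · intro s _; exact (hd s).differentiableAt.differentiableWithinAt
      · intro s hs
        rw [interior_Icc] at hs
        rw [(hd s).deriv]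
        exact e2 s ⟨hs.1.le, hs.2.le⟩
    intro s hs
    have := ha (left_mem_Icc.2 zero_le_one) hs hs.1
    simpa using this
  have hd : ∀ s, HasDerivAt (fun s => h s - h 0 - h1 0 * s - h2 0 * s ^ 2 / 2 - K * s ^ 3 / 6)
      (h1 s - h1 0 - h2 0 * s - K * s ^ 2 / 2) s := by
    intro s
    have h4 : HasDerivAt (fun s : ℝ => h2 0 * s ^ 2 / 2) (h2 0 * s) s := by
      have := ((hasDerivAt_pow 2 s).const_mul (h2 0)).div_const 2
      refine this.congr_deriv ?_
      norm_num; ring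
    have h5 : HasDerivAt (fun s : ℝ => K * s ^ 3 / 6) (K * s ^ 2 / 2) s := by
      have := ((hasDerivAt_pow 3 s).const_mul K).div_const 6
      refine this.congr_deriv ?_
      norm_num; ring
    have := ((((d0 s).sub_const (h 0)).fun_sub ((hasDerivAt_id s).const_mul (h1 0))).fun_sub h4).fun_sub h5
    simpa using this
  have ha : AntitoneOn (fun s => h s - h 0 - h1 0 * s - h2 0 * s ^ 2 / 2 - K * s ^ 3 / 6) (Icc (0:ℝ) 1) := by
    apply antitoneOn_of_deriv_nonpos (convex_Icc _ _) (by fun_prop)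
    · intro s _; exact (hd s).differentiableAt.differentiableWithinAt
    · intro s hs
      rw [interior_Icc] at hs
      rw [(hd s).deriv]
      exact e1 s ⟨hs.1.le, hs.2.le⟩
  have := ha (left_mem_Icc.2 zero_le_one) (right_mem_Icc.2 zero_le_one) zero_le_one
  simp only at this
  norm_num at this
  linarith

lemma int_inner_zero (a : ℝ) (x : E N) : ∫ z in Metric.ball (0 : E N) a, ⟪x, z⟫ = 0 := by
  have h := int_isom (LinearIsometryEquiv.neg ℝ (E := E N)) a (fun z => ⟪x, z⟫)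
  simp only [LinearIsometryEquiv.coe_neg, inner_neg_right] at h
  rw [integral_neg] at h
  linarith

lemma int_norm_sq (hN1 : 1 ≤ N) (a : ℝ) : ∫ z in Metric.ball (0 : E N) a, ‖z‖ ^ 2 = N * mo N a := by
  have : (N:ℝ) ≠ 0 := by exact_mod_cast (by omega : N ≠ 0)
  unfold mo
  field_simp

/-- averages of the ground state -/
lemma avg_le (hN1 : 1 ≤ N) {F : ℝ → ℝ} {R : ℝ} (hG : Ground N F R) {R' : ℝ} (hR' : 0 < R') :
    ∃ C : ℝ, 0 ≤ C ∧ ∀ (x : E N) (a : ℝ), 0 < a → ‖x‖ + a ≤ R' →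
      ∫ z in Metric.ball (0 : E N) a, F ((R / R') ^ 2 * ‖x + z‖ ^ 2) ≤
        (bv N a - mo N a * (R / R') ^ 2 / 2) * F ((R / R') ^ 2 * ‖x‖ ^ 2) + C * a ^ 3 * bv N a := by
  have hR := hG.Rpos
  set κ2 : ℝ := (R / R') ^ 2 with hκ2
  have hκ0 : 0 < κ2 := by positivity
  have hκR : κ2 * R' ^ 2 = R ^ 2 := by rw [hκ2]; field_simp
  have hF := hG.smooth
  have hF1 : ContDiff ℝ (⊤ : ℕ∞) (deriv F) := (contDiff_infty_iff_deriv.mp hF).2
  have hF2 : ContDiff ℝ (⊤ : ℕ∞) (deriv (deriv F)) := (contDiff_infty_iff_deriv.mp hF1).2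
  have hF3 : ContDiff ℝ (⊤ : ℕ∞) (deriv (deriv (deriv F))) := (contDiff_infty_iff_deriv.mp hF2).2
  have hFd : Differentiable ℝ F := (contDiff_infty_iff_deriv.mp hF).1
  have hF1d : Differentiable ℝ (deriv F) := (contDiff_infty_iff_deriv.mp hF1).1
  have hF2d : Differentiable ℝ (deriv (deriv F)) := (contDiff_infty_iff_deriv.mp hF2).1
  obtain ⟨K2, hK2⟩ := (isCompact_Icc (a := (0 : ℝ)) (b := R ^ 2)).exists_bound_of_continuousOn
    hF2.continuous.continuousOn
  obtain ⟨K3, hK3⟩ := (isCompact_Icc (a := (0 : ℝ)) (b := R ^ 2)).exists_bound_of_continuousOn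
    hF3.continuous.continuousOn
  have hK2n : 0 ≤ K2 := (norm_nonneg _).trans (hK2 0 ⟨le_rfl, by positivity⟩)
  have hK3n : 0 ≤ K3 := (norm_nonneg _).trans (hK3 0 ⟨le_rfl, by positivity⟩)
  set C : ℝ := K3 * (2 * κ2 * R') ^ 3 + 3 * K2 * (2 * κ2 * R') * (2 * κ2) with hC
  have hC0 : 0 ≤ C := by positivity
  refine ⟨C / 6, by positivity, ?_⟩
  intro x a ha hxa
  set s0 : ℝ := κ2 * ‖x‖ ^ 2 with hs0
  -- pointwise Taylor
  have hpt : ∀ z ∈ Metric.ball (0 : E N) a, F (κ2 * ‖x + z‖ ^ 2) ≤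
      F s0 + 2 * κ2 * deriv F s0 * ⟪x, z⟫ +
      (4 * κ2 ^ 2 * deriv (deriv F) s0 * ⟪x, z⟫ ^ 2 + 2 * κ2 * deriv F s0 * ‖z‖ ^ 2) / 2 +
      C * a ^ 3 / 6 := by
    intro z hz
    rw [mem_ball_zero_iff] at hz
    set q : ℝ → ℝ := fun s => κ2 * ‖x + s • z‖ ^ 2 with hq
    set q1 : ℝ → ℝ := fun s => 2 * κ2 * (⟪x, z⟫ + s * ‖z‖ ^ 2) with hq1
    set q2 : ℝ := 2 * κ2 * ‖z‖ ^ 2 with hq2
    have hqe : ∀ s, q s = κ2 * (‖x‖ ^ 2 + 2 * s * ⟪x, z⟫ + s ^ 2 * ‖z‖ ^ 2) := by
      intro s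
      simp only [hq]
      rw [norm_add_sq_real, inner_smul_right, norm_smul, mul_pow, Real.norm_eq_abs, sq_abs]
      ring
    have dq : ∀ s, HasDerivAt q (q1 s) s := by
      intro s
      have h1 : q = fun s => κ2 * (‖x‖ ^ 2 + 2 * s * ⟪x, z⟫ + s ^ 2 * ‖z‖ ^ 2) := funext hqe
      rw [h1]
      have h2 : HasDerivAt (fun s : ℝ => 2 * s * ⟪x, z⟫) (2 * ⟪x, z⟫) s := by
        have := ((hasDerivAt_id s).const_mul 2).mul_const ⟪x, z⟫
        simpa using this
      have h3 : HasDerivAt (fun s : ℝ => s ^ 2 * ‖z‖ ^ 2) (2 * s * ‖z‖ ^ 2) s := by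
        have := (hasDerivAt_pow 2 s).mul_const (‖z‖ ^ 2)
        simpa using this
      have h4 := ((h2.const_add (‖x‖ ^ 2)).fun_add h3).const_mul κ2
      refine h4.congr_deriv ?_
      simp only [hq1]
      ring
    have dq1 : ∀ s, HasDerivAt q1 q2 s := by
      intro s
      have h2 : HasDerivAt (fun s : ℝ => s * ‖z‖ ^ 2) (‖z‖ ^ 2) s := by
        have := (hasDerivAt_id s).mul_const (‖z‖ ^ 2)
        simpa using this
      have h4 := (h2.const_add ⟪x, z⟫).const_mul (2 * κ2)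
      exact h4
    have d0 : ∀ s, HasDerivAt (fun s => F (q s)) (deriv F (q s) * q1 s) s := fun s =>
      (hFd (q s)).hasDerivAt.comp s (dq s)
    have dF1 : ∀ s, HasDerivAt (fun s => deriv F (q s)) (deriv (deriv F) (q s) * q1 s) s := fun s =>
      (hF1d (q s)).hasDerivAt.comp s (dq s)
    have dF2 : ∀ s, HasDerivAt (fun s => deriv (deriv F) (q s))
        (deriv (deriv (deriv F)) (q s) * q1 s) s := fun s =>
      (hF2d (q s)).hasDerivAt.comp s (dq s)
    have d1 : ∀ s, HasDerivAt (fun s => deriv F (q s) * q1 s)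
        (deriv (deriv F) (q s) * q1 s ^ 2 + deriv F (q s) * q2) s := by
      intro s
      have := (dF1 s).fun_mul (dq1 s)
      refine this.congr_deriv ?_
      ring
    have d2 : ∀ s, HasDerivAt (fun s => deriv (deriv F) (q s) * q1 s ^ 2 + deriv F (q s) * q2)
        (deriv (deriv (deriv F)) (q s) * q1 s ^ 3 + 3 * deriv (deriv F) (q s) * q1 s * q2) s := by
      intro s
      have h1 : HasDerivAt (fun s => q1 s ^ 2) (2 * q1 s * q2) s := by
        have := (dq1 s).fun_pow 2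
        simpa using this
      have := ((dF2 s).fun_mul h1).fun_add ((dF1 s).mul_const q2)
      refine this.congr_deriv ?_
      ring
    have hbound : ∀ s, 0 ≤ s → s ≤ 1 → deriv (deriv (deriv F)) (q s) * q1 s ^ 3 +
        3 * deriv (deriv F) (q s) * q1 s * q2 ≤ C * a ^ 3 := by
      intro s hs0 hs1
      have hxs : ‖x + s • z‖ ≤ R' := by
        calc ‖x + s • z‖ ≤ ‖x‖ + ‖s • z‖ := norm_add_le _ _
          _ ≤ ‖x‖ + a := by
            rw [norm_smul, Real.norm_eq_abs, abs_of_nonneg hs0]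
            have : s * ‖z‖ ≤ 1 * a := mul_le_mul hs1 hz.le (norm_nonneg _) zero_le_one
            linarith
          _ ≤ R' := hxa
      have hqs : q s ∈ Icc (0:ℝ) (R ^ 2) := by
        refine ⟨by simp only [hq]; positivity, ?_⟩
        rw [← hκR]
        simp only [hq]
        have : ‖x + s • z‖ ^ 2 ≤ R' ^ 2 := pow_le_pow_left₀ (norm_nonneg _) hxs 2
        exact mul_le_mul_of_nonneg_left this hκ0.le
      have hq1b : |q1 s| ≤ 2 * κ2 * R' * a := by
        have h1 : q1 s = 2 * κ2 * ⟪x + s • z, z⟫ := by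
          simp only [hq1]
          rw [inner_add_left, inner_smul_left, real_inner_self_eq_norm_sq]
          simp
        rw [h1, abs_mul, abs_of_pos (by positivity : 0 < 2 * κ2)]
        have h2 : |⟪x + s • z, z⟫| ≤ R' * a := by
          calc |⟪x + s • z, z⟫| ≤ ‖x + s • z‖ * ‖z‖ := abs_real_inner_le_norm _ _
            _ ≤ R' * a := mul_le_mul hxs hz.le (norm_nonneg _) hR'.le
        calc 2 * κ2 * |⟪x + s • z, z⟫| ≤ 2 * κ2 * (R' * a) := by gcongr
          _ = _ := by ring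
      have hq2b : |q2| ≤ 2 * κ2 * a ^ 2 := by
        rw [hq2, abs_of_nonneg (by positivity)]
        gcongr
      have b2 := hK2 _ hqs
      have b3 := hK3 _ hqs
      rw [Real.norm_eq_abs] at b2 b3
      have t1 : deriv (deriv (deriv F)) (q s) * q1 s ^ 3 ≤ K3 * (2 * κ2 * R' * a) ^ 3 := by
        calc _ ≤ |deriv (deriv (deriv F)) (q s) * q1 s ^ 3| := le_abs_self _
          _ = |deriv (deriv (deriv F)) (q s)| * |q1 s| ^ 3 := by rw [abs_mul, abs_pow]
          _ ≤ _ := by gcongr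
      have t2 : 3 * deriv (deriv F) (q s) * q1 s * q2 ≤ 3 * K2 * (2 * κ2 * R' * a) * (2 * κ2 * a ^ 2) := by
        calc _ ≤ |3 * deriv (deriv F) (q s) * q1 s * q2| := le_abs_self _
          _ = 3 * |deriv (deriv F) (q s)| * |q1 s| * |q2| := by
            rw [abs_mul, abs_mul, abs_mul]; norm_num
          _ ≤ _ := by gcongr
      calc _ ≤ K3 * (2 * κ2 * R' * a) ^ 3 + 3 * K2 * (2 * κ2 * R' * a) * (2 * κ2 * a ^ 2) := add_le_add t1 t2
        _ = C * a ^ 3 := by rw [hC]; ring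
    have ht := taylor3 d0 d1 d2 hbound
    have hq0 : q 0 = s0 := by simp [hq, hs0]
    have hq11 : q 1 = κ2 * ‖x + z‖ ^ 2 := by simp [hq]
    have hq10 : q1 0 = 2 * κ2 * ⟪x, z⟫ := by simp [hq1]
    simp only [hq0, hq11, hq10, hq2] at ht
    calc F (κ2 * ‖x + z‖ ^ 2) ≤ _ := ht
      _ = _ := by ring
  -- integrate
  have hcI : ∀ c : ℝ, IntegrableOn (fun _ : E N => c) (Metric.ball (0 : E N) a) := fun c =>
    intOn_ball continuous_const a
  have hI1 : IntegrableOn (fun z : E N => 2 * κ2 * deriv F s0 * ⟪x, z⟫) (Metric.ball (0 : E N) a) :=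
    intOn_ball (by fun_prop) a
  have hI2 : IntegrableOn (fun z : E N => 4 * κ2 ^ 2 * deriv (deriv F) s0 * ⟪x, z⟫ ^ 2) (Metric.ball (0 : E N) a) :=
    intOn_ball (by fun_prop) a
  have hI3 : IntegrableOn (fun z : E N => 2 * κ2 * deriv F s0 * ‖z‖ ^ 2) (Metric.ball (0 : E N) a) :=
    intOn_ball (by fun_prop) a
  have hIF : IntegrableOn (fun z : E N => F (κ2 * ‖x + z‖ ^ 2)) (Metric.ball (0 : E N) a) :=
    intOn_ball (hF.continuous.comp (by fun_prop)) a
  have hI4 : IntegrableOn (fun z : E N => (4 * κ2 ^ 2 * deriv (deriv F) s0 * ⟪x, z⟫ ^ 2 + 2 * κ2 * deriv F s0 * ‖z‖ ^ 2) / 2)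
      (Metric.ball (0 : E N) a) := (hI2.add hI3).div_const 2
  have hfin : ∫ z in Metric.ball (0 : E N) a, F (κ2 * ‖x + z‖ ^ 2) ≤
      ∫ z in Metric.ball (0 : E N) a, (F s0 + 2 * κ2 * deriv F s0 * ⟪x, z⟫ +
      (4 * κ2 ^ 2 * deriv (deriv F) s0 * ⟪x, z⟫ ^ 2 + 2 * κ2 * deriv F s0 * ‖z‖ ^ 2) / 2 +
      C * a ^ 3 / 6) :=
    setIntegral_mono_on hIF ((((hcI _).add hI1).add hI4).add (hcI _)) measurableSet_ball hpt
  have hconst : ∀ c : ℝ, ∫ _z in Metric.ball (0 : E N) a, c = c * bv N a := by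
    intro c
    rw [setIntegral_const, smul_eq_mul, mul_comm]
    rfl
  have e1 := integral_add (((hcI (F s0)).add hI1).add hI4) (hcI (C * a ^ 3 / 6))
  have e2 := integral_add ((hcI (F s0)).add hI1) hI4
  have e3 := integral_add (hcI (F s0)) hI1
  have e4 := integral_add hI2 hI3
  simp only [Pi.add_apply] at e1 e2 e3 e4
  have e5 : ∫ z in Metric.ball (0 : E N) a, (4 * κ2 ^ 2 * deriv (deriv F) s0 * ⟪x, z⟫ ^ 2 + 2 * κ2 * deriv F s0 * ‖z‖ ^ 2) / 2
      = (∫ z in Metric.ball (0 : E N) a, (4 * κ2 ^ 2 * deriv (deriv F) s0 * ⟪x, z⟫ ^ 2 + 2 * κ2 * deriv F s0 * ‖z‖ ^ 2)) / 2 :=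
    integral_div _ _
  rw [e1, e2, e3, e5, e4, hconst, hconst, integral_const_mul, integral_const_mul, integral_const_mul,
    int_inner_zero, mom hN1, int_norm_sq hN1] at hfin
  have hode := hG.ode s0
  have hk : (4 * κ2 ^ 2 * deriv (deriv F) s0 * (mo N a * ‖x‖ ^ 2) + 2 * κ2 * deriv F s0 * (N * mo N a)) / 2
      = - (mo N a * κ2 / 2) * F s0 := by
    have h1 : F s0 = - (4 * s0 * deriv (deriv F) s0 + 2 * N * deriv F s0) := by linarith
    rw [h1]
    rw [hs0]
    ring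
  rw [hk] at hfin
  calc _ ≤ _ := hfin
    _ = _ := by ring

end Pool.Agent.K7.H80.FK
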