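import Mathlib
import Pool.Agent.K7.H80.FK5

/-! The Schur test on the ball, and the Faber–Krahn inequality in `ℝ^N`. -/

set_option autoImplicit false

open MeasureTheory Set Filter
open scoped Topology ENNReal NNReal RealInnerProductSpace ContDiff

namespace Pool.Agent.K7.H80.FK

open Pool.Agent.Helper949.TB (E Ground IsTest)

variable {N : ℕ}

lemma F_anti {F : ℝ → ℝ} {R : ℝ} (hG : Ground N F R) : AntitoneOn F (Icc 0 (R ^ 2)) := by
  apply antitoneOn_of_deriv_nonpos (convex_Icc _ _) hG.smooth.continuous.continuousOn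
    (hG.smooth.differentiable (by norm_num)).differentiableOn
  intro x hx
  rw [interior_Icc] at hx
  exact (hG.neg x hx.1.le hx.2.le).le

/-- Schur test on the ball -/
theorem Q_ball (hN1 : 1 ≤ N) {F : ℝ → ℝ} {R : ℝ} (hG : Ground N F R) {r R' : ℝ} (hr : 0 < r)
    (hrR' : r < R') : ∃ C : ℝ, 0 ≤ C ∧ ∀ (a : ℝ), 0 < a → a ≤ R' - r → ∀ (M : ℝ) (g : E N → ℝ),
      Cl (Metric.ball 0 r) M g →
      Q a g g ≤ (bv N a - mo N a * (R / R') ^ 2 / 2 + C * a ^ 3 * bv N a) * ∫ x, g x ^ 2 := by
  have hR := hG.Rpos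
  have hR' : 0 < R' := hr.trans hrR'
  obtain ⟨C0, hC0, hC⟩ := avg_le hN1 hG hR'
  set κ2 : ℝ := (R / R') ^ 2 with hκ2
  have hκ0 : 0 < κ2 := by positivity
  have hκR : κ2 * R' ^ 2 = R ^ 2 := by rw [hκ2]; field_simp
  set φ : E N → ℝ := fun x => F (κ2 * ‖x‖ ^ 2) with hφ
  have hφc : Continuous φ := hG.smooth.continuous.comp (by fun_prop)
  have hmem : ∀ x : E N, ‖x‖ < R' → 0 ≤ κ2 * ‖x‖ ^ 2 ∧ κ2 * ‖x‖ ^ 2 < R ^ 2 := by
    intro x hx
    refine ⟨by positivity, ?_⟩
    rw [← hκR]
    have : ‖x‖ ^ 2 < R' ^ 2 := pow_lt_pow_left₀ hx (norm_nonneg _) two_ne_zero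
    exact mul_lt_mul_of_pos_left this hκ0
  have hφpos : ∀ x : E N, ‖x‖ < R' → 0 < φ x := fun x hx => hG.pos _ (hmem x hx).1 (hmem x hx).2
  have hφ1 : ∀ x : E N, ‖x‖ < R' → φ x ≤ 1 := by
    intro x hx
    have h1 := hmem x hx
    have := F_anti hG (⟨le_rfl, by positivity⟩ : (0:ℝ) ∈ Icc 0 (R ^ 2)) ⟨h1.1, h1.2.le⟩ h1.1
    rwa [hG.one] at this
  set m : ℝ := F (κ2 * r ^ 2) with hm
  have hm0 : 0 < m := by
    apply hG.pos _ (by positivity)
    rw [← hκR]
    have : r ^ 2 < R' ^ 2 := pow_lt_pow_left₀ hrR' hr.le two_ne_zero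
    exact mul_lt_mul_of_pos_left this hκ0
  have hφm : ∀ x : E N, ‖x‖ < r → m ≤ φ x := by
    intro x hx
    have h1 := hmem x (hx.trans hrR')
    refine F_anti hG ⟨h1.1, h1.2.le⟩ ⟨by positivity, ?_⟩ ?_
    · rw [← hκR]
      have : r ^ 2 < R' ^ 2 := pow_lt_pow_left₀ hrR' hr.le two_ne_zero
      exact (mul_lt_mul_of_pos_left this hκ0).le
    · have : ‖x‖ ^ 2 ≤ r ^ 2 := pow_le_pow_left₀ (norm_nonneg _) hx.le 2
      exact mul_le_mul_of_nonneg_left this hκ0.le
  refine ⟨C0 / m, by positivity, ?_⟩
  intro a ha haR M g hg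
  have hM : 0 ≤ M := (hg.nn 0).trans (hg.le 0)
  set Λ : ℝ := bv N a - mo N a * κ2 / 2 + C0 / m * a ^ 3 * bv N a with hΛ
  set ψ : E N → ℝ := (Metric.ball (0 : E N) R').indicator φ with hψ
  have hψc : Cl (Metric.ball (0 : E N) R') 1 ψ := by
    refine ⟨hφc.measurable.indicator measurableSet_ball, ?_, ?_, ?_⟩
    · intro x
      by_cases hx : x ∈ Metric.ball (0 : E N) R'
      · rw [hψ, indicator_of_mem hx]
        exact (hφpos x (mem_ball_zero_iff.1 hx)).le
      · rw [hψ, indicator_of_notMem hx]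
    · intro x
      by_cases hx : x ∈ Metric.ball (0 : E N) R'
      · rw [hψ, indicator_of_mem hx]
        exact hφ1 x (mem_ball_zero_iff.1 hx)
      · rw [hψ, indicator_of_notMem hx]; norm_num
    · intro x hx
      rw [hψ, indicator_of_notMem hx]
  set w : E N → ℝ := fun x => g x ^ 2 / φ x with hw
  have hwc : Cl (Metric.ball (0 : E N) r) (M ^ 2 / m) w := by
    refine ⟨(hg.meas.pow_const 2).div hφc.measurable, ?_, ?_, ?_⟩
    · intro x
      by_cases hx : x ∈ Metric.ball (0 : E N) r
      · have := hφpos x ((mem_ball_zero_iff.1 hx).trans hrR')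
        simp only [hw]; positivity
      · simp only [hw]; rw [hg.out x hx]; simp
    · intro x
      by_cases hx : x ∈ Metric.ball (0 : E N) r
      · have h1 := hφm x (mem_ball_zero_iff.1 hx)
        simp only [hw]
        have h2 : g x ^ 2 ≤ M ^ 2 := pow_le_pow_left₀ (hg.nn x) (hg.le x) 2
        gcongr
      · simp only [hw]; rw [hg.out x hx]; simp; positivity
    · intro x hx
      simp only [hw]; rw [hg.out x hx]; simp
  have hbr : Metric.ball (0 : E N) r ⊆ Metric.ball 0 R' := Metric.ball_subset_ball hrR'.le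
  have i0 := hg.int_prod hg hbr hbr ha
  have i1 := hwc.int_prod hψc hbr Subset.rfl ha
  have i2 := hψc.int_prod hwc Subset.rfl hbr ha
  have hsym : Q a ψ w = Q a w ψ := by
    unfold Q
    have h1 := integral_prod_swap (μ := (volume : Measure (E N))) (ν := (volume : Measure (E N)))
      (fun p : E N × E N => gk a p.1 p.2 * (w p.1 * ψ p.2))
    rw [← h1]
    refine integral_congr_ae (Eventually.of_forall fun p => ?_)
    simp only [Prod.fst_swap, Prod.snd_swap]
    rw [gk_comm]
    ring
  have h1 : Q a g g ≤ (Q a w ψ + Q a ψ w) / 2 := by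
    have h2 : (Q a w ψ + Q a ψ w) / 2 = ∫ p : E N × E N, (gk a p.1 p.2 * (w p.1 * ψ p.2) +
        gk a p.1 p.2 * (ψ p.1 * w p.2)) / 2 ∂(volume.prod volume) := by
      rw [integral_div, integral_add i1 i2]
      rfl
    rw [h2]
    refine integral_mono i0 ((i1.add i2).div_const 2) fun p => ?_
    simp only
    by_cases hp1 : p.1 ∈ Metric.ball (0 : E N) r
    · by_cases hp2 : p.2 ∈ Metric.ball (0 : E N) r
      · have f1 := hφpos p.1 ((mem_ball_zero_iff.1 hp1).trans hrR')
        have f2 := hφpos p.2 ((mem_ball_zero_iff.1 hp2).trans hrR')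
        have e1 : ψ p.1 = φ p.1 := by rw [hψ, indicator_of_mem (hbr hp1)]
        have e2 : ψ p.2 = φ p.2 := by rw [hψ, indicator_of_mem (hbr hp2)]
        rw [e1, e2]
        have h3 : g p.1 * g p.2 ≤ (w p.1 * φ p.2 + φ p.1 * w p.2) / 2 := by
          simp only [hw]
          have h4 : (g p.1 ^ 2 / φ p.1 * φ p.2 + φ p.1 * (g p.2 ^ 2 / φ p.2)) / 2 - g p.1 * g p.2 =
              (g p.1 * φ p.2 - g p.2 * φ p.1) ^ 2 / (2 * φ p.1 * φ p.2) := by
            field_simp
            ring
          have h5 : 0 ≤ (g p.1 * φ p.2 - g p.2 * φ p.1) ^ 2 / (2 * φ p.1 * φ p.2) := by positivity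
          linarith
        have h6 := mul_le_mul_of_nonneg_left h3 (gk_nn a p.1 p.2)
        calc gk a p.1 p.2 * (g p.1 * g p.2) ≤ _ := h6
          _ = _ := by ring
      · rw [hg.out _ hp2, hwc.out _ hp2, mul_zero, mul_zero]
        have := mul_nonneg (gk_nn a p.1 p.2) (mul_nonneg (hwc.nn p.1) (hψc.nn p.2))
        simp only [mul_zero, add_zero]
        linarith
    · rw [hg.out _ hp1, hwc.out _ hp1, zero_mul, mul_zero]
      have := mul_nonneg (gk_nn a p.1 p.2) (mul_nonneg (hψc.nn p.1) (hwc.nn p.2))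
      simp only [zero_mul, mul_zero, zero_add]
      linarith
  have h2 : Q a w ψ ≤ Λ * ∫ x, g x ^ 2 := by
    have h3 : Q a w ψ = ∫ x, ∫ y, gk a x y * (w x * ψ y) :=
      integral_prod _ i1
    rw [h3, ← integral_const_mul]
    refine integral_mono i1.integral_prod_left ((hg.int_sq Subset.rfl).const_mul Λ) fun x => ?_
    simp only
    by_cases hx : x ∈ Metric.ball (0 : E N) r
    · have hxr := mem_ball_zero_iff.1 hx
      have f1 := hφpos x (hxr.trans hrR')
      have h4 : ∫ y, gk a x y * (w x * ψ y) = w x * ∫ z in Metric.ball (0 : E N) a, φ (x + z) := by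
        rw [← integral_add_right_eq_self (fun y => gk a x y * (w x * ψ y)) x, ← integral_const_mul,
          ← integral_indicator measurableSet_ball]
        refine integral_congr_ae (Eventually.of_forall fun z => ?_)
        simp only [gk, indicator]
        rw [show x - (z + x) = -z by abel, norm_neg, add_comm z x]
        simp only [mem_ball_zero_iff]
        split_ifs with hz
        · rw [one_mul]
          congr 1
          have : x + z ∈ Metric.ball (0 : E N) R' := by
            rw [mem_ball_zero_iff]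
            calc ‖x + z‖ ≤ ‖x‖ + ‖z‖ := norm_add_le _ _
              _ < R' := by linarith
          rw [hψ, indicator_of_mem this]
        · rw [zero_mul]
      have h5 := hC x a ha (by linarith)
      have h6 : ∫ z in Metric.ball (0 : E N) a, φ (x + z) ≤ Λ * φ x := by
        calc ∫ z in Metric.ball (0 : E N) a, φ (x + z) ≤ (bv N a - mo N a * κ2 / 2) * φ x + C0 * a ^ 3 * bv N a := h5
          _ ≤ (bv N a - mo N a * κ2 / 2) * φ x + C0 * a ^ 3 * bv N a * (φ x / m) := by
            have h7 : 1 ≤ φ x / m := by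
              rw [le_div_iff₀ hm0, one_mul]; exact hφm x hxr
            have h8 : 0 ≤ C0 * a ^ 3 * bv N a := by
              have := bv_pos (N := N) ha
              positivity
            nlinarith
          _ = Λ * φ x := by rw [hΛ]; ring
      rw [h4]
      calc w x * ∫ z in Metric.ball (0 : E N) a, φ (x + z) ≤ w x * (Λ * φ x) :=
            mul_le_mul_of_nonneg_left h6 (hwc.nn x)
        _ = Λ * g x ^ 2 := by
            simp only [hw]
            field_simp
    · have h4 : ∀ y, gk a x y * (w x * ψ y) = 0 := fun y => by rw [hwc.out x hx]; ring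
      simp only [h4, integral_zero]
      rw [hg.out x hx]
      simp
  rw [hsym] at h1
  linarith

/-- lower bound for the second moment -/
lemma mo_lower (hN1 : 1 ≤ N) {a : ℝ} (ha : 0 < a) : a ^ 2 * bv N a / (8 * N) ≤ mo N a := by
  have hNp : (0:ℝ) < N := by exact_mod_cast hN1
  have : Nonempty (Fin N) := ⟨⟨0, by omega⟩⟩
  have : Nontrivial (E N) := inferInstance
  have hhalf : bv N (a / 2) ≤ bv N a / 2 := by
    have h1 : volume (Metric.ball (0 : E N) (a / 2)) = ENNReal.ofReal ((1 / 2) ^ N) * volume (Metric.ball (0 : E N) a) := by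
      have := Measure.addHaar_ball_mul_of_pos (volume : Measure (E N)) (0 : E N) (r := 1 / 2) (by norm_num) a
      rw [finrank_euclideanSpace_fin] at this
      rw [← this]
      congr 2
      ring
    unfold bv Measure.real
    rw [h1, ENNReal.toReal_mul, ENNReal.toReal_ofReal (by positivity)]
    have h2 : (1 / 2 : ℝ) ^ N ≤ (1 / 2) ^ 1 := pow_le_pow_of_le_one (by norm_num) (by norm_num) hN1
    have h3 : 0 ≤ (volume (Metric.ball (0 : E N) a)).toReal := ENNReal.toReal_nonneg
    nlinarith
  have hsub : Metric.ball (0 : E N) a \ Metric.ball (0 : E N) (a / 2) ⊆ Metric.ball (0 : E N) a := sdiff_subset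
  have hms : MeasurableSet (Metric.ball (0 : E N) a \ Metric.ball (0 : E N) (a / 2)) :=
    measurableSet_ball.diff measurableSet_ball
  have hI : IntegrableOn (fun z : E N => ‖z‖ ^ 2) (Metric.ball (0 : E N) a) := intOn_ball (by fun_prop) a
  have h1 : ∫ z in Metric.ball (0 : E N) a \ Metric.ball (0 : E N) (a / 2), ‖z‖ ^ 2 ≤
      ∫ z in Metric.ball (0 : E N) a, ‖z‖ ^ 2 :=
    setIntegral_mono_set hI (Eventually.of_forall fun z => by positivity) hsub.eventuallyLE
  have h2 : (a / 2) ^ 2 * volume.real (Metric.ball (0 : E N) a \ Metric.ball (0 : E N) (a / 2)) ≤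
      ∫ z in Metric.ball (0 : E N) a \ Metric.ball (0 : E N) (a / 2), ‖z‖ ^ 2 := by
    have hfin : volume (Metric.ball (0 : E N) a \ Metric.ball (0 : E N) (a / 2)) ≠ ⊤ :=
      ((measure_mono hsub).trans_lt measure_ball_lt_top).ne
    have h3 : ∫ z in Metric.ball (0 : E N) a \ Metric.ball (0 : E N) (a / 2), (a / 2) ^ 2 =
        (a / 2) ^ 2 * volume.real (Metric.ball (0 : E N) a \ Metric.ball (0 : E N) (a / 2)) := by
      rw [setIntegral_const, smul_eq_mul, mul_comm]
    rw [← h3]
    refine setIntegral_mono_on (integrableOn_const hfin) (hI.mono_set hsub) hms fun z hz => ?_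
    have h4 : a / 2 ≤ ‖z‖ := by
      have := hz.2
      rw [mem_ball_zero_iff, not_lt] at this
      exact this
    exact pow_le_pow_left₀ (by positivity) h4 2
  have h3 : volume.real (Metric.ball (0 : E N) a \ Metric.ball (0 : E N) (a / 2)) = bv N a - bv N (a / 2) := by
    have hfin2 : volume (Metric.ball (0 : E N) a) ≠ ⊤ := measure_ball_lt_top.ne
    have := measureReal_sdiff (μ := (volume : Measure (E N)))
      (Metric.ball_subset_ball (x := (0 : E N)) (by linarith : a / 2 ≤ a)) measurableSet_ball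
    exact this
  have hbv := bv_pos (N := N) ha
  unfold mo
  rw [div_le_div_iff₀ (by positivity) hNp]
  have h4 : (a / 2) ^ 2 * (bv N a / 2) ≤ ∫ z in Metric.ball (0 : E N) a, ‖z‖ ^ 2 := by
    refine le_trans ?_ (h2.trans h1)
    rw [h3]
    gcongr
    linarith
  nlinarith

/-- the Faber–Krahn inequality for functions supported in a bounded set of given volume -/
theorem fk_bdd (hN1 : 1 ≤ N) {F : ℝ → ℝ} {R : ℝ} (hG : Ground N F R) {f : E N → ℝ} (hf : ContDiff ℝ 1 f)
    (hc : HasCompactSupport f) {A : Set (E N)} {M Rb r : ℝ} (hcl : Cl A M (fun x => |f x|))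
    (hA : MeasurableSet A) (hRb : 0 < Rb) (hAR : A ⊆ Metric.ball 0 Rb) (hr : 0 < r) (hrR : r ≤ Rb)
    (hvol : volume.real A = volume.real (Metric.ball (0 : E N) r)) :
    (R / r) ^ 2 * ∫ x, f x ^ 2 ≤ ∫ x, ‖fderiv ℝ f x‖ ^ 2 := by
  have hR := hG.Rpos
  set N2 := ∫ x, f x ^ 2 with hN2
  set En := ∫ x, ‖fderiv ℝ f x‖ ^ 2 with hEn
  have hN20 : 0 ≤ N2 := integral_nonneg fun x => sq_nonneg _
  have hsq : ∫ x, |f x| ^ 2 = N2 := by
    rw [hN2]; congr 1; ext x; exact sq_abs _
  have hNp : (0:ℝ) < N := by exact_mod_cast hN1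
  have key : ∀ R' : ℝ, r < R' → (R / R') ^ 2 * N2 ≤ En := by
    intro R' hrR'
    obtain ⟨C, hC0, hC⟩ := Q_ball hN1 hG hr hrR'
    set κ2 := (R / R') ^ 2 with hκ2
    have main : ∀ a : ℝ, 0 < a → a ≤ R' - r → κ2 * N2 ≤ En + 16 * N * C * N2 * a := by
      intro a ha haR
      have hbv := bv_pos (N := N) ha
      have hmo := mo_lower hN1 ha
      have hmo0 : 0 < mo N a := lt_of_lt_of_le (by positivity) hmo
      have e2 := energy hN1 hf hc hcl hAR ha
      rw [← hN2, ← hEn] at e2
      by_cases hΛ : 0 ≤ bv N a - mo N a * κ2 / 2 + C * a ^ 3 * bv N a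
      · have e1 := fkg hN1 hA hRb hrR hAR hvol ha hΛ (fun g hg => hC a ha haR M g hg) hcl
        rw [hsq] at e1
        have e3 : mo N a * κ2 / 2 * N2 ≤ mo N a / 2 * En + C * a ^ 3 * bv N a * N2 := by nlinarith
        have e4 : C * a ^ 3 * bv N a * N2 ≤ mo N a * (8 * N * C * N2 * a) := by
          have h1 : a ^ 2 * bv N a ≤ 8 * N * mo N a := by
            rw [div_le_iff₀ (by positivity)] at hmo
            linarith
          have h2 : 0 ≤ C * a * N2 := by positivity
          nlinarith [mul_le_mul_of_nonneg_left h1 h2]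
        have e5 : mo N a * (κ2 / 2 * N2) ≤ mo N a * (En / 2 + 8 * N * C * N2 * a) := by nlinarith
        have e6 := le_of_mul_le_mul_left e5 hmo0
        linarith
      · -- the constant is negative: then the form is `≤ 0`, so the energy dominates trivially
        push Not at hΛ
        have hB : ∀ g : E N → ℝ, Cl (Metric.ball 0 r) M g → Q a g g ≤ 0 * ∫ x, g x ^ 2 := by
          intro g hg
          have h1 := hC a ha haR M g hg
          have h2 : 0 ≤ ∫ x, g x ^ 2 := integral_nonneg fun x => sq_nonneg _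
          nlinarith
        exfalso
        -- the indicator function of the ball gives a contradiction
        have h3 : Cl (Metric.ball (0 : E N) r) (1:ℝ) ((Metric.ball (0 : E N) r).indicator fun _ => (1:ℝ)) := by
          refine ⟨measurable_const.indicator measurableSet_ball, fun x => indicator_nonneg (fun _ _ => zero_le_one) x,
            fun x => ?_, fun x hx => indicator_of_notMem hx _⟩
          exact indicator_le_self' (fun _ _ => zero_le_one) x
        have h4 := hC a ha haR 1 _ h3
        have h5 : 0 ≤ Q a ((Metric.ball (0 : E N) r).indicator fun _ => (1:ℝ)) ((Metric.ball (0 : E N) r).indicator fun _ => (1:ℝ)) := by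
          unfold Q
          refine integral_nonneg fun p => ?_
          exact mul_nonneg (gk_nn a _ _) (mul_nonneg (h3.nn _) (h3.nn _))
        have h6 : 0 < ∫ x, ((Metric.ball (0 : E N) r).indicator (fun _ => (1:ℝ)) x) ^ 2 := by
          have e7 : ∀ x : E N, ((Metric.ball (0 : E N) r).indicator (fun _ => (1:ℝ)) x) ^ 2 =
              (Metric.ball (0 : E N) r).indicator (fun _ => (1:ℝ)) x := by
            intro x
            simp only [indicator]
            split_ifs <;> norm_num
          simp only [e7]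
          rw [HP.int_ind measurableSet_ball]
          exact bv_pos hr
        nlinarith
    refine le_of_forall_pos_le_add fun ε hε => ?_
    have hK : 0 ≤ 16 * N * C * N2 := by positivity
    set a : ℝ := min (R' - r) (ε / (16 * N * C * N2 + 1)) with ha
    have ha0 : 0 < a := lt_min (by linarith) (by positivity)
    have h5 := main a ha0 (min_le_left _ _)
    have h6 : 16 * N * C * N2 * a ≤ ε := by
      have h7 : a ≤ ε / (16 * N * C * N2 + 1) := min_le_right _ _
      rw [le_div_iff₀ (by positivity)] at h7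
      nlinarith
    linarith
  by_contra hcon
  push Not at hcon
  have hcont : ContinuousAt (fun R' : ℝ => (R / R') ^ 2 * N2) r :=
    ((continuousAt_const.div continuousAt_id hr.ne').pow 2).mul continuousAt_const
  have hev : ∀ᶠ R' in 𝓝[>] r, En < (R / R') ^ 2 * N2 :=
    (hcont.eventually (lt_mem_nhds hcon)).filter_mono nhdsWithin_le_nhds
  obtain ⟨R', h1, h2⟩ := (hev.and self_mem_nhdsWithin).exists
  exact absurd (key R' h2) (not_le.2 h1)

/-- **the Faber–Krahn inequality** -/
theorem faberKrahn (hN1 : 1 ≤ N) {F : ℝ → ℝ} {R : ℝ} (hG : Ground N F R) {Ω : Set (E N)}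
    (hΩ : MeasurableSet Ω) {ρ : ℝ} (hρ : 0 < ρ) (hvol : volume Ω ≤ volume (Metric.ball (0 : E N) ρ))
    {f : E N → ℝ} (hf : IsTest Ω f) :
    (R / ρ) ^ 2 * ∫ x, f x ^ 2 ≤ ∫ x, ‖fderiv ℝ f x‖ ^ 2 := by
  obtain ⟨hf1, hf2, hf3⟩ := hf
  have hR := hG.Rpos
  have hfC1 : ContDiff ℝ 1 f := hf1.of_le (by exact_mod_cast le_top)
  -- bounded support
  obtain ⟨R0, hR0⟩ := hf2.isBounded.subset_ball (0 : E N)
  set Rb : ℝ := max R0 ρ with hRb
  have hRb0 : 0 < Rb := lt_of_lt_of_le hρ (le_max_right _ _)
  set A : Set (E N) := Ω ∩ Metric.ball 0 Rb with hA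
  have hAm : MeasurableSet A := hΩ.inter measurableSet_ball
  have hAR : A ⊆ Metric.ball 0 Rb := inter_subset_right
  have hsupp : ∀ x, x ∉ A → f x = 0 := by
    intro x hx
    apply image_eq_zero_of_notMem_tsupport
    intro hx2
    exact hx ⟨hf3 hx2, Metric.ball_subset_ball (le_max_left _ _) (hR0 hx2)⟩
  obtain ⟨M, hM⟩ := hf2.exists_bound_of_continuous hf1.continuous
  have hcl : Cl A M (fun x => |f x|) := by
    refine ⟨hf1.continuous.abs.measurable, fun x => abs_nonneg _, fun x => hM x, fun x hx => ?_⟩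
    rw [hsupp x hx, abs_zero]
  have hvolA : volume A ≤ volume (Metric.ball (0 : E N) ρ) := (measure_mono inter_subset_left).trans hvol
  have hAfin : volume A ≠ ⊤ := (hvolA.trans_lt measure_ball_lt_top).ne
  have hAle : volume.real A ≤ bv N ρ :=
    ENNReal.toReal_mono measure_ball_lt_top.ne hvolA
  have hbρ := bv_pos (N := N) hρ
  have hEn0 : 0 ≤ ∫ x, ‖fderiv ℝ f x‖ ^ 2 := integral_nonneg fun x => by positivity
  by_cases h0 : volume.real A = 0
  · -- `f = 0` almost everywhere
    have h1 : volume A = 0 := by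
      rw [Measure.real, ENNReal.toReal_eq_zero_iff] at h0
      exact h0.resolve_right hAfin
    have h2 : ∫ x, f x ^ 2 = 0 := by
      apply integral_eq_zero_of_ae
      have h3 : ∀ᵐ x : E N, x ∉ A := measure_eq_zero_iff_ae_notMem.1 h1
      filter_upwards [h3] with x hx
      rw [hsupp x hx]; simp
    rw [h2, mul_zero]
    exact hEn0
  · have hApos : 0 < volume.real A := lt_of_le_of_ne measureReal_nonneg (Ne.symm h0)
    -- radius of the ball of the same volume
    set q : ℝ := volume.real A / bv N ρ with hq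
    have hq0 : 0 < q := by positivity
    have hq1 : q ≤ 1 := by rw [hq, div_le_one hbρ]; exact hAle
    set s : ℝ := q ^ ((N : ℝ)⁻¹) with hs
    have hs0 : 0 < s := by positivity
    have hsN : s ^ N = q := by
      rw [hs, Real.rpow_inv_natCast_pow hq0.le (by omega)]
    have hs1 : s ≤ 1 := Real.rpow_le_one hq0.le hq1 (by positivity)
    set r : ℝ := s * ρ with hr
    have hr0 : 0 < r := by positivity
    have hrρ : r ≤ ρ := by rw [hr]; nlinarith
    have hvolr : volume.real A = volume.real (Metric.ball (0 : E N) r) := by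
      have h1 : volume (Metric.ball (0 : E N) r) = ENNReal.ofReal (s ^ N) * volume (Metric.ball (0 : E N) ρ) := by
        have := Measure.addHaar_ball_mul_of_pos (volume : Measure (E N)) (0 : E N) hs0 ρ
        rw [finrank_euclideanSpace_fin] at this
        exact this
      rw [Measure.real, Measure.real, h1, ENNReal.toReal_mul, ENNReal.toReal_ofReal (by positivity), hsN, hq]
      unfold bv Measure.real
      unfold bv Measure.real at hbρ
      field_simp
    have h2 := fk_bdd hN1 hG hfC1 hf2 hcl hAm hRb0 hAR hr0 (hrρ.trans (le_max_right _ _)) hvolr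
    refine le_trans ?_ h2
    have h3 : 0 ≤ ∫ x, f x ^ 2 := integral_nonneg fun x => sq_nonneg _
    apply mul_le_mul_of_nonneg_right _ h3
    gcongr

end Pool.Agent.K7.H80.FK
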