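import Mathlib
import Pool.Agent.Y247.KB.Main
import Pool.Agent.K7.H80.FK6

/-! A ball with a small ball added at a boundary point: first order decrease of the first
eigenvalue. -/

set_option autoImplicit false

open MeasureTheory Filter Topology Metric
open scoped Pointwise

namespace Pool.Agent.K7.H80.CN

open Pool.Agent.Helper949.TB

variable {N : ℕ}

lemma norm_gradient (v : E N → ℝ) (x : E N) : ‖gradient v x‖ = ‖fderiv ℝ v x‖ := by
  unfold gradient
  simp

lemma cont_gradient (v : E N → ℝ) (hv : ContDiff ℝ (⊤ : ℕ∞) v) :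
    Continuous (fun x => gradient v x) := by
  unfold gradient
  exact (LinearIsometryEquiv.continuous _).comp (hv.continuous_fderiv (by simp))

lemma grad_zero (f : E N → ℝ) (x : E N) (hx : x ∉ tsupport f) : gradient f x = 0 := by
  have h : fderiv ℝ f x = 0 := by
    have h2 : f =ᶠ[𝓝 x] fun _ => (0:ℝ) := by
      have : (tsupport f)ᶜ ∈ 𝓝 x := (isClosed_tsupport f).isOpen_compl.mem_nhds hx
      filter_upwards [this] with y hy
      exact image_eq_zero_of_notMem_tsupport hy
    rw [h2.fderiv_eq]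
    simp
  unfold gradient
  rw [h]
  simp

lemma int_B (f g : E N → ℝ) (hf : ContDiff ℝ (⊤ : ℕ∞) f ∧ HasCompactSupport f)
    (hg : ContDiff ℝ (⊤ : ℕ∞) g ∧ HasCompactSupport g) :
    Integrable (fun x => (inner ℝ (gradient f x) (gradient g x) - f x * g x : ℝ)) := by
  apply Integrable.sub
  · apply Continuous.integrable_of_hasCompactSupport
    · exact (cont_gradient f hf.1).inner (cont_gradient g hg.1)
    · refine HasCompactSupport.intro' (K := tsupport f) hf.2 (isClosed_tsupport f) ?_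
      intro x hx
      rw [grad_zero f x hx]
      simp
  · apply Continuous.integrable_of_hasCompactSupport
    · exact hf.1.continuous.mul hg.1.continuous
    · exact hf.2.mul_right

lemma B_expand (u φ : E N → ℝ) (τ : ℝ) (hu : ContDiff ℝ (⊤ : ℕ∞) u ∧ HasCompactSupport u)
    (hφ : ContDiff ℝ (⊤ : ℕ∞) φ ∧ HasCompactSupport φ) :
    B (fun x => u x + τ * φ x) (fun x => u x + τ * φ x) = B u u + 2 * τ * B u φ + τ ^ 2 * B φ φ := by
  have hgr : ∀ x, gradient (fun x => u x + τ * φ x) x = gradient u x + τ • gradient φ x := by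
    intro x
    have h1 : DifferentiableAt ℝ u x := hu.1.differentiable (by simp) x
    have h2 : DifferentiableAt ℝ φ x := hφ.1.differentiable (by simp) x
    unfold gradient
    have h3 : fderiv ℝ (fun x => u x + τ * φ x) x = fderiv ℝ u x + τ • fderiv ℝ φ x := by
      rw [fderiv_fun_add h1 (h2.const_mul τ), fderiv_const_mul h2]
    rw [h3, map_add]
    simp
  unfold B
  have hpt : ∀ x, (inner ℝ (gradient (fun x => u x + τ * φ x) x) (gradient (fun x => u x + τ * φ x) x)
      - (u x + τ * φ x) * (u x + τ * φ x) : ℝ) =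
      (inner ℝ (gradient u x) (gradient u x) - u x * u x) +
      2 * τ * (inner ℝ (gradient u x) (gradient φ x) - u x * φ x) +
      τ ^ 2 * (inner ℝ (gradient φ x) (gradient φ x) - φ x * φ x) := by
    intro x
    rw [hgr, inner_add_left, inner_add_right, inner_add_right, real_inner_smul_left,
      real_inner_smul_right, real_inner_smul_left, real_inner_smul_right,
      real_inner_comm (gradient u x) (gradient φ x)]
    ring
  simp only [hpt]
  have j1 := int_B u u hu hu
  have j2 := (int_B u φ hu hφ).const_mul (2 * τ)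
  have j3 := (int_B φ φ hφ hφ).const_mul (τ ^ 2)
  have e1 := integral_add (j1.add j2) j3
  have e2 := integral_add j1 j2
  simp only [Pi.add_apply] at e1
  rw [e1, e2, integral_const_mul, integral_const_mul]

/-- one test function gives an admissible bound for the first eigenvalue -/
lemma ray_one {Ω : Set (E N)} {v : E N → ℝ} (hv : IsTest Ω v) (hne : v ≠ 0) {c : ℝ}
    (h : ∫ x, ‖fderiv ℝ v x‖ ^ 2 ≤ c * ∫ x, v x ^ 2) : c ∈ RaySet N 1 Ω := by
  obtain ⟨h1, h2, h3⟩ := hv
  refine ⟨Submodule.span ℝ {v}, finrank_span_singleton hne, ?_⟩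
  intro w hw
  obtain ⟨k, rfl⟩ := Submodule.mem_span_singleton.1 hw
  have hd : Differentiable ℝ v := h1.differentiable (by simp)
  refine ⟨contDiff_const.smul h1, ?_, ?_, ?_⟩
  · exact h2.smul_left (f := fun _ => k)
  · refine (closure_mono ?_).trans h3
    intro x hx hx2
    apply hx
    simp only [Pi.smul_apply, hx2, smul_zero]
  · have e1 : ∀ x, ‖fderiv ℝ (k • v) x‖ ^ 2 = k ^ 2 * ‖fderiv ℝ v x‖ ^ 2 := by
      intro x
      rw [fderiv_const_smul (hd x), norm_smul, mul_pow, Real.norm_eq_abs, sq_abs]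
    have e2 : ∀ x, (k • v) x ^ 2 = k ^ 2 * v x ^ 2 := by
      intro x
      simp only [Pi.smul_apply, smul_eq_mul]
      ring
    simp only [e1, e2]
    rw [integral_const_mul, integral_const_mul]
    have := mul_le_mul_of_nonneg_left h (sq_nonneg k)
    linarith

/-- adding a small ball at a boundary point of the ball decreases the first eigenvalue by an
amount of order `ε ^ N` -/
theorem neck (hN : 2 ≤ N) {F : ℝ → ℝ} {R : ℝ} (hG : Ground N F R) (ω : E N) (hω : ‖ω‖ = 1) :
    ∃ γ : ℝ, 0 < γ ∧ ∀ᶠ ε in 𝓝[>] (0 : ℝ),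
      1 - γ * ε ^ N ∈ RaySet N 1 (ball (0 : E N) R ∪ ball (R • ω) ε) := by
  have hR := hG.Rpos
  obtain ⟨β, hβ, hb⟩ := b_asymp N hN F R hG ω hω
  set D1 : ℝ := ∫ x : E N, ‖fderiv ℝ (phi : E N → ℝ) x‖ ^ 2 with hD1
  have hD1pos : 0 < D1 := phi_grad_pos N (by omega)
  set t : ℝ := β / (2 * D1) with ht
  have htpos : 0 < t := by positivity
  set γ : ℝ := β ^ 2 / (4 * D1) with hγ
  have hγpos : 0 < γ := by positivity
  set K : ℝ := 4 * volume.real (ball (0 : E N) (R + 1)) with hK
  have hKpos : 0 < K := by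
    have : 0 < volume.real (ball (0 : E N) (R + 1)) :=
      ENNReal.toReal_pos (measure_ball_pos _ _ (by linarith)).ne' measure_ball_lt_top.ne
    positivity
  refine ⟨γ / (2 * K), by positivity, ?_⟩
  have e2 : ∀ᶠ ε in 𝓝[>] (0 : ℝ), ε < min 1 (1 / t) := by
    apply mem_nhdsWithin_of_mem_nhds
    exact Iio_mem_nhds (by positivity)
  filter_upwards [hb, e2, self_mem_nhdsWithin] with ε hbε hε2 hεpos
  have hεpos' : 0 < ε := hεpos
  have hε1 : ε < 1 := lt_of_lt_of_le hε2 (min_le_left _ _)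
  have hεt : ε < 1 / t := lt_of_lt_of_le hε2 (min_le_right _ _)
  have hεN : 0 < ε ^ N := by positivity
  obtain ⟨u, hu, hrad, h01, hu0, huu, huφ⟩ := approx N hN F R hG
  obtain ⟨hφs, hφc, hφt, hφ01⟩ := phie_facts N ε hεpos' (R • ω)
  have a1 : ∀ᶠ n in atTop, B (u n) (u n) < γ / 2 * ε ^ N :=
    huu.eventually_lt_const (by positivity)
  have a2 : ∀ᶠ n in atTop, B (u n) (phie ε (R • ω)) < -(β / 2) * ε ^ (N - 1) := by
    apply (huφ _ hφs hφc).eventually_lt_const
    refine lt_of_le_of_lt hbε ?_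
    have : 0 < ε ^ (N - 1) := by positivity
    nlinarith
  obtain ⟨n, hn1, hn2⟩ := (a1.and a2).exists
  set D : ℝ := ε ^ N * ε⁻¹ ^ 2 * D1 with hD
  set τ : ℝ := t * ε with hτ
  have hτ0 : 0 ≤ τ := by positivity
  have hτ1 : τ ≤ 1 := by
    have := (lt_div_iff₀ htpos).1 hεt
    rw [hτ]; nlinarith
  have hεpow : ε * ε ^ (N - 1) = ε ^ N := by
    rw [← pow_succ']; congr 1; omega
  have hmain : 2 * τ * B (u n) (phie ε (R • ω)) + τ ^ 2 * D ≤ -γ * ε ^ N := by
    have h1 : 2 * τ * B (u n) (phie ε (R • ω)) ≤ 2 * τ * (-(β / 2) * ε ^ (N - 1)) :=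
      mul_le_mul_of_nonneg_left hn2.le (by positivity)
    have h2 : 2 * τ * (-(β / 2) * ε ^ (N - 1)) = -(t * β) * ε ^ N := by
      rw [← hεpow, hτ]; ring
    have h3 : τ ^ 2 * D = t ^ 2 * D1 * ε ^ N := by
      rw [hτ, hD]; field_simp
    have h4 : -(t * β) + t ^ 2 * D1 = -γ := by
      rw [ht, hγ]; field_simp; ring
    calc _ ≤ -(t * β) * ε ^ N + t ^ 2 * D1 * ε ^ N := by rw [h3]; linarith
      _ = (-(t * β) + t ^ 2 * D1) * ε ^ N := by ring
      _ = -γ * ε ^ N := by rw [h4]
  -- the trial function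
  set φ : E N → ℝ := phie ε (R • ω) with hφ
  set v : E N → ℝ := fun x => u n x + τ * φ x with hv
  obtain ⟨hu1, hu2, hu3⟩ := hu n
  have hBv : B v v ≤ -(γ / 2) * ε ^ N := by
    rw [hv, B_expand (u n) φ τ ⟨hu1, hu2⟩ ⟨hφs, hφc⟩]
    have h1 : τ ^ 2 * B φ φ ≤ τ ^ 2 * D := by
      have := phie_phie N ε hεpos' (R • ω)
      exact mul_le_mul_of_nonneg_left this (sq_nonneg τ)
    linarith
  have hv1 : ContDiff ℝ (⊤ : ℕ∞) v := hu1.add (contDiff_const.mul hφs)
  have hvsup : Function.support v ⊆ tsupport (u n) ∪ tsupport φ := by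
    intro x hx
    by_contra hcon
    rw [Set.mem_union, not_or] at hcon
    apply hx
    simp only [hv]
    rw [image_eq_zero_of_notMem_tsupport hcon.1, image_eq_zero_of_notMem_tsupport hcon.2]
    ring
  have hvts : tsupport v ⊆ tsupport (u n) ∪ tsupport φ :=
    closure_minimal hvsup ((isClosed_tsupport _).union (isClosed_tsupport _))
  have hv2 : HasCompactSupport v :=
    (hu2.isCompact.union hφc.isCompact).of_isClosed_subset (isClosed_tsupport v) hvts
  have hv3 : tsupport v ⊆ ball (0 : E N) R ∪ ball (R • ω) ε :=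
    hvts.trans (Set.union_subset_union hu3 hφt)
  have hv4 : ∫ x, v x ^ 2 ≤ K := by
    have hsub : ∀ x, x ∉ ball (0 : E N) (R + 1) → v x = 0 := by
      intro x hx
      apply image_eq_zero_of_notMem_tsupport
      intro hx2
      apply hx
      rcases hv3 hx2 with h | h
      · exact ball_subset_ball (by linarith) h
      · rw [mem_ball, dist_eq_norm] at h
        rw [mem_ball_zero_iff]
        calc ‖x‖ = ‖(x - R • ω) + R • ω‖ := by rw [sub_add_cancel]
          _ ≤ ‖x - R • ω‖ + ‖R • ω‖ := norm_add_le _ _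
          _ < ε + R := by
            rw [norm_smul, hω, mul_one, Real.norm_eq_abs, abs_of_pos hR]
            linarith
          _ ≤ R + 1 := by linarith
    have hb : ∀ x, v x ^ 2 ≤ (ball (0 : E N) (R + 1)).indicator (fun _ => (4:ℝ)) x := by
      intro x
      by_cases hx : x ∈ ball (0 : E N) (R + 1)
      · rw [Set.indicator_of_mem hx]
        obtain ⟨k1, k2⟩ := h01 n x
        obtain ⟨k3, k4⟩ := hφ01 x
        have k5 : 0 ≤ v x := by simp only [hv]; positivity
        have k6 : v x ≤ 2 := by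
          simp only [hv]
          nlinarith
        nlinarith
      · rw [Set.indicator_of_notMem hx, hsub x hx]
        norm_num
    calc ∫ x, v x ^ 2 ≤ ∫ x, (ball (0 : E N) (R + 1)).indicator (fun _ => (4:ℝ)) x := by
          apply integral_mono _ _ hb
          · exact Pool.Agent.Y247.KB.aux_int1 v hv1 hv2
          · rw [integrable_indicator_iff measurableSet_ball]
            exact integrableOn_const measure_ball_lt_top.ne
      _ = K := by
          rw [integral_indicator measurableSet_ball, setIntegral_const, smul_eq_mul, hK, mul_comm]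
  have hv0 : 0 ≤ ∫ x, v x ^ 2 := integral_nonneg fun x => sq_nonneg _
  refine ray_one ⟨hv1, hv2, hv3⟩ ?_ ?_
  · intro h0
    have hg : ∀ x, gradient v x = 0 := by
      intro x
      apply grad_zero
      rw [h0]
      simp [tsupport]
    have hz : ∀ x, v x = 0 := fun x => by rw [h0]; rfl
    have h1 : B v v = 0 := by
      unfold B
      simp only [hg, hz, inner_zero_left, mul_zero, sub_zero, integral_zero]
    rw [h1] at hBv
    nlinarith
  · rw [B_self N v hv1 hv2]
    have h1 : γ / (2 * K) * ε ^ N * ∫ x, v x ^ 2 ≤ γ / 2 * ε ^ N := by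
      calc γ / (2 * K) * ε ^ N * ∫ x, v x ^ 2 ≤ γ / (2 * K) * ε ^ N * K := by gcongr
        _ = γ / 2 * ε ^ N := by field_simp
    linarith

/-- the first eigenvalue of a ball, upper bound -/
theorem lam_ball_le (hN : 2 ≤ N) {F : ℝ → ℝ} {R : ℝ} (hG : Ground N F R) (q : E N) {ρ : ℝ}
    (hρ : 0 < ρ) : lam N 1 (ball q ρ) ≤ (R / ρ) ^ 2 := by
  have hR := hG.Rpos
  obtain ⟨ω, hω⟩ : ∃ ω : E N, ‖ω‖ = 1 := by
    have : NeZero N := ⟨by omega⟩
    exact ⟨EuclideanSpace.single 0 1, by simp⟩
  obtain ⟨γ, hγ, hev⟩ := neck hN hG ω hω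
  have h1 : ∀ᶠ ε in 𝓝[>] (0 : ℝ), lam N 1 (ball q ρ) ≤ ((R + ε) / ρ) ^ 2 := by
    filter_upwards [hev, self_mem_nhdsWithin] with ε hε hε0
    have hε0' : 0 < ε := hε0
    have h2 : ball (0 : E N) R ∪ ball (R • ω) ε ⊆ ball (0 : E N) (R + ε) := by
      apply Set.union_subset (ball_subset_ball (by linarith))
      intro x h
      rw [mem_ball, dist_eq_norm] at h
      rw [mem_ball_zero_iff]
      calc ‖x‖ = ‖(x - R • ω) + R • ω‖ := by rw [sub_add_cancel]
        _ ≤ ‖x - R • ω‖ + ‖R • ω‖ := norm_add_le _ _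
        _ < R + ε := by
          rw [norm_smul, hω, mul_one, Real.norm_eq_abs, abs_of_pos hR]
          linarith
    have hle : 1 - γ * ε ^ N ≤ 1 := by
      have : 0 < γ * ε ^ N := by positivity
      linarith
    have h3 : (1:ℝ) ∈ RaySet N 1 (ball (0 : E N) (R + ε)) := Pool.Agent.Y247.KB.ray_mono h2 hle hε
    -- scale
    set s : ℝ := ρ / (R + ε) with hs
    have hRε : 0 < R + ε := by linarith
    have hs0 : 0 < s := by positivity
    have h4 := scale_ray N 1 _ s hs0 1 h3
    have h5 : (fun x : E N => s • x) '' ball (0 : E N) (R + ε) = ball (0 : E N) ρ := by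
      have h6 : (fun x : E N => s • x) '' ball (0 : E N) (R + ε) = s • ball (0 : E N) (R + ε) := rfl
      rw [h6, _root_.smul_ball hs0.ne', smul_zero, Real.norm_eq_abs, abs_of_pos hs0]
      congr 1
      rw [hs]; field_simp
    rw [h5] at h4
    have h6 := Pool.Agent.Y247.KB.ray_translate q h4
    have h7 : (fun x : E N => x + q) '' ball (0 : E N) ρ = ball q ρ := by
      ext y
      simp only [Set.mem_image, mem_ball, dist_eq_norm, sub_zero]
      constructor
      · rintro ⟨x, hx, rfl⟩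
        simpa using hx
      · intro hy
        exact ⟨y - q, hy, by simp⟩
    rw [h7] at h6
    have h8 := lam_le N 1 le_rfl _ _ h6
    calc lam N 1 (ball q ρ) ≤ 1 / s ^ 2 := h8
      _ = ((R + ε) / ρ) ^ 2 := by rw [hs]; field_simp
  have h2 : Tendsto (fun ε : ℝ => ((R + ε) / ρ) ^ 2) (𝓝[>] 0) (𝓝 (((R + 0) / ρ) ^ 2)) := by
    apply Tendsto.mono_left _ nhdsWithin_le_nhds
    apply Continuous.tendsto
    fun_prop
  rw [add_zero] at h2
  exact ge_of_tendsto h2 h1

/-- Faber–Krahn for `lam` -/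
theorem lam_fk (hN : 2 ≤ N) {F : ℝ → ℝ} {R : ℝ} (hG : Ground N F R) {Ω : Set (E N)} (hΩ : IsOpen Ω)
    (hne : Ω.Nonempty) {ρ : ℝ} (hρ : 0 < ρ) (hvol : volume Ω ≤ volume (ball (0 : E N) ρ)) :
    (R / ρ) ^ 2 ≤ lam N 1 Ω :=
  lam_lower N 1 le_rfl Ω hΩ hne (by omega) _ fun _ hf =>
    FK.faberKrahn (by omega) hG hΩ.measurableSet hρ hvol hf

end Pool.Agent.K7.H80.CN
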