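import Mathlib
import Pool.Agent.K7.H80.CN1

/-! Eigenvalues of a disjoint union, scaling, and the competitor made of two tangent balls and a
small ball at the contact point. -/

set_option autoImplicit false

open MeasureTheory Filter Topology Metric
open scoped Pointwise

namespace Pool.Agent.K7.H80.CN

open Pool.Agent.Helper949.TB Pool.Agent.Y247.KB

variable {N : ℕ}

lemma lam_lt_ray (hN : 1 ≤ N) {k : ℕ} {Ω : Set (E N)} (hΩ : IsOpen Ω) (hne : Ω.Nonempty) {c : ℝ}
    (h : lam N k Ω < c) : c ∈ RaySet N k Ω := by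
  obtain ⟨c', hc', hlt⟩ := exists_lt_of_csInf_lt (raySet_nonempty N k hN Ω hΩ hne) h
  exact ray_mono (Set.Subset.refl Ω) hlt.le hc'

/-- restriction of a test function on a disjoint union to one of the two parts -/
lemma restrict_test {U V : Set (E N)} (hU : IsOpen U) (hV : IsOpen V) (hd : Disjoint U V) {f : E N → ℝ}
    (hf : IsTest (U ∪ V) f) :
    IsTest U (U.indicator f) ∧ ∀ x, fderiv ℝ (U.indicator f) x = U.indicator (fderiv ℝ f) x := by
  obtain ⟨h1, h2, h3⟩ := hf
  have hin : ∀ x ∈ U, U.indicator f =ᶠ[𝓝 x] f := by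
    intro x hx
    filter_upwards [hU.mem_nhds hx] with y hy
    exact Set.indicator_of_mem hy f
  have hout : ∀ x, x ∉ U → U.indicator f =ᶠ[𝓝 x] fun _ => (0:ℝ) := by
    intro x hx
    by_cases hxV : x ∈ V
    · filter_upwards [hV.mem_nhds hxV] with y hy
      exact Set.indicator_of_notMem (fun h => Set.disjoint_left.1 hd h hy) f
    · have h0 : f =ᶠ[𝓝 x] 0 := by
        rw [← notMem_tsupport_iff_eventuallyEq]
        intro h
        rcases h3 h with h4 | h4
        · exact hx h4
        · exact hxV h4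
      filter_upwards [h0] with y hy
      by_cases hyU : y ∈ U
      · rw [Set.indicator_of_mem hyU]; exact hy
      · rw [Set.indicator_of_notMem hyU]
  have hsub : Function.support (U.indicator f) ⊆ Function.support f := by
    intro x hx hx2
    apply hx
    by_cases hxU : x ∈ U
    · rw [Set.indicator_of_mem hxU]; exact hx2
    · rw [Set.indicator_of_notMem hxU]
  refine ⟨⟨?_, h2.mono hsub, ?_⟩, ?_⟩
  · rw [contDiff_iff_contDiffAt]
    intro x
    by_cases hx : x ∈ U
    · exact h1.contDiffAt.congr_of_eventuallyEq (hin x hx)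
    · exact contDiffAt_const.congr_of_eventuallyEq (hout x hx)
  · intro x hx
    by_contra hxU
    exact (notMem_tsupport_iff_eventuallyEq.2 (hout x hxU)) hx
  · intro x
    by_cases hx : x ∈ U
    · rw [(hin x hx).fderiv_eq, Set.indicator_of_mem hx]
    · rw [(hout x hx).fderiv_eq, Set.indicator_of_notMem hx]
      exact fderiv_const_apply (0:ℝ)

lemma split_int {U V : Set (E N)} (hU : IsOpen U) (hV : IsOpen V) (hd : Disjoint U V) {f : E N → ℝ}
    (hf : IsTest (U ∪ V) f) :
    (∫ x, f x ^ 2) = (∫ x, U.indicator f x ^ 2) + ∫ x, V.indicator f x ^ 2 ∧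
    (∫ x, ‖fderiv ℝ f x‖ ^ 2) = (∫ x, ‖fderiv ℝ (U.indicator f) x‖ ^ 2) +
      ∫ x, ‖fderiv ℝ (V.indicator f) x‖ ^ 2 := by
  obtain ⟨⟨u1, u2, u3⟩, hu⟩ := restrict_test hU hV hd hf
  have hf' : IsTest (V ∪ U) f := by rwa [Set.union_comm]
  obtain ⟨⟨v1, v2, v3⟩, hv⟩ := restrict_test hV hU hd.symm hf'
  obtain ⟨h1, h2, h3⟩ := hf
  constructor
  · rw [← integral_add (aux_int1 _ u1 u2) (aux_int1 _ v1 v2)]
    refine integral_congr_ae (Eventually.of_forall fun x => ?_)
    simp only
    by_cases hx : x ∈ U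
    · have hxV : x ∉ V := Set.disjoint_left.1 hd hx
      rw [Set.indicator_of_mem hx, Set.indicator_of_notMem hxV]; ring
    · rw [Set.indicator_of_notMem hx]
      by_cases hxV : x ∈ V
      · rw [Set.indicator_of_mem hxV]; ring
      · rw [Set.indicator_of_notMem hxV]
        have : f x = 0 := by
          apply image_eq_zero_of_notMem_tsupport
          intro h
          rcases h3 h with h4 | h4
          · exact hx h4
          · exact hxV h4
        rw [this]; ring
  · rw [← integral_add (aux_int2 _ u1 u2) (aux_int2 _ v1 v2)]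
    refine integral_congr_ae (Eventually.of_forall fun x => ?_)
    simp only [hu, hv]
    by_cases hx : x ∈ U
    · have hxV : x ∉ V := Set.disjoint_left.1 hd hx
      rw [Set.indicator_of_mem hx, Set.indicator_of_notMem hxV, norm_zero]; ring
    · rw [Set.indicator_of_notMem hx]
      by_cases hxV : x ∈ V
      · rw [Set.indicator_of_mem hxV, norm_zero]; ring
      · rw [Set.indicator_of_notMem hxV]
        have : fderiv ℝ f x = 0 := by
          have h0 : f =ᶠ[𝓝 x] 0 := by
            rw [← notMem_tsupport_iff_eventuallyEq]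
            intro h
            rcases h3 h with h4 | h4
            · exact hx h4
            · exact hxV h4
          rw [h0.fderiv_eq]
          exact fderiv_const_apply (0:ℝ)
        rw [this, norm_zero]; ring

/-- the first eigenvalue of a disjoint union -/
theorem lam1_union (hN : 1 ≤ N) {U V : Set (E N)} (hU : IsOpen U) (hV : IsOpen V) (hd : Disjoint U V)
    (hne : U.Nonempty) : min (lam N 1 U) (lam N 1 V) ≤ lam N 1 (U ∪ V) := by
  refine lam_lower N 1 le_rfl _ (hU.union hV) (hne.mono Set.subset_union_left) hN _ fun f hf => ?_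
  obtain ⟨e1, e2⟩ := split_int hU hV hd hf
  have hf' : IsTest (V ∪ U) f := by rwa [Set.union_comm]
  have h1 := lam_one_ineq (restrict_test hU hV hd hf).1
  have h2 := lam_one_ineq (restrict_test hV hU hd.symm hf').1
  have n1 : 0 ≤ ∫ x, U.indicator f x ^ 2 := integral_nonneg fun x => sq_nonneg _
  have n2 : 0 ≤ ∫ x, V.indicator f x ^ 2 := integral_nonneg fun x => sq_nonneg _
  have m1 := mul_le_mul_of_nonneg_right (min_le_left (lam N 1 U) (lam N 1 V)) n1
  have m2 := mul_le_mul_of_nonneg_right (min_le_right (lam N 1 U) (lam N 1 V)) n2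
  rw [e1, e2, mul_add]
  linarith

/-- restriction to a set as a linear map -/
noncomputable def ind (U : Set (E N)) : (E N → ℝ) →ₗ[ℝ] (E N → ℝ) where
  toFun f := U.indicator f
  map_add' f g := Set.indicator_add U f g
  map_smul' c f := by
    simp only [RingHom.id_apply]
    exact Set.indicator_const_smul U c f

/-- the second eigenvalue of a disjoint union -/
theorem lam2_union (hN : 1 ≤ N) {U V : Set (E N)} (hU : IsOpen U) (hV : IsOpen V) (hd : Disjoint U V)
    (hne : U.Nonempty) : min (lam N 2 U) (lam N 1 V) ≤ lam N 2 (U ∪ V) := by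
  refine le_csInf (raySet_nonempty N 2 hN _ (hU.union hV) (hne.mono Set.subset_union_left)) ?_
  intro c hc
  by_contra hcon
  push Not at hcon
  have hcU : c < lam N 2 U := hcon.trans_le (min_le_left _ _)
  have hcV : c < lam N 1 V := hcon.trans_le (min_le_right _ _)
  obtain ⟨S, hS, hSv⟩ := hc
  have key : ∀ f ∈ S, ∫ x, ‖fderiv ℝ (U.indicator f) x‖ ^ 2 ≤ c * ∫ x, U.indicator f x ^ 2 ∧
      (U.indicator f = 0 → f = 0) := by
    intro f hf
    obtain ⟨h1, h2, h3, h4⟩ := hSv f hf
    have hft : IsTest (U ∪ V) f := ⟨h1, h2, h3⟩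
    have hf' : IsTest (V ∪ U) f := by rwa [Set.union_comm]
    obtain ⟨e1, e2⟩ := split_int hU hV hd hft
    have hVt := (restrict_test hV hU hd.symm hf').1
    have h5 := lam_one_ineq hVt
    have n2 : 0 ≤ ∫ x, V.indicator f x ^ 2 := integral_nonneg fun x => sq_nonneg _
    have m2 := mul_le_mul_of_nonneg_right hcV.le n2
    rw [e1, e2, mul_add] at h4
    refine ⟨by linarith, ?_⟩
    intro h0
    have h6 : ∫ x, ‖fderiv ℝ (U.indicator f) x‖ ^ 2 = 0 := by
      rw [h0]; simp
    have h7 : ∫ x, U.indicator f x ^ 2 = 0 := by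
      rw [h0]; simp
    rw [h6, h7] at h4
    have h8 : ∫ x, V.indicator f x ^ 2 = 0 := by
      by_contra hne0
      have hpos : 0 < ∫ x, V.indicator f x ^ 2 := lt_of_le_of_ne n2 (Ne.symm hne0)
      nlinarith
    have h9 : V.indicator f = 0 := by
      by_contra hne0
      obtain ⟨x, hx⟩ := Function.ne_iff.1 hne0
      have hs2 : HasCompactSupport (fun x => V.indicator f x ^ 2) := by
        have := hVt.2.1.comp_left (g := fun t : ℝ => t ^ 2) (by norm_num)
        exact this
      have : 0 < ∫ x, V.indicator f x ^ 2 :=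
        (hVt.1.continuous.pow 2).integral_pos_of_hasCompactSupport_nonneg_nonzero hs2
          (fun x => sq_nonneg _) (x := x) (pow_ne_zero 2 hx)
      linarith
    ext x
    have hU0 := congrFun h0 x
    have hV0 := congrFun h9 x
    by_cases hx : x ∈ U
    · rw [Set.indicator_of_mem hx] at hU0; exact hU0
    · by_cases hxV : x ∈ V
      · rw [Set.indicator_of_mem hxV] at hV0; exact hV0
      · apply image_eq_zero_of_notMem_tsupport
        intro h
        rcases h3 h with h4 | h4
        · exact hx h4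
        · exact hxV h4
  have hmem : c ∈ RaySet N 2 U := by
    refine ⟨S.map (ind U), ?_, ?_⟩
    · have hinj : Function.Injective ((ind U).domRestrict S) := by
        rw [← LinearMap.ker_eq_bot, LinearMap.ker_eq_bot']
        intro f hf
        apply Subtype.ext
        exact (key f f.2).2 hf
      have h1 := LinearMap.finrank_range_of_inj hinj
      rw [LinearMap.range_domRestrict] at h1
      rw [h1, hS]
    · rintro _ ⟨f, hf, rfl⟩
      obtain ⟨h1, h2, h3, h4⟩ := hSv f hf
      obtain ⟨t1, t2, t3⟩ := (restrict_test hU hV hd ⟨h1, h2, h3⟩).1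
      exact ⟨t1, t2, t3, (key f hf).1⟩
  exact absurd (lam_le N 2 (by norm_num) U c hmem) (not_le.2 hcU)

/-- scaling -/
theorem lam_scale (hN : 1 ≤ N) {k : ℕ} (hk : 1 ≤ k) {Ω : Set (E N)} (hΩ : IsOpen Ω) (hne : Ω.Nonempty)
    {s : ℝ} (hs : 0 < s) : lam N k ((fun x : E N => s • x) '' Ω) ≤ lam N k Ω / s ^ 2 := by
  rw [le_div_iff₀ (by positivity)]
  refine le_csInf (raySet_nonempty N k hN _ hΩ hne) fun c hc => ?_
  have := lam_le N k hk _ _ (scale_ray N k Ω s hs c hc)
  rwa [le_div_iff₀ (by positivity)] at this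

/-- existence of a ball of given volume -/
lemma exists_radius (hN : 1 ≤ N) {Ω : Set (E N)} (hΩ : IsOpen Ω) (hne : Ω.Nonempty)
    (hfin : volume Ω ≠ ⊤) : ∃ ρ : ℝ, 0 < ρ ∧ volume Ω = volume (ball (0 : E N) ρ) := by
  have hpos : 0 < volume Ω := hΩ.measure_pos _ hne
  have hv0 : 0 < (volume Ω).toReal := ENNReal.toReal_pos hpos.ne' hfin
  have hb0 : 0 < volume (ball (0 : E N) 1) := measure_ball_pos _ _ one_pos
  have hbf : volume (ball (0 : E N) 1) ≠ ⊤ := measure_ball_lt_top.ne
  have hbr : 0 < (volume (ball (0 : E N) 1)).toReal := ENNReal.toReal_pos hb0.ne' hbf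
  obtain ⟨u, hu, huN⟩ := exists_root hN (w := (volume Ω).toReal / (volume (ball (0 : E N) 1)).toReal)
    (by positivity)
  refine ⟨u, hu, ?_⟩
  rw [vol_ball N 0 u hu, huN]
  rw [← ENNReal.ofReal_toReal hbf, ← ENNReal.ofReal_mul (by positivity), ENNReal.toReal_ofReal hbr.le,
    div_mul_cancel₀ _ hbr.ne', ENNReal.ofReal_toReal hfin]

/-- the competitor: two tangent balls with a small ball at the contact point -/
theorem competitor (hN : 2 ≤ N) {F : ℝ → ℝ} {R : ℝ} (hG : Ground N F R) {a b : ℝ} (ha : 0 < a)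
    (hb : 0 < b) {t : ℝ} (ht0 : 0 < t) (ht1 : t ≤ 1) :
    ∃ Ω : Set (E N), IsOpen Ω ∧ volume Ω = volume (ball (0 : E N) a) + volume (ball (0 : E N) b) ∧
      t * lam N 1 Ω + (1 - t) * lam N 2 Ω < t * (R / a) ^ 2 + (1 - t) * max ((R / a) ^ 2) ((R / b) ^ 2) := by
  have hR := hG.Rpos
  have hN1 : 1 ≤ N := by omega
  obtain ⟨ω, hω⟩ : ∃ ω : E N, ‖ω‖ = 1 := by
    have : NeZero N := ⟨by omega⟩
    exact ⟨EuclideanSpace.single 0 1, by simp⟩
  set b' : ℝ := b * R / a with hb'
  have hb'0 : 0 < b' := by positivity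
  set m : ℝ := min R b' with hm
  have hm0 : 0 < m := lt_min hR hb'0
  obtain ⟨γ, hγ, hneck⟩ := neck hN hG ω hω
  obtain ⟨θ, hθ, hθ0, hgap⟩ := gap_volume N hN1 m hm0
  set B1 : Set (E N) := ball (0 : E N) R with hB1
  set B2 : Set (E N) := ball ((R + b') • ω) b' with hB2
  set M : ℝ := max 1 ((R / b') ^ 2) with hM
  have hM1 : 1 ≤ M := le_max_left _ _
  set T : ℝ := t + (1 - t) * M with hT
  have hTpos : 0 < T := by nlinarith
  -- volumes
  have hv1fin : volume B1 ≠ ⊤ := measure_ball_lt_top.ne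
  have hv2fin : volume B2 ≠ ⊤ := measure_ball_lt_top.ne
  set V0 : ℝ := (volume B1).toReal + (volume B2).toReal with hV0
  have hB1pos : 0 < (volume B1).toReal := ENNReal.toReal_pos (measure_ball_pos _ _ hR).ne' hv1fin
  have hB2pos : 0 < (volume B2).toReal := ENNReal.toReal_pos (measure_ball_pos _ _ hb'0).ne' hv2fin
  have hV0pos : 0 < V0 := by positivity
  have hV0e : volume B1 + volume B2 = ENNReal.ofReal V0 := by
    rw [hV0, ENNReal.ofReal_add hB1pos.le hB2pos.le, ENNReal.ofReal_toReal hv1fin,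
      ENNReal.ofReal_toReal hv2fin]
  have hωn : ∀ r : ℝ, 0 ≤ r → ‖r • ω‖ = r := by
    intro r hr
    rw [norm_smul, hω, mul_one, Real.norm_eq_abs, abs_of_nonneg hr]
  -- disjointness
  have hdis : Disjoint B1 B2 := by
    apply ball_disjoint_ball
    rw [dist_comm, dist_zero_right, hωn _ (by linarith)]
  -- choose ε
  have e1 : ∀ᶠ ε in 𝓝[>] (0 : ℝ), θ ε < t * γ * V0 / T :=
    hθ.eventually_lt_const (by positivity)
  have e2 : ∀ᶠ ε in 𝓝[>] (0 : ℝ), ε < m := by
    apply mem_nhdsWithin_of_mem_nhds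
    exact Iio_mem_nhds hm0
  obtain ⟨ε, ⟨⟨hnε, hθε⟩, hεm⟩, hεpos⟩ := (((hneck.and e1).and e2).and self_mem_nhdsWithin).exists
  have hε0 : 0 < ε := hεpos
  have hεN : 0 < ε ^ N := by positivity
  set B3 : Set (E N) := ball (R • ω) ε with hB3
  set Ω : Set (E N) := B1 ∪ B2 ∪ B3 with hΩ
  have hΩo : IsOpen Ω := (isOpen_ball.union isOpen_ball).union isOpen_ball
  have hΩne : Ω.Nonempty := ⟨0, Or.inl (Or.inl (mem_ball_self hR))⟩
  -- volume of the gap
  have hsub3 : volume (B3 \ (B1 ∪ B2)) ≤ ENNReal.ofReal (θ ε * ε ^ N) := by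
    have h1 : dist ((R - m) • ω) ((R + m) • ω) = 2 * m := by
      rw [dist_eq_norm, ← sub_smul, norm_smul, hω, mul_one, Real.norm_eq_abs]
      rw [show R - m - (R + m) = -(2 * m) by ring, abs_neg, abs_of_pos (by positivity)]
    have h2 : midpoint ℝ ((R - m) • ω) ((R + m) • ω) = R • ω := by
      rw [midpoint_eq_smul_add, ← add_smul, smul_smul]
      congr 1
      norm_num
      ring
    have h3 := hgap _ _ h1 ε hε0 hεm
    rw [h2] at h3
    refine le_trans (measure_mono ?_) h3
    refine Set.sdiff_subset_sdiff_right (Set.union_subset_union ?_ ?_)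
    · intro x hx
      rw [mem_ball, dist_eq_norm] at hx
      rw [hB1, mem_ball_zero_iff]
      calc ‖x‖ = ‖(x - (R - m) • ω) + (R - m) • ω‖ := by rw [sub_add_cancel]
        _ ≤ ‖x - (R - m) • ω‖ + ‖(R - m) • ω‖ := norm_add_le _ _
        _ < R := by
          rw [hωn (R - m) (by linarith [min_le_left R b'])]
          linarith
    · intro x hx
      rw [mem_ball, dist_eq_norm] at hx
      rw [hB2, mem_ball, dist_eq_norm]
      have h4 : x - (R + b') • ω = (x - (R + m) • ω) - (b' - m) • ω := by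
        rw [sub_smul]
        rw [add_smul, add_smul]
        abel
      calc ‖x - (R + b') • ω‖ = ‖(x - (R + m) • ω) - (b' - m) • ω‖ := by rw [h4]
        _ ≤ ‖x - (R + m) • ω‖ + ‖(b' - m) • ω‖ := norm_sub_le _ _
        _ < b' := by
          rw [hωn (b' - m) (by linarith [min_le_right R b'])]
          linarith
  have hvup : volume Ω ≤ ENNReal.ofReal (V0 + θ ε * ε ^ N) := by
    have h1 : Ω ⊆ (B1 ∪ B2) ∪ (B3 \ (B1 ∪ B2)) := by
      intro x hx
      rcases hx with hx | hx
      · exact Or.inl hx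
      · by_cases h : x ∈ B1 ∪ B2
        · exact Or.inl h
        · exact Or.inr ⟨hx, h⟩
    calc volume Ω ≤ volume ((B1 ∪ B2) ∪ (B3 \ (B1 ∪ B2))) := measure_mono h1
      _ ≤ volume (B1 ∪ B2) + volume (B3 \ (B1 ∪ B2)) := measure_union_le _ _
      _ ≤ (volume B1 + volume B2) + ENNReal.ofReal (θ ε * ε ^ N) := by
        gcongr
        exact measure_union_le _ _
      _ = ENNReal.ofReal (V0 + θ ε * ε ^ N) := by
        rw [hV0e, ENNReal.ofReal_add hV0pos.le (by have := hθ0 ε; positivity)]
  have hvlow : ENNReal.ofReal V0 ≤ volume Ω := by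
    rw [← hV0e, ← measure_union hdis isOpen_ball.measurableSet]
    exact measure_mono Set.subset_union_left
  have hfin : volume Ω ≠ ⊤ := ne_top_of_le_ne_top ENNReal.ofReal_ne_top hvup
  set v : ℝ := (volume Ω).toReal with hv
  have hvv : volume Ω = ENNReal.ofReal v := (ENNReal.ofReal_toReal hfin).symm
  have hv0 : V0 ≤ v := by
    have := ENNReal.toReal_mono hfin hvlow
    rwa [ENNReal.toReal_ofReal hV0pos.le] at this
  have hvpos : 0 < v := lt_of_lt_of_le hV0pos hv0
  have hv1 : v ≤ V0 + θ ε * ε ^ N := by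
    have := ENNReal.toReal_mono ENNReal.ofReal_ne_top hvup
    rwa [ENNReal.toReal_ofReal (by have := hθ0 ε; positivity)] at this
  -- eigenvalues of `Ω`
  have hl1 : lam N 1 Ω ≤ 1 - γ * ε ^ N := by
    apply lam_le N 1 le_rfl
    refine ray_mono ?_ le_rfl hnε
    rw [hΩ]
    apply Set.union_subset
    · exact fun x hx => Or.inl (Or.inl hx)
    · exact fun x hx => Or.inr hx
  have hl2 : lam N 2 Ω ≤ M := by
    refine le_of_forall_gt_imp_ge_of_dense fun c hc => ?_
    have h1 : c ∈ RaySet N 1 B1 := by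
      apply lam_lt_ray hN1 isOpen_ball ⟨0, mem_ball_self hR⟩
      refine lt_of_le_of_lt (lam_ball_le hN hG 0 hR) ?_
      rw [div_self hR.ne', one_pow]
      exact lt_of_le_of_lt hM1 hc
    have h2 : c ∈ RaySet N 1 B2 := by
      apply lam_lt_ray hN1 isOpen_ball ⟨_, mem_ball_self hb'0⟩
      exact lt_of_le_of_lt ((lam_ball_le hN hG _ hb'0).trans (le_max_right _ _)) hc
    have h3 := ray_union hdis h1 h2
    exact lam_le N 2 (by norm_num) _ c (ray_mono Set.subset_union_left le_rfl h3)
  -- scaling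
  set c : ℝ := (a / R) ^ N * V0 with hc
  have hcpos : 0 < c := by positivity
  have hce : volume (ball (0 : E N) a) + volume (ball (0 : E N) b) = ENNReal.ofReal c := by
    have h1 : volume (ball (0 : E N) a) = ENNReal.ofReal ((a / R) ^ N) * volume B1 := by
      rw [hB1, vol_ball N 0 a ha, vol_ball N 0 R hR, ← mul_assoc, ← ENNReal.ofReal_mul (by positivity),
        ← mul_pow, div_mul_cancel₀ _ hR.ne']
    have h2 : volume (ball (0 : E N) b) = ENNReal.ofReal ((a / R) ^ N) * volume B2 := by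
      have h3 : a / R * b' = b := by rw [hb']; field_simp
      rw [hB2, vol_ball N 0 b hb, vol_ball N _ b' hb'0, ← mul_assoc, ← ENNReal.ofReal_mul (by positivity),
        ← mul_pow, h3]
    rw [h1, h2, ← mul_add, hV0e, ← ENNReal.ofReal_mul (by positivity)]
  obtain ⟨s, hs, hsN⟩ := exists_root hN1 (w := c / v) (by positivity)
  have hsv : s ^ N * v = c := by rw [hsN]; field_simp
  refine ⟨(fun x : E N => s • x) '' Ω, ?_, ?_, ?_⟩
  · have := hΩo.smul₀ hs.ne'
    rwa [← Set.image_smul] at this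
  · rw [scale_volume N _ s hs, hvv, ← ENNReal.ofReal_mul (by positivity), hsv, hce]
  · -- the comparison
    have k1 := lam_scale hN1 (k := 1) le_rfl hΩo hΩne hs
    have k2 := lam_scale hN1 (k := 2) (by norm_num) hΩo hΩne hs
    set y : ℝ := θ ε * ε ^ N / V0 with hy
    have hy0 : 0 ≤ y := by have := hθ0 ε; positivity
    set z : ℝ := a / (R * s) with hz
    have hz0 : 0 < z := by positivity
    have hzN : z ^ N = v / V0 := by
      have h1 : z ^ N = (a / R) ^ N / s ^ N := by
        rw [hz, ← div_div, div_pow]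
      rw [h1, hsN, hc]
      field_simp
    have hz1 : 1 ≤ z ^ N := by rw [hzN, one_le_div hV0pos]; exact hv0
    have hz2 : z ^ N ≤ 1 + y := by
      rw [hzN, div_le_iff₀ hV0pos, hy]
      field_simp
      linarith
    have hz3 : 1 ≤ z := by
      by_contra h
      push Not at h
      have : z ^ N < 1 := pow_lt_one₀ hz0.le h (by omega)
      linarith
    have hz4 : z ^ 2 ≤ 1 + y := (pow_le_pow_right₀ hz3 hN).trans hz2
    have hs2 : 1 / s ^ 2 = (R / a) ^ 2 * z ^ 2 := by
      rw [hz]; field_simp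
    have hA : t * lam N 1 Ω + (1 - t) * lam N 2 Ω ≤ T - t * γ * ε ^ N := by
      have h1 := mul_le_mul_of_nonneg_left hl1 ht0.le
      have h2 := mul_le_mul_of_nonneg_left hl2 (by linarith : 0 ≤ 1 - t)
      rw [hT]
      nlinarith
    have hyT : y * T < t * γ * ε ^ N := by
      rw [lt_div_iff₀ hTpos] at hθε
      have h1 : y * T = θ ε * T * ε ^ N / V0 := by rw [hy]; ring
      rw [h1, div_lt_iff₀ hV0pos]
      nlinarith
    have hB : (1 + y) * (T - t * γ * ε ^ N) < T := by
      have : 0 ≤ y * (t * γ * ε ^ N) := by positivity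
      nlinarith
    have hRM : t * (R / a) ^ 2 + (1 - t) * max ((R / a) ^ 2) ((R / b) ^ 2) = (R / a) ^ 2 * T := by
      have h1 : max ((R / a) ^ 2) ((R / b) ^ 2) = (R / a) ^ 2 * M := by
        rw [hM, mul_max_of_nonneg _ _ (by positivity)]
        congr 1
        · ring
        · rw [hb']; field_simp
      rw [h1, hT]; ring
    rw [hRM]
    have hnn : 0 ≤ t * lam N 1 Ω + (1 - t) * lam N 2 Ω := by
      have n1 : 0 ≤ lam N 1 Ω := Real.sInf_nonneg fun c hc => raySet_nonneg N 1 le_rfl Ω c hc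
      have n2 : 0 ≤ lam N 2 Ω := Real.sInf_nonneg fun c hc => raySet_nonneg N 2 (by norm_num) Ω c hc
      have : 0 ≤ 1 - t := by linarith
      positivity
    calc t * lam N 1 ((fun x : E N => s • x) '' Ω) + (1 - t) * lam N 2 ((fun x : E N => s • x) '' Ω)
        ≤ t * (lam N 1 Ω / s ^ 2) + (1 - t) * (lam N 2 Ω / s ^ 2) := by
          have : 0 ≤ 1 - t := by linarith
          gcongr
      _ = (1 / s ^ 2) * (t * lam N 1 Ω + (1 - t) * lam N 2 Ω) := by ring
      _ = (R / a) ^ 2 * (z ^ 2 * (t * lam N 1 Ω + (1 - t) * lam N 2 Ω)) := by rw [hs2]; ring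
      _ ≤ (R / a) ^ 2 * ((1 + y) * (T - t * γ * ε ^ N)) := by
          apply mul_le_mul_of_nonneg_left _ (by positivity)
          exact mul_le_mul hz4 hA hnn (by linarith)
      _ < (R / a) ^ 2 * T := by
          apply mul_lt_mul_of_pos_left hB (by positivity)

/-- disconnected open sets are not optimal -/
theorem main (hN : 2 ≤ N) {t : ℝ} (ht0 : 0 < t) (ht1 : t ≤ 1) {U V : Set (E N)} (hU : IsOpen U)
    (hV : IsOpen V) (hUne : U.Nonempty) (hVne : V.Nonempty) (hd : Disjoint U V)
    (hfin : volume (U ∪ V) ≠ ⊤) (hle : lam N 1 U ≤ lam N 1 V) :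
    ∃ Ω : Set (E N), IsOpen Ω ∧ volume Ω = volume (U ∪ V) ∧
      t * lam N 1 Ω + (1 - t) * lam N 2 Ω < t * lam N 1 (U ∪ V) + (1 - t) * lam N 2 (U ∪ V) := by
  have hN1 : 1 ≤ N := by omega
  obtain ⟨F, R, hG⟩ := exists_ground N hN
  have hR := hG.Rpos
  have hUfin : volume U ≠ ⊤ := ne_top_of_le_ne_top hfin (measure_mono Set.subset_union_left)
  have hVfin : volume V ≠ ⊤ := ne_top_of_le_ne_top hfin (measure_mono Set.subset_union_right)
  obtain ⟨a, ha, haU⟩ := exists_radius hN1 hU hUne hUfin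
  obtain ⟨b, hb, hbV⟩ := exists_radius hN1 hV hVne hVfin
  have hvol : volume (U ∪ V) = volume U + volume V := measure_union hd hV.measurableSet
  have f1 := lam_fk hN hG hU hUne ha haU.le
  have f2 := lam_fk hN hG hV hVne hb hbV.le
  have g1 := lam1_union hN1 hU hV hd hUne
  have g2 := lam2_union hN1 hU hV hd hUne
  rw [min_eq_left hle] at g1
  have h1t : 0 ≤ 1 - t := by linarith
  rcases le_or_gt (lam N 2 U) (lam N 1 V) with h | h
  · -- rescale `U`
    rw [min_eq_left h] at g2
    have hUpos : 0 < (volume U).toReal := ENNReal.toReal_pos (hU.measure_pos _ hUne).ne' hUfin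
    have hVpos : 0 < (volume V).toReal := ENNReal.toReal_pos (hV.measure_pos _ hVne).ne' hVfin
    obtain ⟨s, hs, hsN⟩ := exists_root hN1
      (w := ((volume U).toReal + (volume V).toReal) / (volume U).toReal) (by positivity)
    have hs1 : 1 < s := by
      by_contra hcon
      push Not at hcon
      have h1 : s ^ N ≤ 1 := pow_le_one₀ hs.le hcon
      rw [hsN, div_le_one hUpos] at h1
      linarith
    refine ⟨(fun x : E N => s • x) '' U, ?_, ?_, ?_⟩
    · have := hU.smul₀ hs.ne'
      rwa [← Set.image_smul] at this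
    · rw [scale_volume N _ s hs, hvol, ← ENNReal.ofReal_toReal hUfin, ← ENNReal.ofReal_mul (by positivity),
        ← ENNReal.ofReal_toReal hVfin, ← ENNReal.ofReal_add hUpos.le hVpos.le, hsN,
        div_mul_cancel₀ _ hUpos.ne']
    · have k1 := lam_scale hN1 (k := 1) le_rfl hU hUne hs
      have k2 := lam_scale hN1 (k := 2) (by norm_num) hU hUne hs
      have hpos1 : 0 < lam N 1 U := lt_of_lt_of_le (by positivity) f1
      have hnn2 : 0 ≤ lam N 2 U := Real.sInf_nonneg fun c hc => raySet_nonneg N 2 (by norm_num) U c hc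
      have hFpos : 0 < t * lam N 1 U + (1 - t) * lam N 2 U := by positivity
      have hs2 : 1 < s ^ 2 := by nlinarith
      calc t * lam N 1 ((fun x : E N => s • x) '' U) + (1 - t) * lam N 2 ((fun x : E N => s • x) '' U)
          ≤ t * (lam N 1 U / s ^ 2) + (1 - t) * (lam N 2 U / s ^ 2) := by gcongr
        _ = (t * lam N 1 U + (1 - t) * lam N 2 U) / s ^ 2 := by ring
        _ < t * lam N 1 U + (1 - t) * lam N 2 U := div_lt_self hFpos hs2
        _ ≤ _ := by gcongr
  · rw [min_eq_right h.le] at g2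
    obtain ⟨Ω, o1, o2, o3⟩ := competitor hN hG ha hb ht0 ht1
    refine ⟨Ω, o1, by rw [o2, hvol, haU, hbV], o3.trans_le ?_⟩
    have h3 : max ((R / a) ^ 2) ((R / b) ^ 2) ≤ lam N 2 (U ∪ V) :=
      max_le ((f1.trans hle).trans g2) (f2.trans g2)
    have h4 : (R / a) ^ 2 ≤ lam N 1 (U ∪ V) := f1.trans g1
    gcongr

/-- for `0 < t ≤ 1` every open set of finite positive volume which is not connected is beaten by
another open set of the same volume -/
theorem main' (hN : 2 ≤ N) {t : ℝ} (ht0 : 0 < t) (ht1 : t ≤ 1) {Ω : Set (E N)} (hΩ : IsOpen Ω)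
    (hne : Ω.Nonempty) (hfin : volume Ω ≠ ⊤) (hc : ¬ IsConnected Ω) :
    ∃ Ω' : Set (E N), IsOpen Ω' ∧ volume Ω' = volume Ω ∧
      t * lam N 1 Ω' + (1 - t) * lam N 2 Ω' < t * lam N 1 Ω + (1 - t) * lam N 2 Ω := by
  have h1 : ¬ IsPreconnected Ω := fun h => hc ⟨hne, h⟩
  unfold IsPreconnected at h1
  push Not at h1
  obtain ⟨u, v, hu, hv, hcov, hu2, hv2, hint⟩ := h1
  set U := Ω ∩ u with hU
  set V := Ω ∩ v with hV
  have hUo : IsOpen U := hΩ.inter hu
  have hVo : IsOpen V := hΩ.inter hv
  have hd : Disjoint U V := by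
    rw [Set.disjoint_left]
    intro x hx hy
    have : x ∈ Ω ∩ (u ∩ v) := ⟨hx.1, hx.2, hy.2⟩
    rw [hint] at this
    exact this
  have hUV : U ∪ V = Ω := by
    rw [hU, hV, ← Set.inter_union_distrib_left]
    exact Set.inter_eq_left.2 hcov
  rcases le_total (lam N 1 U) (lam N 1 V) with h | h
  · have := main hN ht0 ht1 hUo hVo hu2 hv2 hd (by rwa [hUV]) h
    rwa [hUV] at this
  · have hVU : V ∪ U = Ω := by rw [Set.union_comm]; exact hUV
    have := main hN ht0 ht1 hVo hUo hv2 hu2 hd.symm (by rwa [hVU]) h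
    rwa [hVU] at this

end Pool.Agent.K7.H80.CN
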