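import Mathlib

/-! Log-convexity of sums of squares of Baskakov-type fundamental functions: the Riccati system. -/

set_option autoImplicit false

open Set MeasureTheory Filter Topology intervalIntegral

namespace Pool.Agent.K7.H80.LC

/-- differentiation under the integral sign -/
lemma hasDerivAt_param {U : Set ℝ} (hU : IsOpen U) {F F' : ℝ → ℝ → ℝ} {a b : ℝ} (hab : a ≤ b)
    (hd : ∀ x ∈ U, ∀ φ, HasDerivAt (fun x => F x φ) (F' x φ) x)
    (hc : ContinuousOn (Function.uncurry F) (U ×ˢ univ))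
    (hc' : ContinuousOn (Function.uncurry F') (U ×ˢ univ)) {x₀ : ℝ} (hx₀ : x₀ ∈ U) :
    HasDerivAt (fun x => ∫ φ in a..b, F x φ) (∫ φ in a..b, F' x₀ φ) x₀ := by
  obtain ⟨ε, hε, hball⟩ := Metric.isOpen_iff.1 hU x₀ hx₀
  have hcb : Metric.closedBall x₀ (ε / 2) ⊆ U :=
    (Metric.closedBall_subset_ball (by linarith)).trans hball
  have hcomp : IsCompact (Metric.closedBall x₀ (ε / 2) ×ˢ Icc a b) :=
    (isCompact_closedBall _ _).prod isCompact_Icc
  have hcF' : ContinuousOn (Function.uncurry F') (Metric.closedBall x₀ (ε / 2) ×ˢ Icc a b) :=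
    hc'.mono (prod_mono hcb (subset_univ _))
  obtain ⟨C, hC⟩ := hcomp.exists_bound_of_continuousOn hcF'
  have hsec : ∀ x ∈ U, Continuous (F x) := fun x hx => by
    have h1 : Continuous fun φ : ℝ => (x, φ) := by fun_prop
    have := hc.comp (s := univ) h1.continuousOn (fun φ _ => ⟨hx, trivial⟩)
    exact continuousOn_univ.1 this
  have hsec' : ∀ x ∈ U, Continuous (F' x) := fun x hx => by
    have h1 : Continuous fun φ : ℝ => (x, φ) := by fun_prop
    have := hc'.comp (s := univ) h1.continuousOn (fun φ _ => ⟨hx, trivial⟩)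
    exact continuousOn_univ.1 this
  have key := intervalIntegral.hasDerivAt_integral_of_dominated_loc_of_deriv_le
    (μ := volume) (F := F) (F' := F') (x₀ := x₀) (a := a) (b := b) (bound := fun _ => C)
    (s := Metric.ball x₀ (ε / 2)) (Metric.ball_mem_nhds x₀ (by linarith)) ?_ ?_ ?_ ?_ ?_ ?_
  · exact key.2
  · filter_upwards [hU.mem_nhds hx₀] with x hx
    exact (hsec x hx).aestronglyMeasurable
  · exact (hsec x₀ hx₀).intervalIntegrable _ _
  · exact (hsec' x₀ hx₀).aestronglyMeasurable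
  · refine Eventually.of_forall fun φ hφ x hx => ?_
    rw [uIoc_of_le hab] at hφ
    exact hC (x, φ) ⟨Metric.ball_subset_closedBall hx, Ioc_subset_Icc_self hφ⟩
  · exact intervalIntegrable_const
  · refine Eventually.of_forall fun φ hφ x hx => ?_
    exact hd x (hcb (Metric.ball_subset_closedBall hx)) φ

/-- `sin² (φ/2)` -/
noncomputable def s (φ : ℝ) : ℝ := Real.sin (φ / 2) ^ 2

lemma s_nonneg (φ : ℝ) : 0 ≤ s φ := sq_nonneg _
lemma s_le_one (φ : ℝ) : s φ ≤ 1 := Real.sin_sq_le_one _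
@[fun_prop] lemma s_cont : Continuous s := by unfold s; fun_prop

lemma cos_eq (φ : ℝ) : Real.cos φ = 1 - 2 * s φ := by
  have h := Real.cos_two_mul (φ / 2)
  have h2 := Real.sin_sq_add_cos_sq (φ / 2)
  rw [show 2 * (φ / 2) = φ by ring] at h
  unfold s
  linarith

lemma sin_sq_eq (φ : ℝ) : Real.sin φ ^ 2 = 4 * (s φ * (1 - s φ)) := by
  have h := cos_eq φ
  have h2 := Real.sin_sq_add_cos_sq φ
  rw [h] at h2
  linarith

/-- the half line on which `w = 1 + 2 c x` is positive -/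
def U (c : ℝ) : Set ℝ := {x | 0 < 1 + 2 * c * x}

lemma U_open (c : ℝ) : IsOpen (U c) := isOpen_lt continuous_const (by fun_prop)

lemma X_pos {c x : ℝ} (hx : x ∈ U c) (h0 : 0 < x) : 0 < x * (1 + c * x) := by
  have h1 : 0 < 1 + 2 * c * x := hx
  have : 0 < 1 + c * x := by nlinarith
  positivity

/-- The family of kernels. -/
structure Ker (n c : ℝ) (K0 K1 K2 : ℝ → ℝ → ℝ) : Prop where
  e0 : ∀ x ∈ U c, ∀ φ, K0 x φ = (1 + 4 * c * (x * (1 + c * x)) * s φ) * K1 x φ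
  e1 : ∀ x ∈ U c, ∀ φ, K1 x φ = (1 + 4 * c * (x * (1 + c * x)) * s φ) * K2 x φ
  pos : ∀ x ∈ U c, ∀ φ, 0 < K1 x φ
  pos0 : ∀ x ∈ U c, ∀ φ, 0 < K0 x φ
  d0 : ∀ x ∈ U c, ∀ φ, HasDerivAt (fun x => K0 x φ) (-4 * n * (1 + 2 * c * x) * (s φ * K1 x φ)) x
  d1 : ∀ x ∈ U c, ∀ φ, HasDerivAt (fun x => K1 x φ)
    (-4 * (n + c) * (1 + 2 * c * x) * (s φ * K2 x φ)) x
  dφ : ∀ x ∈ U c, ∀ φ, HasDerivAt (fun φ => K1 x φ)
    (-4 * (n + c) * (x * (1 + c * x)) * (Real.sin φ / 2 * K2 x φ)) φ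
  c0 : ContinuousOn (Function.uncurry K0) (U c ×ˢ univ)
  c1 : ContinuousOn (Function.uncurry K1) (U c ×ˢ univ)
  c2 : ContinuousOn (Function.uncurry K2) (U c ×ˢ univ)
  z0 : ∀ φ, K0 0 φ = 1
  z1 : ∀ φ, K1 0 φ = 1

/-- sections are continuous -/
lemma sec {U : Set ℝ} {K : ℝ → ℝ → ℝ} (hK : ContinuousOn (Function.uncurry K) (U ×ˢ univ)) {x : ℝ}
    (hx : x ∈ U) : Continuous (K x) := by
  have h1 : Continuous fun φ : ℝ => (x, φ) := by fun_prop
  have := hK.comp (s := univ) h1.continuousOn (fun φ _ => ⟨hx, trivial⟩)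
  exact continuousOn_univ.1 this

namespace Ker

variable {n c : ℝ} {K0 K1 K2 : ℝ → ℝ → ℝ} (h : Ker n c K0 K1 K2)
include h

lemma identity {x : ℝ} (hx : x ∈ U c) :
    ∫ φ in (0:ℝ)..Real.pi, K0 x φ =
      (2 + 4 * c * (x * (1 + c * x)) + 8 * (n + c) * (x * (1 + c * x))) *
        (∫ φ in (0:ℝ)..Real.pi, s φ * K1 x φ)
      - 8 * (n + c) * (x * (1 + c * x)) * (1 + 2 * c * x) ^ 2 *
        ∫ φ in (0:ℝ)..Real.pi, s φ * (s φ * K2 x φ) := by
  have k0 := sec h.c0 hx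
  have k1 := sec h.c1 hx
  have k2 := sec h.c2 hx
  have hder : ∀ φ ∈ uIcc (0:ℝ) Real.pi, HasDerivAt (fun φ => Real.sin φ * K1 x φ)
      (K0 x φ - (2 + 4 * c * (x * (1 + c * x)) + 8 * (n + c) * (x * (1 + c * x))) * (s φ * K1 x φ)
        + 8 * (n + c) * (x * (1 + c * x)) * (1 + 2 * c * x) ^ 2 * (s φ * (s φ * K2 x φ))) φ := by
    intro φ _
    refine ((Real.hasDerivAt_sin φ).mul (h.dφ x hx φ)).congr_deriv ?_
    have e0 := h.e0 x hx φ
    have e1 := h.e1 x hx φ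
    have e2 := sin_sq_eq φ
    have e3 := cos_eq φ
    rw [e3]
    have : Real.sin φ * (-4 * (n + c) * (x * (1 + c * x)) * (Real.sin φ / 2 * K2 x φ)) =
        -2 * (n + c) * (x * (1 + c * x)) * K2 x φ * Real.sin φ ^ 2 := by ring
    rw [this, e2, e0, e1]
    ring
  have hint : IntervalIntegrable (fun φ => K0 x φ - (2 + 4 * c * (x * (1 + c * x)) + 8 * (n + c) *
      (x * (1 + c * x))) * (s φ * K1 x φ) + 8 * (n + c) * (x * (1 + c * x)) * (1 + 2 * c * x) ^ 2 *
      (s φ * (s φ * K2 x φ))) volume 0 Real.pi := by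
    refine Continuous.intervalIntegrable ?_ _ _
    exact ((k0.sub (continuous_const.mul (s_cont.mul k1))).add
      (continuous_const.mul (s_cont.mul (s_cont.mul k2))))
  have key := integral_eq_sub_of_hasDerivAt hder hint
  rw [Real.sin_pi, Real.sin_zero, zero_mul, zero_mul, sub_zero, intervalIntegral.integral_add,
    intervalIntegral.integral_sub, intervalIntegral.integral_const_mul,
    intervalIntegral.integral_const_mul] at key
  · linarith
  · exact k0.intervalIntegrable _ _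
  · exact (continuous_const.mul (s_cont.mul k1)).intervalIntegrable _ _
  · exact (k0.sub (continuous_const.mul (s_cont.mul k1))).intervalIntegrable _ _
  · exact (continuous_const.mul (s_cont.mul (s_cont.mul k2))).intervalIntegrable _ _

lemma dS {x : ℝ} (hx : x ∈ U c) : HasDerivAt (fun x => ∫ φ in (0:ℝ)..Real.pi, K0 x φ)
    (-4 * n * (1 + 2 * c * x) * ∫ φ in (0:ℝ)..Real.pi, s φ * K1 x φ) x := by
  have h1 := hasDerivAt_param (U_open c) (F := K0)
    (F' := fun x φ => -4 * n * (1 + 2 * c * x) * (s φ * K1 x φ)) Real.pi_pos.le h.d0 h.c0 ?_ hx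
  · rw [intervalIntegral.integral_const_mul] at h1
    exact h1
  · have : Continuous fun p : ℝ × ℝ => -4 * n * (1 + 2 * c * p.1) := by fun_prop
    have h2 : Continuous fun p : ℝ × ℝ => s p.2 := by fun_prop
    exact this.continuousOn.mul (h2.continuousOn.mul h.c1)

lemma dJ {x : ℝ} (hx : x ∈ U c) : HasDerivAt (fun x => ∫ φ in (0:ℝ)..Real.pi, s φ * K1 x φ)
    (-4 * (n + c) * (1 + 2 * c * x) * ∫ φ in (0:ℝ)..Real.pi, s φ * (s φ * K2 x φ)) x := by
  have h2 : Continuous fun p : ℝ × ℝ => s p.2 := by fun_prop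
  have h1 := hasDerivAt_param (U_open c) (F := fun x φ => s φ * K1 x φ)
    (F' := fun x φ => -4 * (n + c) * (1 + 2 * c * x) * (s φ * (s φ * K2 x φ))) Real.pi_pos.le
    ?_ (h2.continuousOn.mul h.c1) ?_ hx
  · rw [intervalIntegral.integral_const_mul] at h1
    exact h1
  · intro x hx φ
    exact ((h.d1 x hx φ).const_mul (s φ)).congr_deriv (by ring)
  · have : Continuous fun p : ℝ × ℝ => -4 * (n + c) * (1 + 2 * c * p.1) := by fun_prop
    exact this.continuousOn.mul (h2.continuousOn.mul (h2.continuousOn.mul h.c2))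

lemma S_pos {x : ℝ} (hx : x ∈ U c) : 0 < ∫ φ in (0:ℝ)..Real.pi, K0 x φ :=
  intervalIntegral.intervalIntegral_pos_of_pos_on ((sec h.c0 hx).intervalIntegrable _ _)
    (fun φ _ => h.pos0 x hx φ) Real.pi_pos

lemma J_nonneg {x : ℝ} (hx : x ∈ U c) : 0 ≤ ∫ φ in (0:ℝ)..Real.pi, s φ * K1 x φ :=
  intervalIntegral.integral_nonneg Real.pi_pos.le
    (fun φ _ => mul_nonneg (s_nonneg φ) (h.pos x hx φ).le)

/-- `w² J ≤ S` -/
lemma AJ_le {x : ℝ} (hx : x ∈ U c) : (1 + 2 * c * x) ^ 2 * (∫ φ in (0:ℝ)..Real.pi, s φ * K1 x φ) ≤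
    ∫ φ in (0:ℝ)..Real.pi, K0 x φ := by
  rw [← intervalIntegral.integral_const_mul]
  refine intervalIntegral.integral_mono_on Real.pi_pos.le ?_ ?_ ?_
  · exact (continuous_const.mul (s_cont.mul (sec h.c1 hx))).intervalIntegrable _ _
  · exact (sec h.c0 hx).intervalIntegrable _ _
  · intro φ _
    rw [h.e0 x hx φ]
    have h1 := h.pos x hx φ
    have h2 := s_le_one φ
    nlinarith [mul_nonneg h1.le (sub_nonneg.2 h2)]

/-- the Riccati equation for `u = w J / S` -/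
lemma du {x : ℝ} (hx : x ∈ U c) (hx0 : 0 < x) :
    HasDerivAt (fun x => (1 + 2 * c * x) * (∫ φ in (0:ℝ)..Real.pi, s φ * K1 x φ) /
      ∫ φ in (0:ℝ)..Real.pi, K0 x φ)
      ((2 * (4 * n * (x * (1 + c * x))) * ((1 + 2 * c * x) * (∫ φ in (0:ℝ)..Real.pi, s φ * K1 x φ) /
        ∫ φ in (0:ℝ)..Real.pi, K0 x φ) ^ 2
        - 2 * ((1 + 2 * c * x) + 4 * n * (x * (1 + c * x)) / (1 + 2 * c * x)) *
          ((1 + 2 * c * x) * (∫ φ in (0:ℝ)..Real.pi, s φ * K1 x φ) /
          ∫ φ in (0:ℝ)..Real.pi, K0 x φ) + 1) / (2 * (x * (1 + c * x)))) x := by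
  have hS := h.S_pos hx
  have hX := X_pos hx hx0
  have hw : 0 < 1 + 2 * c * x := hx
  have hw' : HasDerivAt (fun x : ℝ => 1 + 2 * c * x) (2 * c) x := by
    simpa using ((hasDerivAt_id x).const_mul (2 * c)).const_add 1
  have h1 := (hw'.mul (h.dJ hx)).div (h.dS hx) hS.ne'
  refine h1.congr_deriv ?_
  have hid := h.identity hx
  simp only [Pi.mul_apply]
  set S := ∫ φ in (0:ℝ)..Real.pi, K0 x φ with hSdef
  set J1 := ∫ φ in (0:ℝ)..Real.pi, s φ * K1 x φ with hJ1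
  set J2 := ∫ φ in (0:ℝ)..Real.pi, s φ * (s φ * K2 x φ) with hJ2
  set X := x * (1 + c * x) with hXdef
  set w := 1 + 2 * c * x with hwdef
  have hA : w ^ 2 = 1 + 4 * c * X := by rw [hwdef, hXdef]; ring
  have hJ2' : (n + c) * w ^ 2 * J2 = ((2 + 4 * c * X + 8 * (n + c) * X) * J1 - S) / (8 * X) := by
    field_simp
    linarith
  field_simp
  have e1 : w * J2 * (n + c) * w = (n + c) * w ^ 2 * J2 := by ring
  have : 8 * X * ((n + c) * w ^ 2 * J2) = (2 + 4 * c * X + 8 * (n + c) * X) * J1 - S := by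
    rw [hJ2']; field_simp
  have hA1 : w ^ 2 = 1 + 4 * c * X := hA
  linear_combination (-S) * this + (2 * J1 * S) * hA1

end Ker

end Pool.Agent.K7.H80.LC
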