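import Pool.Agent.K7.H80.LC1

/-! Log-convexity of sums of squares of Baskakov-type fundamental functions: the barrier. -/

set_option autoImplicit false

open Set MeasureTheory Filter Topology intervalIntegral

namespace Pool.Agent.K7.H80.LC

/-- `v = 4 n X / w` -/
noncomputable def vv (n c x : ℝ) : ℝ := 4 * n * (x * (1 + c * x)) / (1 + 2 * c * x)

/-- `τ = √(w² + v²)` -/
noncomputable def tt (n c x : ℝ) : ℝ := Real.sqrt ((1 + 2 * c * x) ^ 2 + vv n c x ^ 2)

/-- `ρ = τ + w + v` -/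
noncomputable def rr (n c x : ℝ) : ℝ := tt n c x + (1 + 2 * c * x) + vv n c x

lemma tt_nonneg (n c x : ℝ) : 0 ≤ tt n c x := Real.sqrt_nonneg _

lemma tt_sq (n c x : ℝ) : tt n c x ^ 2 = (1 + 2 * c * x) ^ 2 + vv n c x ^ 2 :=
  Real.sq_sqrt (by positivity)

lemma le_tt (n c x : ℝ) : vv n c x ≤ tt n c x :=
  Real.le_sqrt_of_sq_le (by nlinarith [sq_nonneg (1 + 2 * c * x)])

lemma le_tt' (n c x : ℝ) : 1 + 2 * c * x ≤ tt n c x :=
  Real.le_sqrt_of_sq_le (by nlinarith [sq_nonneg (vv n c x)])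

lemma vv_nonneg {n c x : ℝ} (hn : 0 < n) (hx : x ∈ U c) (h0 : 0 ≤ x) : 0 ≤ vv n c x := by
  have hw : 0 < 1 + 2 * c * x := hx
  have h1 : 0 < 1 + c * x := by nlinarith
  unfold vv
  positivity

lemma vv_sub {n c x y : ℝ} (hx : x ∈ U c) (hy : y ∈ U c) :
    vv n c y - vv n c x = 4 * n * ((y - x) * (1 + c * (x + y) + 2 * c ^ 2 * x * y)) /
      ((1 + 2 * c * x) * (1 + 2 * c * y)) := by
  have h1 : (1 + 2 * c * x) ≠ 0 := (show 0 < 1 + 2 * c * x from hx).ne'
  have h2 : (1 + 2 * c * y) ≠ 0 := (show 0 < 1 + 2 * c * y from hy).ne'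
  unfold vv
  rw [div_sub_div _ _ h2 h1, div_eq_div_iff (mul_ne_zero h2 h1) (mul_ne_zero h1 h2)]
  ring

lemma aux_pos {c x y : ℝ} (hx : x ∈ U c) (hy : y ∈ U c) :
    0 ≤ 1 + c * (x + y) + 2 * c ^ 2 * x * y := by
  have h1 : 0 < 1 + 2 * c * x := hx
  have h2 : 0 < 1 + 2 * c * y := hy
  nlinarith [mul_pos h1 h2]

lemma vv_mono {n c x y : ℝ} (hn : 0 < n) (hx : x ∈ U c) (hy : y ∈ U c) (h0 : 0 ≤ x)
    (hxy : x ≤ y) : vv n c x ≤ vv n c y := by
  have h1 : 0 < 1 + 2 * c * x := hx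
  have h2 : 0 < 1 + 2 * c * y := hy
  have h := vv_sub (n := n) hx hy
  have h3 := aux_pos hx hy
  have h4 : 0 ≤ vv n c y - vv n c x := by
    rw [h]
    have : 0 ≤ y - x := by linarith
    positivity
  linarith

lemma rr_mono {n c : ℝ} (hn : 0 < n) (hnc : 0 ≤ n + c) {x y : ℝ} (hx : x ∈ U c) (hy : y ∈ U c)
    (h0 : 0 ≤ x) (hxy : x ≤ y) : rr n c x ≤ rr n c y := by
  have h1 : 0 < 1 + 2 * c * x := hx
  have h2 : 0 < 1 + 2 * c * y := hy
  have hv := vv_mono hn hx hy h0 hxy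
  have hv0 := vv_nonneg hn hx h0
  rcases le_or_gt 0 c with hc | hc
  · have hw : 1 + 2 * c * x ≤ 1 + 2 * c * y := by nlinarith
    have ht : tt n c x ≤ tt n c y := Real.sqrt_le_sqrt (by gcongr)
    unfold rr
    linarith
  · have hw : 1 + 2 * c * y ≤ 1 + 2 * c * x := by nlinarith
    have ht : tt n c x ≤ tt n c y + ((1 + 2 * c * x) - (1 + 2 * c * y)) := by
      refine Real.sqrt_le_iff.2 ⟨by have := tt_nonneg n c y; linarith, ?_⟩
      have e1 := tt_sq n c y
      have e2 := le_tt' n c y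
      have e3 : vv n c x ^ 2 ≤ vv n c y ^ 2 := pow_le_pow_left₀ hv0 hv 2
      nlinarith [mul_nonneg (sub_nonneg.2 e2) (sub_nonneg.2 hw)]
    have h5 : 2 * ((1 + 2 * c * x) - (1 + 2 * c * y)) ≤ vv n c y - vv n c x := by
      rw [vv_sub hx hy, le_div_iff₀ (mul_pos h1 h2)]
      have e1 : 2 * ((1 + 2 * c * x) - (1 + 2 * c * y)) = 4 * (-c) * (y - x) := by ring
      rw [e1]
      have e2 : (1 + 2 * c * x) * (1 + 2 * c * y) ≤ 1 + c * (x + y) + 2 * c ^ 2 * x * y := by
        have hx' : 0 ≤ 1 + 2 * c * x := h1.le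
        have hy' : 0 ≤ 1 + 2 * c * y := h2.le
        -- 0 ≤ -c (x+y) - 2 c² x y
        have a1 : 0 ≤ (-c) * x * (1 + 2 * c * y) := by
          have : 0 ≤ (-c) * x := mul_nonneg (by linarith) h0
          exact mul_nonneg this hy'
        have a2 : 0 ≤ (-c) * y * (1 + 2 * c * x) := by
          have : 0 ≤ (-c) * y := mul_nonneg (by linarith) (by linarith)
          exact mul_nonneg this hx'
        nlinarith
      have e3 : 0 ≤ y - x := by linarith
      have e4 : 0 ≤ 1 + c * (x + y) + 2 * c ^ 2 * x * y := aux_pos hx hy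
      have e5 : -c ≤ n := by linarith
      have e6 : 4 * (-c) * (y - x) * ((1 + 2 * c * x) * (1 + 2 * c * y)) ≤
          4 * (-c) * (y - x) * (1 + c * (x + y) + 2 * c ^ 2 * x * y) :=
        mul_le_mul_of_nonneg_left e2 (mul_nonneg (by linarith) e3)
      have e7 : (-c) * ((y - x) * (1 + c * (x + y) + 2 * c ^ 2 * x * y)) ≤
          n * ((y - x) * (1 + c * (x + y) + 2 * c ^ 2 * x * y)) :=
        mul_le_mul_of_nonneg_right e5 (mul_nonneg e3 e4)
      nlinarith
    unfold rr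
    linarith

lemma vv_cont (n c : ℝ) : ContinuousOn (vv n c) (U c) := by
  unfold vv
  refine ContinuousOn.div (by fun_prop) (by fun_prop) fun x hx => ?_
  have : 0 < 1 + 2 * c * x := hx
  exact this.ne'

lemma rr_cont (n c : ℝ) : ContinuousOn (rr n c) (U c) := by
  unfold rr tt
  have := vv_cont n c
  exact ((((by fun_prop : Continuous fun x : ℝ => (1 + 2 * c * x) ^ 2).continuousOn.add
    (this.pow 2)).sqrt).add (by fun_prop : Continuous fun x : ℝ => 1 + 2 * c * x).continuousOn).add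
    this

/-- the factorisation of the quadratic -/
lemma q_eq {n c x u : ℝ} (hx : x ∈ U c) :
    2 * (4 * n * (x * (1 + c * x))) * u ^ 2 - 2 * ((1 + 2 * c * x) +
      4 * n * (x * (1 + c * x)) / (1 + 2 * c * x)) * u + 1 =
      (1 - rr n c x * u) * (1 - ((1 + 2 * c * x) + vv n c x - tt n c x) * u) := by
  have hw : 0 < 1 + 2 * c * x := hx
  have e1 := tt_sq n c x
  have e2 : 4 * n * (x * (1 + c * x)) = (1 + 2 * c * x) * vv n c x := by
    unfold vv; rw [mul_div_cancel₀ _ hw.ne']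
  have e3 : 4 * n * (x * (1 + c * x)) / (1 + 2 * c * x) = vv n c x := rfl
  rw [e3, e2]
  unfold rr
  linear_combination (u ^ 2) * e1

namespace Ker

variable {n c : ℝ} {K0 K1 K2 : ℝ → ℝ → ℝ} (h : Ker n c K0 K1 K2)

/-- `u = w J / S` -/
noncomputable def uu (c : ℝ) (K0 K1 : ℝ → ℝ → ℝ) (x : ℝ) : ℝ :=
  (1 + 2 * c * x) * (∫ φ in (0:ℝ)..Real.pi, s φ * K1 x φ) / ∫ φ in (0:ℝ)..Real.pi, K0 x φ

include h

lemma uu_du {x : ℝ} (hx : x ∈ U c) (hx0 : 0 < x) :
    HasDerivAt (uu c K0 K1) ((1 - rr n c x * uu c K0 K1 x) *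
      (1 - ((1 + 2 * c * x) + vv n c x - tt n c x) * uu c K0 K1 x) / (2 * (x * (1 + c * x)))) x := by
  have := h.du hx hx0
  rw [← q_eq hx]
  exact this

lemma uu_nonneg {x : ℝ} (hx : x ∈ U c) : 0 ≤ uu c K0 K1 x := by
  have hw : 0 < 1 + 2 * c * x := hx
  exact div_nonneg (mul_nonneg hw.le (h.J_nonneg hx)) (h.S_pos hx).le

lemma w_uu {x : ℝ} (hx : x ∈ U c) : (1 + 2 * c * x) * uu c K0 K1 x ≤ 1 := by
  have h1 := h.AJ_le hx
  have hS := h.S_pos hx
  unfold uu
  rw [mul_div_assoc', div_le_one hS]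
  linarith

lemma uu_cont : ContinuousOn (uu c K0 K1) (U c) := by
  intro x hx
  have h1 := (h.dJ hx).continuousAt
  have h2 := (h.dS hx).continuousAt
  have h3 : ContinuousAt (fun x : ℝ => 1 + 2 * c * x) x := by fun_prop
  exact ((h3.mul h1).div h2 (h.S_pos hx).ne').continuousWithinAt

lemma uu_zero : uu c K0 K1 0 = 1 / 2 := by
  unfold uu
  simp only [h.z0, h.z1, mul_zero, add_zero, one_mul, mul_one]
  have h1 : ∫ φ in (0:ℝ)..Real.pi, s φ = Real.pi / 2 := by
    have e : ∀ φ, s φ = 1 / 2 - Real.cos φ / 2 := fun φ => by have := cos_eq φ; linarith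
    simp_rw [e]
    rw [intervalIntegral.integral_sub, intervalIntegral.integral_const,
      intervalIntegral.integral_div, integral_cos, Real.sin_pi, Real.sin_zero]
    · simp; ring
    · exact intervalIntegrable_const
    · exact (Real.continuous_cos.div_const _).intervalIntegrable _ _
  rw [h1, intervalIntegral.integral_const]
  simp
  field_simp

omit h in
lemma seg {x y : ℝ} (hy : y ∈ U c) (h0 : 0 ≤ x) (hxy : x ≤ y) : x ∈ U c := by
  have h1 : 0 < 1 + 2 * c * y := hy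
  change 0 < 1 + 2 * c * x
  rcases le_or_gt 0 c with hc | hc
  · positivity
  · nlinarith

/-- the barrier -/
lemma barrier (hn : 0 < n) (hnc : 0 ≤ n + c) {x : ℝ} (hx : x ∈ U c) (h0 : 0 ≤ x) :
    1 ≤ rr n c x * uu c K0 K1 x := by
  by_contra hcon
  push Not at hcon
  have hsub : Icc 0 x ⊆ U c := fun y hy => seg hx hy.1 hy.2
  have hcont : ContinuousOn (fun y => rr n c y * uu c K0 K1 y) (Icc 0 x) :=
    ((rr_cont n c).mul h.uu_cont).mono hsub
  set T : Set ℝ := Icc 0 x ∩ (fun y => rr n c y * uu c K0 K1 y) ⁻¹' (Ici 1) with hT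
  have hTc : IsCompact T :=
    isCompact_Icc.of_isClosed_subset (hcont.preimage_isClosed_of_isClosed isClosed_Icc isClosed_Ici)
      inter_subset_left
  have h0T : (0:ℝ) ∈ T := by
    refine ⟨⟨le_rfl, h0⟩, ?_⟩
    simp only [mem_preimage, mem_Ici]
    rw [h.uu_zero]
    have : rr n c 0 = 2 := by
      unfold rr tt vv
      norm_num
    rw [this]
    norm_num
  obtain ⟨x₀, hx₀, hmax⟩ := hTc.exists_isGreatest ⟨0, h0T⟩
  have hx₀x : x₀ < x := by
    rcases hx₀.1.2.lt_or_eq with h1 | h1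
    · exact h1
    · exfalso
      have := hx₀.2
      rw [h1] at this
      simp only [mem_preimage, mem_Ici] at this
      linarith
  have hbad : ∀ y ∈ Ioo x₀ x, rr n c y * uu c K0 K1 y < 1 := by
    intro y hy
    by_contra h1
    push Not at h1
    have : y ∈ T := ⟨⟨hx₀.1.1.trans hy.1.le, hy.2.le⟩, h1⟩
    exact absurd (hmax this) (not_le.2 hy.1)
  have hmono : MonotoneOn (uu c K0 K1) (Icc x₀ x) := by
    refine monotoneOn_of_deriv_nonneg (convex_Icc _ _) ?_ ?_ ?_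
    · exact h.uu_cont.mono (fun y hy => hsub ⟨hx₀.1.1.trans hy.1, hy.2⟩)
    · rw [interior_Icc]
      intro y hy
      have hy0 : 0 < y := hx₀.1.1.trans_lt hy.1
      exact (h.uu_du (hsub ⟨hy0.le, hy.2.le⟩) hy0).differentiableAt.differentiableWithinAt
    · rw [interior_Icc]
      intro y hy
      have hy0 : 0 < y := hx₀.1.1.trans_lt hy.1
      have hyU : y ∈ U c := hsub ⟨hy0.le, hy.2.le⟩
      rw [(h.uu_du hyU hy0).deriv]
      have b1 := hbad y hy
      have b2 := h.uu_nonneg hyU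
      have b3 := X_pos hyU hy0
      have b4 := tt_nonneg n c y
      refine div_nonneg (mul_nonneg (by linarith) ?_) (by linarith)
      unfold rr at b1
      nlinarith [mul_nonneg b4 b2]
  have c1 := hmono (left_mem_Icc.2 hx₀x.le) (right_mem_Icc.2 hx₀x.le) hx₀x.le
  have c2 := rr_mono hn hnc (hsub hx₀.1) hx hx₀.1.1 hx₀x.le
  have c3 : 1 ≤ rr n c x₀ * uu c K0 K1 x₀ := hx₀.2
  have c4 := h.uu_nonneg (hsub hx₀.1)
  have c5 := h.uu_nonneg hx
  have c6 : 0 ≤ rr n c x := by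
    have a1 := tt_nonneg n c x
    have a2 := vv_nonneg hn hx h0
    have a3 : 0 < 1 + 2 * c * x := hx
    unfold rr; linarith
  have c7 : rr n c x₀ * uu c K0 K1 x₀ ≤ rr n c x * uu c K0 K1 x := mul_le_mul c2 c1 c4 c6
  linarith

/-- `u` is antitone -/
lemma uu_anti (hn : 0 < n) (hnc : 0 ≤ n + c) : AntitoneOn (uu c K0 K1) (U c ∩ Ici 0) := by
  have hconv : Convex ℝ (U c ∩ Ici 0) := by
    refine Convex.inter ?_ (convex_Ici 0)
    have : U c = {x | -1 < (2 * c) * x} := by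
      ext x; constructor <;> intro h' <;> simp only [U, mem_ofPred_eq] at h' ⊢ <;> linarith
    rw [this]
    exact convex_halfSpace_gt (IsLinearMap.mk (fun x y => by ring) (fun a x => by simp; ring)) _
  have hint : interior (U c ∩ Ici 0) ⊆ U c ∩ Ioi 0 := by
    rw [interior_inter, interior_Ici, (U_open c).interior_eq]
  refine antitoneOn_of_deriv_nonpos hconv (h.uu_cont.mono inter_subset_left) ?_ ?_
  · intro x hx
    obtain ⟨h1, h2⟩ := hint hx
    exact (h.uu_du h1 h2).differentiableAt.differentiableWithinAt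
  · intro x hx
    obtain ⟨h1, h2⟩ := hint hx
    have h2' : 0 < x := h2
    rw [(h.uu_du h1 h2).deriv]
    have b1 := h.barrier hn hnc h1 h2'.le
    have b2 := h.uu_nonneg h1
    have b3 := X_pos h1 h2
    have b4 := h.w_uu h1
    have b5 := le_tt n c x
    refine div_nonpos_of_nonpos_of_nonneg (mul_nonpos_of_nonpos_of_nonneg (by linarith) ?_)
      (by linarith)
    nlinarith [mul_nonneg (sub_nonneg.2 b5) b2]

/-- the logarithmic derivative -/
lemma dlog {x : ℝ} (hx : x ∈ U c) : HasDerivAt (fun x => Real.log (∫ φ in (0:ℝ)..Real.pi, K0 x φ))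
    (-(4 * n * uu c K0 K1 x)) x := by
  refine ((h.dS hx).log (h.S_pos hx).ne').congr_deriv ?_
  unfold uu
  ring

end Ker

end Pool.Agent.K7.H80.LC
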