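import Pool.Agent.K7.H80.LC2

/-! Log-convexity of sums of squares of Baskakov-type fundamental functions: the two kernels and
the main theorem. -/

set_option autoImplicit false

open Set MeasureTheory Filter Topology intervalIntegral

namespace Pool.Agent.K7.H80.LC

/-- the base `R = 1 + 4 c X s` -/
noncomputable def R (c x φ : ℝ) : ℝ := 1 + 4 * c * (x * (1 + c * x)) * s φ

lemma R_eq (c x φ : ℝ) : R c x φ = (1 - s φ) + s φ * (1 + 2 * c * x) ^ 2 := by
  unfold R; ring

lemma R_pos {c x : ℝ} (hx : x ∈ U c) (φ : ℝ) : 0 < R c x φ := by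
  have hw : 0 < 1 + 2 * c * x := hx
  rw [R_eq]
  have h1 := s_nonneg φ
  have h2 := s_le_one φ
  rcases h2.lt_or_eq with h3 | h3
  · have : 0 ≤ s φ * (1 + 2 * c * x) ^ 2 := by positivity
    linarith
  · rw [h3]; simp only [sub_self, zero_add, one_mul]; positivity

lemma R_nonneg (c x φ : ℝ) : 0 ≤ R c x φ := by
  rw [R_eq]
  have h1 := s_nonneg φ
  have h2 := s_le_one φ
  have : 0 ≤ s φ * (1 + 2 * c * x) ^ 2 := by positivity
  linarith

lemma R_dx (c x φ : ℝ) : HasDerivAt (fun x => R c x φ) (4 * c * (1 + 2 * c * x) * s φ) x := by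
  have h1 : HasDerivAt (fun x : ℝ => x * (1 + c * x)) (1 + 2 * c * x) x := by
    have := (hasDerivAt_id x).mul (((hasDerivAt_id x).const_mul c).const_add 1)
    refine this.congr_deriv ?_
    simp only [id]
    ring
  have h2 := ((h1.const_mul (4 * c)).mul_const (s φ)).const_add 1
  exact h2

lemma s_d (φ : ℝ) : HasDerivAt s (Real.sin φ / 2) φ := by
  have h1 : HasDerivAt (fun φ : ℝ => φ / 2) (1 / 2) φ := (hasDerivAt_id φ).div_const 2
  have h2 := (h1.sin).pow 2
  refine h2.congr_deriv ?_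
  have h3 := Real.sin_two_mul (φ / 2)
  rw [show 2 * (φ / 2) = φ by ring] at h3
  rw [h3]
  norm_num
  ring

lemma R_dφ (c x φ : ℝ) :
    HasDerivAt (fun φ => R c x φ) (4 * c * (x * (1 + c * x)) * (Real.sin φ / 2)) φ :=
  ((s_d φ).const_mul _).const_add 1

@[fun_prop] lemma R_cont (c : ℝ) : Continuous fun p : ℝ × ℝ => R c p.1 p.2 := by
  unfold R; fun_prop

/-- the kernels for `c ≠ 0` -/
theorem ker_ne {n c : ℝ} (hc : c ≠ 0) :
    Ker n c (fun x φ => R c x φ ^ (-n / c)) (fun x φ => R c x φ ^ (-n / c - 1))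
      (fun x φ => R c x φ ^ (-n / c - 2)) := by
  have hcont : ∀ q : ℝ, ContinuousOn (Function.uncurry fun x φ => R c x φ ^ q) (U c ×ˢ univ) := by
    intro q
    refine ContinuousOn.rpow_const (R_cont c).continuousOn fun p hp => ?_
    exact Or.inl (R_pos hp.1 p.2).ne'
  refine ⟨?_, ?_, ?_, ?_, ?_, ?_, ?_, hcont _, hcont _, hcont _, ?_, ?_⟩
  · intro x hx φ
    have h := R_pos hx φ
    change R c x φ ^ (-n / c) = R c x φ * R c x φ ^ (-n / c - 1)
    rw [mul_comm, ← Real.rpow_add_one h.ne']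
    congr 1; ring
  · intro x hx φ
    have h := R_pos hx φ
    change R c x φ ^ (-n / c - 1) = R c x φ * R c x φ ^ (-n / c - 2)
    rw [mul_comm, ← Real.rpow_add_one h.ne']
    congr 1; ring
  · intro x hx φ
    exact Real.rpow_pos_of_pos (R_pos hx φ) _
  · intro x hx φ
    exact Real.rpow_pos_of_pos (R_pos hx φ) _
  · intro x hx φ
    refine ((R_dx c x φ).rpow_const (Or.inl (R_pos hx φ).ne')).congr_deriv ?_
    field_simp
  · intro x hx φ
    refine ((R_dx c x φ).rpow_const (p := -n / c - 1) (Or.inl (R_pos hx φ).ne')).congr_deriv ?_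
    rw [show -n / c - 1 - 1 = -n / c - 2 by ring]
    field_simp
    ring
  · intro x hx φ
    refine ((R_dφ c x φ).rpow_const (p := -n / c - 1) (Or.inl (R_pos hx φ).ne')).congr_deriv ?_
    rw [show -n / c - 1 - 1 = -n / c - 2 by ring]
    field_simp
    ring
  · intro φ
    simp [R]
  · intro φ
    simp [R]

/-- the kernels for `c = 0` -/
theorem ker_zero (n : ℝ) :
    Ker n 0 (fun x φ => Real.exp (-4 * n * x * s φ)) (fun x φ => Real.exp (-4 * n * x * s φ))
      (fun x φ => Real.exp (-4 * n * x * s φ)) := by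
  have hcont : ContinuousOn (Function.uncurry fun x φ => Real.exp (-4 * n * x * s φ))
      (U 0 ×ˢ univ) := by
    have : Continuous fun p : ℝ × ℝ => Real.exp (-4 * n * p.1 * s p.2) := by fun_prop
    exact this.continuousOn
  have hd : ∀ x φ : ℝ, HasDerivAt (fun x => Real.exp (-4 * n * x * s φ))
      (Real.exp (-4 * n * x * s φ) * (-4 * n * s φ)) x := by
    intro x φ
    have h1 : HasDerivAt (fun x : ℝ => -4 * n * x * s φ) (-4 * n * s φ) x := by
      simpa using ((hasDerivAt_id x).const_mul (-4 * n)).mul_const (s φ)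
    exact h1.exp
  refine ⟨?_, ?_, ?_, ?_, ?_, ?_, ?_, hcont, hcont, hcont, ?_, ?_⟩
  · intro x _ φ; simp
  · intro x _ φ; simp
  · intro x _ φ; exact Real.exp_pos _
  · intro x _ φ; exact Real.exp_pos _
  · intro x _ φ
    refine (hd x φ).congr_deriv ?_
    ring
  · intro x _ φ
    refine (hd x φ).congr_deriv ?_
    ring
  · intro x _ φ
    have h1 : HasDerivAt (fun φ : ℝ => -4 * n * x * s φ) (-4 * n * x * (Real.sin φ / 2)) φ :=
      (s_d φ).const_mul _
    refine h1.exp.congr_deriv ?_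
    ring
  · intro φ; simp
  · intro φ; simp

/-- log-convexity on the half line, from the kernels, for `c ≥ 0` -/
theorem convex_nonneg {n c : ℝ} (hn : 0 < n) (hc : 0 ≤ c) {K0 K1 K2 : ℝ → ℝ → ℝ}
    (h : Ker n c K0 K1 K2) :
    ConvexOn ℝ (Ici 0) (fun x => Real.log (∫ φ in (0:ℝ)..Real.pi, K0 x φ)) := by
  have hU : ∀ x : ℝ, 0 ≤ x → x ∈ U c := fun x hx => by
    change 0 < 1 + 2 * c * x
    positivity
  refine MonotoneOn.convexOn_of_deriv (convex_Ici 0) ?_ ?_ ?_
  · intro x hx
    exact (h.dlog (hU x hx)).continuousAt.continuousWithinAt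
  · intro x hx
    rw [interior_Ici] at hx
    exact (h.dlog (hU x (le_of_lt hx))).differentiableAt.differentiableWithinAt
  · rw [interior_Ici]
    intro x hx y hy hxy
    rw [(h.dlog (hU x (le_of_lt hx))).deriv, (h.dlog (hU y (le_of_lt hy))).deriv]
    have := h.uu_anti hn (by linarith) ⟨hU x (le_of_lt hx), le_of_lt (α := ℝ) hx⟩
      ⟨hU y (le_of_lt hy), le_of_lt (α := ℝ) hy⟩ hxy
    nlinarith

/-- for `c < 0` and `m = -n/c` -/
noncomputable def P (c : ℝ) (m : ℕ) (x : ℝ) : ℝ := ∫ φ in (0:ℝ)..Real.pi, R c x φ ^ m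

lemma P_diff (c : ℝ) (m : ℕ) (x : ℝ) : DifferentiableAt ℝ (P c m) x := by
  have h1 := hasDerivAt_param isOpen_univ (F := fun x φ => R c x φ ^ m)
    (F' := fun x φ => m * R c x φ ^ (m - 1) * (4 * c * (1 + 2 * c * x) * s φ)) Real.pi_pos.le
    (fun x _ φ => (R_dx c x φ).pow m) ?_ ?_ (mem_univ x)
  · exact h1.differentiableAt
  · exact ((R_cont c).pow m).continuousOn
  · have h2 : Continuous fun p : ℝ × ℝ => (m : ℝ) * R c p.1 p.2 ^ (m - 1) *
        (4 * c * (1 + 2 * c * p.1) * s p.2) := by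
      have := R_cont c
      fun_prop
    exact h2.continuousOn

lemma P_symm {c : ℝ} (hc : c ≠ 0) (m : ℕ) (x : ℝ) : P c m (-1 / c - x) = P c m x := by
  unfold P
  congr 1
  funext φ
  congr 1
  unfold R
  field_simp
  ring

lemma P_pos (c : ℝ) (m : ℕ) (x : ℝ) : 0 < P c m x := by
  unfold P
  refine intervalIntegral.intervalIntegral_pos_of_pos_on ?_ ?_ Real.pi_pos
  · have : Continuous fun φ : ℝ => R c x φ ^ m := by
      have h1 : Continuous fun φ : ℝ => R c x φ := (R_cont c).comp (by fun_prop : Continuous fun φ : ℝ => (x, φ))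
      exact h1.pow m
    exact this.intervalIntegrable _ _
  · intro φ hφ
    refine pow_pos ?_ m
    rw [R_eq]
    have h1 : s φ < 1 := by
      unfold s
      have h2 : 0 < Real.cos (φ / 2) := Real.cos_pos_of_mem_Ioo ⟨by linarith [hφ.1, Real.pi_pos], by linarith [hφ.2]⟩
      have h3 := Real.sin_sq_add_cos_sq (φ / 2)
      nlinarith
    have h4 := s_nonneg φ
    have : 0 ≤ s φ * (1 + 2 * c * x) ^ 2 := by positivity
    linarith

/-- log-convexity for `c < 0` -/
theorem convex_neg {n c : ℝ} (hn : 0 < n) (hc : c < 0) {m : ℕ} (hm : 0 < m) (hnm : -n / c = m) :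
    ConvexOn ℝ (Icc 0 (-1 / c)) (fun x => Real.log (P c m x)) := by
  have hc0 : c ≠ 0 := hc.ne
  have hnc : 0 ≤ n + c := by
    have h1 : n = -c * m := by
      rw [← hnm]; field_simp
    have h2 : (1:ℝ) ≤ m := by exact_mod_cast hm
    nlinarith
  have hker := ker_ne (n := n) hc.ne
  have hP : ∀ x, P c m x = ∫ φ in (0:ℝ)..Real.pi, R c x φ ^ (-n / c) := by
    intro x
    unfold P
    simp_rw [hnm, Real.rpow_natCast]
  have hPf : (fun x => Real.log (P c m x)) =
      fun x => Real.log (∫ φ in (0:ℝ)..Real.pi, R c x φ ^ (-n / c)) := by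
    funext x; rw [hP]
  set f : ℝ → ℝ := fun x => Real.log (P c m x) with hf
  have hdiff : ∀ x, DifferentiableAt ℝ f x := fun x => (P_diff c m x).log (P_pos c m x).ne'
  have hsymm : ∀ x, f (-1 / c - x) = f x := fun x => by
    simp only [hf]; rw [P_symm hc.ne]
  have hdsymm : ∀ x, deriv f (-1 / c - x) = -deriv f x := by
    intro x
    have h1 : HasDerivAt (fun y : ℝ => -1 / c - y) (-1) x := by
      simpa using (hasDerivAt_id x).const_sub (-1 / c)
    have h2 := (hdiff (-1 / c - x)).hasDerivAt.comp x h1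
    have h3 : (f ∘ fun y : ℝ => -1 / c - y) = f := funext fun y => hsymm y
    rw [h3] at h2
    have h4 := h2.unique (hdiff x).hasDerivAt
    linarith
  set M : ℝ := -1 / c / 2 with hM
  have hUm : ∀ x, x < M → x ∈ U c := by
    intro x hx
    change 0 < 1 + 2 * c * x
    have h1 : c * M < c * x := mul_lt_mul_of_neg_left hx hc
    have h2 : c * M = -1 / 2 := by rw [hM]; field_simp
    linarith
  have hd1 : ∀ x, x < M → deriv f x = -(4 * n * Ker.uu c (fun x φ => R c x φ ^ (-n / c))
      (fun x φ => R c x φ ^ (-n / c - 1)) x) := by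
    intro x hx
    rw [hPf]
    exact (hker.dlog (hUm x hx)).deriv
  have hneg : ∀ x, 0 ≤ x → x ≤ M → deriv f x ≤ 0 := by
    intro x h0 hx
    rcases hx.lt_or_eq with h1 | h1
    · rw [hd1 x h1]
      have := hker.uu_nonneg (hUm x h1)
      have : 0 ≤ 4 * n * Ker.uu c (fun x φ => R c x φ ^ (-n / c))
        (fun x φ => R c x φ ^ (-n / c - 1)) x := by positivity
      linarith
    · have := hdsymm x
      rw [show -1 / c - x = x by rw [h1, hM]; ring] at this
      linarith
  have hmono : ∀ x y, 0 ≤ x → x ≤ y → y < M → deriv f x ≤ deriv f y := by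
    intro x y h0 hxy hy
    rw [hd1 x (hxy.trans_lt hy), hd1 y hy]
    have := hker.uu_anti hn hnc ⟨hUm x (hxy.trans_lt hy), h0⟩ ⟨hUm y hy, h0.trans hxy⟩ hxy
    nlinarith
  refine MonotoneOn.convexOn_of_deriv (convex_Icc _ _)
    (fun x _ => (hdiff x).continuousAt.continuousWithinAt)
    (fun x _ => (hdiff x).differentiableWithinAt) ?_
  rw [interior_Icc]
  intro x hx y hy hxy
  have hMM : -1 / c = M + M := by rw [hM]; ring
  rcases lt_or_ge y M with h1 | h1
  · exact hmono x y hx.1.le hxy h1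
  · -- `deriv f y ≥ 0`
    have h2 : 0 ≤ deriv f y := by
      have h3 := hneg (-1 / c - y) (by linarith [hy.2]) (by linarith)
      rw [hdsymm] at h3
      linarith
    rcases le_or_gt x M with h3 | h3
    · exact (hneg x hx.1.le h3).trans h2
    · have h4 := hmono (-1 / c - y) (-1 / c - x) (by linarith [hy.2]) (by linarith) (by linarith)
      rw [hdsymm, hdsymm] at h4
      linarith

end Pool.Agent.K7.H80.LC
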