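import Pool.Agent.K7.H80.LC3

/-!
# MP_6ebaa4_an: `log S_{n,c}` is convex

Full positive answer to Q1. Idea: let `w = 1 + 2 c x`, `X = x (1 + c x)` and
`u = - S' / (4 n S)`. The differential equation of `S = S_{n,c}` becomes the Riccati equation
`2 X u' = (1 - ρ u) (1 - σ u)` with `ρ, σ = w + v ± √(w² + v²)`, `v = 4 n X / w`. The function `ρ` is
nondecreasing in `x` and `ρ u = 1` at `x = 0`, so `ρ u ≥ 1` for all `x` (where `ρ u < 1` the
function `u` would increase); and `σ u ≤ w u ≤ 1`, by a pointwise bound of the integrands. So `u` is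
nonincreasing, that is, `S' / S` is nondecreasing.
-/

set_option autoImplicit false

open Set

namespace Pool.Agent.K7.H80.LogConvexKnown

/-- Admissible parameters: `n > 0`, and `-n/c` is a positive integer if `c < 0`. -/
def Admissible (n c : ℝ) : Prop := 0 < n ∧ (c < 0 → ∃ m : ℕ, 0 < m ∧ -n / c = m)

/-- The interval `I_c`: `[0, ∞)` for `c ≥ 0`, and `[0, -1/c]` for `c < 0`. -/
def domain (c : ℝ) : Set ℝ := if 0 ≤ c then Ici 0 else Icc 0 (-1 / c)

/-- The function `S_{n,c}`. -/
noncomputable def S (n c x : ℝ) : ℝ :=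
  if c = 0 then
    (1 / Real.pi) * ∫ φ in (0:ℝ)..Real.pi, Real.exp (-4 * n * x * Real.sin (φ / 2) ^ 2)
  else
    (1 / Real.pi) * ∫ φ in (0:ℝ)..Real.pi,
      (1 + 4 * c * (x * (1 + c * x)) * Real.sin (φ / 2) ^ 2) ^ (-n / c)

/-- For all admissible `n, c` the function `S_{n,c}` is positive on `I_c` and `log S_{n,c}` is
convex on `I_c`. -/
theorem result : ∀ n c : ℝ, Admissible n c →
    (∀ x ∈ domain c, 0 < S n c x) ∧ ConvexOn ℝ (domain c) (fun x => Real.log (S n c x)) := by
  rintro n c ⟨hn, hneg⟩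
  have hpi : 0 < 1 / Real.pi := by positivity
  -- the general scheme
  have scheme : ∀ (D : Set ℝ) (I : ℝ → ℝ), (∀ x ∈ D, 0 < I x) →
      (∀ x ∈ D, S n c x = (1 / Real.pi) * I x) → ConvexOn ℝ D (fun x => Real.log (I x)) →
      (∀ x ∈ D, 0 < S n c x) ∧ ConvexOn ℝ D (fun x => Real.log (S n c x)) := by
    intro D I hpos hS hconv
    refine ⟨fun x hx => by rw [hS x hx]; exact mul_pos hpi (hpos x hx), ?_⟩
    have h1 : ConvexOn ℝ D (fun x => Real.log (1 / Real.pi) + Real.log (I x)) :=
      (convexOn_const _ hconv.1).add hconv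
    refine h1.congr fun x hx => ?_
    simp only
    rw [hS x hx, Real.log_mul hpi.ne' (hpos x hx).ne']
  unfold domain
  split_ifs with hc
  · rcases hc.eq_or_lt with h0 | h0
    · subst h0
      have hker := Pool.Agent.K7.H80.LC.ker_zero n
      refine scheme (Ici 0) _ ?_ ?_
        (Pool.Agent.K7.H80.LC.convex_nonneg hn le_rfl hker)
      · intro x _
        exact hker.S_pos (by simp [Pool.Agent.K7.H80.LC.U])
      · intro x _
        unfold S
        rw [if_pos rfl]
        rfl
    · have hker := Pool.Agent.K7.H80.LC.ker_ne (n := n) h0.ne'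
      refine scheme (Ici 0) _ ?_ ?_
        (Pool.Agent.K7.H80.LC.convex_nonneg hn h0.le hker)
      · intro x hx
        have hx' : 0 ≤ x := hx
        refine hker.S_pos ?_
        change 0 < 1 + 2 * c * x
        positivity
      · intro x _
        unfold S
        rw [if_neg h0.ne']
        rfl
  · push Not at hc
    obtain ⟨m, hm, hnm⟩ := hneg hc
    refine scheme _ (Pool.Agent.K7.H80.LC.P c m) (fun x _ => Pool.Agent.K7.H80.LC.P_pos c m x) ?_
      (Pool.Agent.K7.H80.LC.convex_neg hn hc hm hnm)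
    intro x _
    unfold S
    rw [if_neg hc.ne]
    congr 1
    unfold Pool.Agent.K7.H80.LC.P
    congr 1
    funext φ
    rw [hnm, Real.rpow_natCast]
    rfl

end Pool.Agent.K7.H80.LogConvexKnown
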